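import Pool.Agent.Helper43.IPL.Flat
import Pool.Agent.Helper54.IP.GSwap

/-!
MP_d2f54f_al (inverting pairs): the local flatness alternative with both type 1 relations, and the
degenerate-column lemma.
-/

namespace Pool.Agent.Helper43.IPL

open Pool.Agent.Helper54.IP

section alg

variable {F : Type*} [Field F]

theorem flat_alg3 (x x' be de s s' t T X Y lam mu u v u' v' V V' g g' e e' : F)
    (hs : s ≠ 0) (hs' : s' ≠ 0) (hss : s' - s ≠ 0) (hX : X ≠ 0)
    (hT : T ≠ 0) (ht1 : t - 1 ≠ 0) (hT1 : T - 1 ≠ 0) (hTt : T - t ≠ 0)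
    (hx : x ≠ 0) (hx' : x' ≠ 0)
    (hV : V = X * v) (hV' : V' = X * v')
    (hu : u = 1 - x + x * s) (hv : s * v = (1 - x') * s + x')
    (hu' : u' = 1 - x + x * s') (hv' : s' * v' = (1 - x') * s' + x')
    (hg : g = s * ((1 - be) * u + be * v)) (he : s * e = Y * ((1 - de) * u + de * v))
    (hg' : g' = s' * ((1 - be) * u' + be * v')) (he' : s' * e' = Y * ((1 - de) * u' + de * v'))
    (U1 : u' = (1 - lam) * (t * u) + lam * V)
    (U1' : t * V' = (1 - mu) * (t * u) + mu * V)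
    (U2 : g' = (1 - lam) * (T * g) + lam * e)
    (U2' : T * e' = (1 - mu) * (T * g) + mu * e)
    (E1 : t * (g * V - e * u) * (T - 1) * (t - 1)
        - X * (1 - x') * (g - e) * (T - t) * (t - 1)
        - x' * ((1 - be) * X + be * t) * (u - V) * (T - t) * (T - 1) = 0)
    (E2 : T * X * (V * g - u * e) * (T - 1) * (t - 1)
        - T * X * (1 - x) * (g - e) * (T - t) * (t - 1)
        - x * Y * ((1 - de) * X + de * t) * (u - V) * (T - t) * (T - 1) = 0)
    (hgh : g ≠ 0 ∨ e ≠ 0) :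
    u - V = 0 ∨ V - t * u = 0 ∨ V' - u' = 0 ∨ s * T = t * s' ∨
      (s * (V - u') * T = s' * (V' - u) ∧ (1 - be) * (s * s' * X) = de * Y) := by
  by_cases hD : u - V = 0
  · exact Or.inl hD
  by_cases hk : V - t * u = 0
  · exact Or.inr (Or.inl hk)
  rcases flat_alg' x x' be de s s' t T X Y lam mu u v u' v' V V' g g' e e' hs hs' hss hX hT ht1 hT1
    hTt hx hx' hV hV' hu hv hu' hv' hg he hg' he' U1 U1' U2 U2' E1 E2 hgh with h | h | h | h | h
  · exact Or.inl h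
  · exact Or.inr (Or.inl h)
  · exact Or.inr (Or.inr (Or.inl h))
  · exact Or.inr (Or.inr (Or.inr (Or.inl h)))
  · rcases mult_alg x x' be de s s' t T X Y lam mu u v u' v' V V' g g' e e' hs hs' hss hX hT hT1
      hTt hx hx' hV hV' hu hv hu' hv' hg he hg' he' U1 U1' U2 U2' E1 E2 hD hk h with h' | h'
    · exact Or.inr (Or.inr (Or.inr (Or.inl h')))
    · exact Or.inr (Or.inr (Or.inr (Or.inr ⟨h, h'⟩)))

/-- degenerate next column (`V' = u'`): closed or exceptional. -/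
theorem deg_alg (x x' be de s s' t T X Y lam mu u v u' v' V g g' e e' : F)
    (hs : s ≠ 0) (hs' : s' ≠ 0) (hX : X ≠ 0) (hT : T ≠ 0) (ht : t ≠ 0) (ht1 : t - 1 ≠ 0)
    (hV : V = X * v) (hV' : u' = X * v')
    (hu : u = 1 - x + x * s) (hv : s * v = (1 - x') * s + x')
    (hu' : u' = 1 - x + x * s') (hv' : s' * v' = (1 - x') * s' + x')
    (hg : g = s * ((1 - be) * u + be * v)) (he : s * e = Y * ((1 - de) * u + de * v))
    (hg' : g' = s' * ((1 - be) * u' + be * v')) (he' : s' * e' = Y * ((1 - de) * u' + de * v'))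
    (U1 : u' = (1 - lam) * (t * u) + lam * V)
    (U1' : t * u' = (1 - mu) * (t * u) + mu * V)
    (U2 : g' = (1 - lam) * (T * g) + lam * e)
    (U2' : T * e' = (1 - mu) * (T * g) + mu * e)
    (E1 : t * (g * V - e * u) * (T - 1) * (t - 1)
        - X * (1 - x') * (g - e) * (T - t) * (t - 1)
        - x' * ((1 - be) * X + be * t) * (u - V) * (T - t) * (T - 1) = 0)
    (E2 : T * X * (V * g - u * e) * (T - 1) * (t - 1)
        - T * X * (1 - x) * (g - e) * (T - t) * (t - 1)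
        - x * Y * ((1 - de) * X + de * t) * (u - V) * (T - t) * (T - 1) = 0)
    (huV : u ≠ 0 ∨ V ≠ 0) :
    e' = g' ∨ ((T - 1) * u' = (T - t) * (X * (1 - x')) ∧
      t * ((T - 1) * u') = (T - t) * (1 - x)) := by
  have hk1 : (V - t * u) * g' = T * (V - u') * g + (u' - t * u) * e := by
    linear_combination (V - t * u) * U2 + (T * g - e) * U1
  have hk2 : (V - t * u) * (T * e') = T * (V - t * u') * g + t * (u' - u) * e := by
    linear_combination (V - t * u) * U2' + (T * g - e) * U1'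
  have hN : V - t * u ≠ 0 := by
    intro h0
    have h1 : V = t * u := by linear_combination h0
    rw [h1] at U1 U1'
    have h2 : u' = t * u := by linear_combination U1
    have h3 : t * u' = t * u := by linear_combination U1'
    have h4 : t * (t - 1) * u = 0 := by rw [h2] at h3; linear_combination h3
    have h5 : u = 0 := (mul_eq_zero.mp h4).resolve_left (mul_ne_zero ht ht1)
    rcases huV with h | h
    · exact h h5
    · exact h (by rw [h1, h5, mul_zero])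
  have key1 : x' * u' * (((1 - be) * X + be * t) * (u - V))
      = (1 - t) * g * u' * (V - X * (1 - x')) - (V - t * u) * g' * (u' - X * (1 - x')) := by
    apply mul_left_cancel₀ (mul_ne_zero hs hs')
    have a1 : s * (V - X * (1 - x')) = X * x' := by rw [hV]; linear_combination X * hv
    have a2 : s' * (u' - X * (1 - x')) = X * x' := by
      linear_combination s' * hV' + X * hv'
    have b1 : X * g = s * ((1 - be) * (X * u) + be * V) := by rw [hg, hV]; ring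
    have b2 : X * g' = s' * u' * ((1 - be) * X + be) := by
      rw [hg']; linear_combination - s' * be * hV'
    have c1 : s * s' * ((1 - t) * g * u' * (V - X * (1 - x')) - (V - t * u) * g' * (u' - X * (1 - x')))
        = x' * ((1 - t) * u' * s' * (X * g) - (V - t * u) * s * (X * g')) := by
      linear_combination s' * (1 - t) * g * u' * a1 - s * (V - t * u) * g' * a2
    rw [c1, b1, b2]; ring
  have key2 : x * u' * (Y * ((1 - de) * X + de * t) * (u - V))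
      = X * ((1 - t) * e * u' * (u - (1 - x)) - (V - t * u) * e' * (u' - (1 - x))) := by
    have a1 : u - (1 - x) = x * s := by rw [hu]; ring
    have a2 : u' - (1 - x) = x * s' := by rw [hu']; ring
    have b1 : X * (s * e) = Y * ((1 - de) * (X * u) + de * V) := by rw [he, hV]; ring
    have b2 : X * (s' * e') = Y * u' * ((1 - de) * X + de) := by
      rw [he']; linear_combination - Y * de * hV'
    rw [a1, a2]
    linear_combination - x * (1 - t) * u' * b1 + x * (V - t * u) * b2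
  have m1 : (V - t * u) * ((e' - g') * ((T - 1) * u' - (T - t) * (X * (1 - x')))) = 0 := by
    apply mul_left_cancel₀ hT
    linear_combination ((T - 1) * u' - (T - t) * (X * (1 - x'))) * (hk2 - T * hk1)
      - u' * E1 - (T - t) * (T - 1) * key1 + (T - t) * (T - 1) * (u' - X * (1 - x')) * hk1
  have m2 : (V - t * u) * ((e' - g') * (t * ((T - 1) * u') - (T - t) * (1 - x))) = 0 := by
    apply mul_left_cancel₀ (mul_ne_zero hX hT)
    linear_combination X * (t * ((T - 1) * u') - (T - t) * (1 - x)) * (hk2 - T * hk1)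
      - T * u' * E2 - T * (T - t) * (T - 1) * key2
      + X * (T - t) * (T - 1) * (u' - (1 - x)) * hk2
  have m1' := (mul_eq_zero.mp m1).resolve_left hN
  have m2' := (mul_eq_zero.mp m2).resolve_left hN
  by_cases hK : e' - g' = 0
  · exact Or.inl (sub_eq_zero.mp hK)
  · exact Or.inr ⟨sub_eq_zero.mp ((mul_eq_zero.mp m1').resolve_left hK),
      sub_eq_zero.mp ((mul_eq_zero.mp m2').resolve_left hK)⟩

end alg

variable {F : Type*} [Field F] {m : ℕ}

/-- LOCAL FLATNESS ALTERNATIVE with both type 1 relations (additive and multiplicative). -/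
theorem local_flat2 (Γ : GForm F m) (hm : 2 ≤ m) (k : ℕ) (hk : k < m) :
    Γ.G 1 k - Γ.t 1 ^ k * Γ.H 1 k = 0 ∨ Γ.t 1 ^ k * Γ.H 1 k - Γ.t 1 * Γ.G 1 k = 0 ∨
    Γ.t 1 ^ k * Γ.H 1 (k + 1) - Γ.G 1 (k + 1) = 0 ∨ Γ.s k * Γ.t 2 = Γ.t 1 * Γ.s (k + 1) ∨
      (Γ.s k * (Γ.t 1 ^ k * Γ.H 1 k - Γ.G 1 (k + 1)) * Γ.t 2
          = Γ.s (k + 1) * (Γ.t 1 ^ k * Γ.H 1 (k + 1) - Γ.G 1 k) ∧
        (1 - Γ.lam' 1) * (Γ.s k * Γ.s (k + 1) * Γ.t 1 ^ k) = Γ.mu' 1 * Γ.t 2 ^ k) := by
  have t1 := Γ.t_ne 1 (by omega)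
  have t2 := Γ.t_ne 2 (by omega)
  have h21 : Γ.t 2 - Γ.t 1 ≠ 0 := sub_ne_zero.mpr (Γ.t_inj 1 2 (by omega) (by omega)).symm
  have h20 : Γ.t 2 - 1 ≠ 0 := by
    rw [← Γ.t0]; exact sub_ne_zero.mpr (Γ.t_inj 0 2 (by omega) (by omega)).symm
  have h10 : Γ.t 1 - 1 ≠ 0 := by
    rw [← Γ.t0]; exact sub_ne_zero.mpr (Γ.t_inj 0 1 (by omega) (by omega)).symm
  have hs := Γ.s_ne k (by omega)
  have hs' := Γ.s_ne (k + 1) (by omega)
  have hss : Γ.s (k + 1) - Γ.s k ≠ 0 :=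
    sub_ne_zero.mpr (Γ.s_inj k (k + 1) (by omega) (by omega)).symm
  have a1 := Γ.row1G (k := k) (by omega) (by omega)
  have a2 := Γ.row1H (k := k) (by omega) (by omega)
  have a3 := Γ.row2G (k := k) (by omega) (by omega)
  have a4 := Γ.row2H (k := k) (by omega) (by omega)
  have b1 := Γ.row1G (k := k + 1) (by omega) (by omega)
  have b2 := Γ.row1H (k := k + 1) (by omega) (by omega)
  have b3 := Γ.row2G (k := k + 1) (by omega) (by omega)
  have b4 := Γ.row2H (k := k + 1) (by omega) (by omega)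
  have U1 := Γ.U1 1 k (by omega) hk
  have U1' := Γ.U2 1 k (by omega) hk
  have U2 := Γ.U1 2 k (by omega) hk
  have U2' := Γ.U2 2 k (by omega) hk
  have hX : Γ.t 1 ^ k ≠ 0 := pow_ne_zero k t1
  have hY : Γ.t 2 ^ k ≠ 0 := pow_ne_zero k t2
  refine flat_alg3 (1 - Γ.lam' 0) (Γ.mu' 0) (Γ.lam' 1) (Γ.mu' 1) (Γ.s k) (Γ.s (k + 1))
    (Γ.t 1) (Γ.t 2) (Γ.t 1 ^ k) (Γ.t 2 ^ k) (Γ.lam k) (Γ.mu k) (Γ.G 1 k) (Γ.H 1 k)
    (Γ.G 1 (k + 1)) (Γ.H 1 (k + 1)) (Γ.t 1 ^ k * Γ.H 1 k) (Γ.t 1 ^ k * Γ.H 1 (k + 1))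
    (Γ.G 2 k) (Γ.G 2 (k + 1)) (Γ.t 2 ^ k * Γ.H 2 k) (Γ.t 2 ^ k * Γ.H 2 (k + 1))
    hs hs' hss hX t2 h10 h20 h21
    (sub_ne_zero.mpr (Γ.lam'_ne 0 (by omega)).symm) (Γ.mu'_ne 0 (by omega)) rfl rfl
    (by linear_combination a1) a2 (by linear_combination b1) b2
    a3 (by linear_combination Γ.t 2 ^ k * a4) b3 (by linear_combination Γ.t 2 ^ k * b4)
    U1 (by linear_combination U1') U2 (by linear_combination U2')
    (E1c Γ hm k (by omega)) (E2c Γ hm k (by omega)) ?_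
  rcases GH_ne Γ 2 (by omega) k (by omega) with h | h
  · exact Or.inl h
  · exact Or.inr (mul_ne_zero hY h)

/-- DEGENERATE COLUMN LEMMA: if `kap_1^(k+1) = 0` then `kap_2^(k+1) = 0` or both exceptional relations. -/
theorem deg_flat (Γ : GForm F m) (hm : 2 ≤ m) (k : ℕ) (hk : k < m)
    (h : Γ.t 1 ^ k * Γ.H 1 (k + 1) = Γ.G 1 (k + 1)) :
    Γ.t 2 ^ k * Γ.H 2 (k + 1) = Γ.G 2 (k + 1) ∨
    ((Γ.t 2 - 1) * Γ.G 1 (k + 1) = (Γ.t 2 - Γ.t 1) * (Γ.t 1 ^ k * (1 - Γ.mu' 0)) ∧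
      Γ.t 1 * ((Γ.t 2 - 1) * Γ.G 1 (k + 1)) = (Γ.t 2 - Γ.t 1) * Γ.lam' 0) := by
  have t1 := Γ.t_ne 1 (by omega)
  have t2 := Γ.t_ne 2 (by omega)
  have h10 : Γ.t 1 - 1 ≠ 0 := by
    rw [← Γ.t0]; exact sub_ne_zero.mpr (Γ.t_inj 0 1 (by omega) (by omega)).symm
  have hs := Γ.s_ne k (by omega)
  have hs' := Γ.s_ne (k + 1) (by omega)
  have a1 := Γ.row1G (k := k) (by omega) (by omega)
  have a2 := Γ.row1H (k := k) (by omega) (by omega)
  have a3 := Γ.row2G (k := k) (by omega) (by omega)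
  have a4 := Γ.row2H (k := k) (by omega) (by omega)
  have b1 := Γ.row1G (k := k + 1) (by omega) (by omega)
  have b2 := Γ.row1H (k := k + 1) (by omega) (by omega)
  have b3 := Γ.row2G (k := k + 1) (by omega) (by omega)
  have b4 := Γ.row2H (k := k + 1) (by omega) (by omega)
  have U1 := Γ.U1 1 k (by omega) hk
  have U1' := Γ.U2 1 k (by omega) hk
  have U2 := Γ.U1 2 k (by omega) hk
  have U2' := Γ.U2 2 k (by omega) hk
  have hX : Γ.t 1 ^ k ≠ 0 := pow_ne_zero k t1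
  have key := deg_alg (1 - Γ.lam' 0) (Γ.mu' 0) (Γ.lam' 1) (Γ.mu' 1) (Γ.s k) (Γ.s (k + 1))
    (Γ.t 1) (Γ.t 2) (Γ.t 1 ^ k) (Γ.t 2 ^ k) (Γ.lam k) (Γ.mu k) (Γ.G 1 k) (Γ.H 1 k)
    (Γ.G 1 (k + 1)) (Γ.H 1 (k + 1)) (Γ.t 1 ^ k * Γ.H 1 k)
    (Γ.G 2 k) (Γ.G 2 (k + 1)) (Γ.t 2 ^ k * Γ.H 2 k) (Γ.t 2 ^ k * Γ.H 2 (k + 1))
    hs hs' hX t2 t1 h10 rfl h.symm
    (by linear_combination a1) a2 (by linear_combination b1) b2
    a3 (by linear_combination Γ.t 2 ^ k * a4) b3 (by linear_combination Γ.t 2 ^ k * b4)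
    U1 (by linear_combination U1' - Γ.t 1 * h) U2 (by linear_combination U2')
    (E1c Γ hm k (by omega)) (E2c Γ hm k (by omega)) ?_
  · rcases key with h | ⟨h1, h2⟩
    · exact Or.inl h
    · exact Or.inr ⟨h1, by linear_combination h2⟩
  · rcases GH_ne Γ 1 (by omega) k (by omega) with h | h
    · exact Or.inl h
    · exact Or.inr (mul_ne_zero hX h)

/-- two consecutive degenerate columns are impossible. -/
theorem kap_succ_ne (Γ : GForm F m) (hm : 1 ≤ m) (k : ℕ) (hk : k < m) (h : Γ.kap 1 k = 0) :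
    Γ.kap 1 (k + 1) ≠ 0 := by
  intro h'
  have t1 := Γ.t_ne 1 hm
  have h10 : Γ.t 1 - 1 ≠ 0 := by
    rw [← Γ.t0]; exact sub_ne_zero.mpr (Γ.t_inj 0 1 (by omega) (by omega)).symm
  have hD := Γ.D_succ hm hk
  rw [h, mul_zero, GForm.D] at hD
  rw [GForm.kap] at h'
  have h1 : (Γ.t 1 - 1) * Γ.G 1 (k + 1) = 0 := by linear_combination h' - hD
  have h2 := (mul_eq_zero.mp h1).resolve_left h10
  rw [h2] at hD
  have h3 : Γ.t 1 ^ (k + 1) * Γ.H 1 (k + 1) = 0 := by linear_combination - hD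
  exact Γ.ne_zero hm (by omega) ⟨h2, (mul_eq_zero.mp h3).resolve_left (pow_ne_zero _ t1)⟩

end Pool.Agent.Helper43.IPL
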