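import Pool.Agent.Helper43.IPL.Flat2

/-!
MP_d2f54f_al (inverting pairs): the family `t_1 = s_1 = a`, `t_2 = s_2 = -a` of the diagonal branch is
empty for `m ≥ 6`.
-/

namespace Pool.Agent.Helper43.IPL

open Pool.Agent.Helper54.IP

section scal

variable {F : Type*} [Field F]

/-- exceptional relations give the type 1 relation. -/
theorem exc_T1 {a x y e : F} (ha1 : a - 1 ≠ 0) (he : e ≠ 0)
    (hx : (a - 1) * (1 - x) = -((a + 1) * (x * e))) (hy : (a + 1) * y = (a - 1) * ((1 - y) * e)) :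
    ((1 - x) - a * (1 - y)) * (e + 1) = (a * x + y) * (e - 1) := by
  have d1 : x * ((a - 1) - (a + 1) * e) = a - 1 := by linear_combination - hx
  have d2 : y * ((a - 1) * e + (a + 1)) = (a - 1) * e := by linear_combination hy
  have n1 : (a - 1) - (a + 1) * e ≠ 0 := fun h => ha1 (by rw [← d1, h, mul_zero])
  have n2 : (a - 1) * e + (a + 1) ≠ 0 := fun h =>
    mul_ne_zero ha1 he (by rw [← d2, h, mul_zero])
  apply mul_left_cancel₀ (mul_ne_zero n1 n2)
  linear_combination (-((a - 1) * e + (a + 1)) * (e + 1) - a * ((a - 1) * e + (a + 1)) * (e - 1)) * d1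
    + (a * ((a - 1) - (a + 1) * e) * (e + 1) - ((a - 1) - (a + 1) * e) * (e - 1)) * d2

/-- exceptional column at `k = 3` gives `R`. -/
theorem exc_R {a x y e : F} (ha1 : a - 1 ≠ 0) (ha2 : a + 1 ≠ 0)
    (hx : (a - 1) * (1 - x) = -((a + 1) * (x * e))) (hy : (a + 1) * y = (a - 1) * ((1 - y) * e))
    (hpq : 1 - x = a ^ 3 * (1 - y)) :
    e ^ 2 - (a + 1) * (a ^ 2 + a + 1) * e + a ^ 3 = 0 := by
  have d1 : x * ((a - 1) - (a + 1) * e) = a - 1 := by linear_combination - hx
  have d2 : y * ((a - 1) * e + (a + 1)) = (a - 1) * e := by linear_combination hy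
  have hh : ((a - 1) * (a + 1)) * (e ^ 2 - (a + 1) * (a ^ 2 + a + 1) * e + a ^ 3) = 0 := by
    linear_combination (-((a - 1) - (a + 1) * e) * ((a - 1) * e + (a + 1))) * hpq
      - ((a - 1) * e + (a + 1)) * d1 + a ^ 3 * ((a - 1) - (a + 1) * e) * d2
  exact (mul_eq_zero.mp hh).resolve_left (mul_ne_zero ha1 ha2)

/-- type 1 at column 2: the additive relation gives `R`. -/
theorem type1_R {a x y c : F} (hD : a * x + y ≠ 0)
    (hT : ((1 - x) - a * (1 - y)) * (c + 1) = (a * x + y) * (c - 1))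
    (hL : (a ^ 2 - c) * (a ^ 2 * (1 - y) - (1 - x)) = a * (a + 1) * (c * x + a * y)) :
    c ^ 2 - (a + 1) * (a ^ 2 + a + 1) * c + a ^ 3 = 0 := by
  have hh : (a * x + y) * (c ^ 2 - (a + 1) * (a ^ 2 + a + 1) * c + a ^ 3) = 0 := by
    linear_combination (a ^ 2 - c) * (a + 1) * hT + (c + 1) * hL
  exact (mul_eq_zero.mp hh).resolve_left hD

/-- row 1 of a closed column followed by one more column. -/
theorem closed_row1 {a x y s σ g Z : F} (ha1 : a - 1 ≠ 0) (hsσ : σ - s ≠ 0)
    (c1 : (1 - x) + x * s = g) (c2 : Z * ((1 - y) * s + y) = g * s)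
    (c3 : (1 - x) + x * σ = a * g) (c4 : a * Z * ((1 - y) * σ + y) = g * σ) :
    1 - x = a * Z * (1 - y) ∧ a * Z * y = s * σ * x := by
  have i1 : x * (σ - a * s) = (a - 1) * (1 - x) := by linear_combination c3 - a * c1
  have i2 : a * Z * (1 - y) * (σ - s) = g * (σ - a * s) := by linear_combination c4 - a * c2
  have i3 : a * Z * y * (σ - s) = (a - 1) * g * (s * σ) := by
    linear_combination a * σ * c2 - s * c4
  have i5 : (a - 1) * g = x * (σ - s) := by linear_combination - i1 - (a - 1) * c1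
  constructor
  · apply mul_left_cancel₀ (mul_ne_zero ha1 hsσ)
    linear_combination - (a - 1) * i2 - (σ - s) * i1 - (σ - a * s) * i5
  · apply mul_right_cancel₀ hsσ
    linear_combination i3 + s * σ * i5

theorem closed_E {a x y W π X : F} (hx : x ≠ 0)
    (hW : W * (a * x + y) = (1 - x) - a * (1 - y))
    (h1 : 1 - x = X * (1 - y)) (h2 : X * y = π * x) :
    W * (a * X + π) * (1 - X) = (X - π) * (X - a) ∧ x * (π - 1) = X - 1 := by
  have i1 : x * (π - 1) = X - 1 := by linear_combination h1 - h2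
  refine ⟨?_, i1⟩
  apply mul_left_cancel₀ hx
  have i2 : W * (x * (a * X + π)) = (X - a) * (1 - x) := by
    linear_combination X * hW + a * h1 - W * h2
  linear_combination (1 - X) * i2 + (X - a) * i1

/-- row 2 of a closed column followed by one more column (`T = - t`). -/
theorem closed_row2 {a al de W s σ g g2 Z η : F} (ha1 : a - 1 ≠ 0) (ha2 : a + 1 ≠ 0)
    (hs : s ≠ 0) (hσ : σ ≠ 0) (hZ : Z ≠ 0) (hg : g ≠ 0)
    (hal : al * (a - 1) = W - 1) (hde : de * (a - 1) = a * (W + 1))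
    (c5 : Z * g2 = s * g * (al * Z + (1 - al)))
    (c6 : η * g * ((1 - de) * Z + de) = s * g2)
    (c7 : -(a ^ 2 * Z * g2) = σ * g * (al * a ^ 2 * Z + (1 - al)))
    (c8 : -(η * g * ((1 - de) * a ^ 2 * Z + de)) = σ * g2) :
    (a * Z) ^ 2 * (W - 1) * (1 + a * W) + a * (a - W) * (W + 1) = 0 ∧
    (s * σ) * (a - 1) = η * ((a * Z) ^ 2 * (1 + a * W) - a * (W + 1)) ∧
    (s * σ) * (a - W + (a * Z) ^ 2 * (W - 1)) = - (η * (a * Z) ^ 2 * (a - 1)) := by
  obtain ⟨p1, hp1⟩ : ∃ p1, p1 = Z * (W - 1) + (a - W) := ⟨_, rfl⟩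
  obtain ⟨p2, hp2⟩ : ∃ p2, p2 = a ^ 2 * Z * (W - 1) + (a - W) := ⟨_, rfl⟩
  obtain ⟨q1, hq1⟩ : ∃ q1, q1 = a * (W + 1) - Z * (1 + a * W) := ⟨_, rfl⟩
  obtain ⟨q2, hq2⟩ : ∃ q2, q2 = a * (W + 1) - a ^ 2 * Z * (1 + a * W) := ⟨_, rfl⟩
  have hp1' : (al * Z + (1 - al)) * (a - 1) = p1 := by rw [hp1]; linear_combination (Z - 1) * hal
  have hp2' : (al * a ^ 2 * Z + (1 - al)) * (a - 1) = p2 := by
    rw [hp2]; linear_combination (a ^ 2 * Z - 1) * hal
  have hq1' : ((1 - de) * Z + de) * (a - 1) = q1 := by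
    rw [hq1]; linear_combination (1 - Z) * hde
  have hq2' : ((1 - de) * a ^ 2 * Z + de) * (a - 1) = q2 := by
    rw [hq2]; linear_combination (1 - a ^ 2 * Z) * hde
  have d5 : (a - 1) * (Z * g2) = s * g * p1 := by linear_combination (a - 1) * c5 + s * g * hp1'
  have d6 : η * g * q1 = (a - 1) * (s * g2) := by linear_combination (a - 1) * c6 - η * g * hq1'
  have d7 : -(a ^ 2 * ((a - 1) * (Z * g2))) = σ * g * p2 := by
    linear_combination (a - 1) * c7 + σ * g * hp2'
  have d8 : -(η * g * q2) = (a - 1) * (σ * g2) := by linear_combination (a - 1) * c8 + η * g * hq2'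
  have r3 : (s * σ) * p1 = -(η * Z * q2) := by
    apply mul_left_cancel₀ hg
    linear_combination - σ * d5 - Z * d8
  have r4 : (s * σ) * p2 = -(a ^ 2 * η * Z * q1) := by
    apply mul_left_cancel₀ hg
    linear_combination - s * d7 + a ^ 2 * Z * d6
  have haa : (a - 1) * (a + 1) ≠ 0 := mul_ne_zero ha1 ha2
  refine ⟨?_, ?_, ?_⟩
  · have hh : ((s * σ) * ((a - 1) * (a + 1)))
        * ((a * Z) ^ 2 * (W - 1) * (1 + a * W) + a * (a - W) * (W + 1)) = 0 := by
      have e1 : (s * σ) * (a ^ 2 * p1 * q1 - p2 * q2) = 0 := by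
        linear_combination a ^ 2 * q1 * r3 - q2 * r4
      rw [hp1, hp2, hq1, hq2] at e1
      linear_combination e1
    exact (mul_eq_zero.mp hh).resolve_left (mul_ne_zero (mul_ne_zero hs hσ) haa)
  · apply mul_left_cancel₀ (mul_ne_zero haa hZ)
    have e1 : (s * σ) * ((1 - Z) * p2 + (a ^ 2 * Z - 1) * p1)
        = -(η * Z * (a ^ 2 * (1 - Z) * q1 + (a ^ 2 * Z - 1) * q2)) := by
      linear_combination (1 - Z) * r4 + (a ^ 2 * Z - 1) * r3
    rw [hp1, hp2, hq1, hq2] at e1
    linear_combination e1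
  · apply mul_left_cancel₀ haa
    have e1 : (s * σ) * (a ^ 2 * (1 - Z) * p1 + (a ^ 2 * Z - 1) * p2)
        = -(a ^ 2 * η * Z * ((1 - Z) * q2 + (a ^ 2 * Z - 1) * q1)) := by
      linear_combination a ^ 2 * (1 - Z) * r3 + (a ^ 2 * Z - 1) * r4
    rw [hp1, hp2, hq1, hq2] at e1
    linear_combination e1

/-- closed odd column: `W = 0` and `X = a`. -/
theorem closed_odd {a W π X : F} (h2 : (2 : F) ≠ 0) (ha1 : a - 1 ≠ 0) (ha2 : a + 1 ≠ 0)
    (hX : X ≠ 0)
    (C1 : X ^ 2 * (W - 1) * (1 + a * W) + a * (a - W) * (W + 1) = 0)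
    (B' : π * (a - 1) = 1 * (X ^ 2 * (1 + a * W) - a * (W + 1)))
    (B : π * (a - W + X ^ 2 * (W - 1)) = - (1 * X ^ 2 * (a - 1)))
    (E : W * (a * X + π) * (1 - X) = (X - π) * (X - a)) : W = 0 ∧ X = a := by
  have e1 : (2 * (a - 1) * X) * (X - π) = 0 := by
    linear_combination (1 + X) * E + B - X * B'
  have e2 : π = X := by
    have := (mul_eq_zero.mp e1).resolve_left (mul_ne_zero (mul_ne_zero h2 ha1) hX)
    linear_combination - this
  rw [e2] at B' B E
  have e3 : ((a + 1) * X) * (W * (1 - X)) = 0 := by linear_combination E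
  have e4 := (mul_eq_zero.mp e3).resolve_left (mul_ne_zero ha2 hX)
  rcases mul_eq_zero.mp e4 with h | h
  · refine ⟨h, ?_⟩
    rw [h] at B' C1
    have e5 : (X - a) * (X + 1) = 0 := by linear_combination - B'
    rcases mul_eq_zero.mp e5 with h' | h'
    · linear_combination h'
    · have hX1 : X = -1 := by linear_combination h'
      rw [hX1] at C1
      exact absurd (by linear_combination C1 : (a - 1) * (a + 1) = 0) (mul_ne_zero ha1 ha2)
  · have hX1 : X = 1 := by linear_combination - h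
    rw [hX1] at B'
    exact absurd (by linear_combination B' : 2 * (a - 1) = 0) (mul_ne_zero h2 ha1)

/-- closed column 4 with `R`. -/
theorem closed_four {a c W : F} (h2 : (2 : F) ≠ 0) (ha : a ≠ 0) (ha1 : a - 1 ≠ 0) (ha2 : a + 1 ≠ 0)
    (hc : c ≠ 0) (hca : c ≠ a)
    (hW : W * (c + 1) = c - 1)
    (C1 : (a ^ 4) ^ 2 * (W - 1) * (1 + a * W) + a * (a - W) * (W + 1) = 0)
    (R : c ^ 2 - (a + 1) * (a ^ 2 + a + 1) * c + a ^ 3 = 0) : False := by
  have hc1 : c + 1 ≠ 0 := by
    intro h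
    rw [h, mul_zero] at hW
    exact h2 (by linear_combination hW + h)
  have e1 : a * c * (c * (a - 1) + (a + 1)) = (a ^ 4) ^ 2 * (c * (a + 1) - (a - 1)) := by
    apply mul_left_cancel₀ h2
    have k1 : (W - 1) * (c + 1) = -2 := by linear_combination hW
    have k2 : (1 + a * W) * (c + 1) = c * (a + 1) - (a - 1) := by linear_combination a * hW
    have k3 : (a - W) * (c + 1) = c * (a - 1) + (a + 1) := by linear_combination - hW
    have k4 : (W + 1) * (c + 1) = 2 * c := by linear_combination hW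
    have k5 : (a ^ 4) ^ 2 * ((W - 1) * (c + 1)) * ((1 + a * W) * (c + 1))
        + a * ((a - W) * (c + 1)) * ((W + 1) * (c + 1)) = 0 := by
      linear_combination (c + 1) ^ 2 * C1
    rw [k1, k2, k3, k4] at k5
    linear_combination k5
  have e2 : c * (c * (a - 1) + (a + 1)) = a ^ 3 * (c * (a + 1) - (a - 1)) := by
    linear_combination (a - 1) * R
  have e3 : (a ^ 4 * ((a - 1) * (a + 1))) * ((a ^ 2 + 1) * (c * (a + 1) - (a - 1))) = 0 := by
    linear_combination - e1 + a * e2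
  have e4 := (mul_eq_zero.mp e3).resolve_left
    (mul_ne_zero (pow_ne_zero 4 ha) (mul_ne_zero ha1 ha2))
  have e5 : a ^ 2 + 1 = 0 := by
    rcases mul_eq_zero.mp e4 with h | h
    · exact h
    · rw [h, mul_zero] at e2
      have e6 := (mul_eq_zero.mp e2).resolve_left hc
      have e7 : 2 * (a ^ 2 + 1) = 0 := by
        linear_combination (a + 1) * e6 - (a - 1) * h
      exact (mul_eq_zero.mp e7).resolve_left h2
  have e8 : (c + 1) * (c - a) = 0 := by
    linear_combination R + ((a + 2) * c - a) * e5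
  exact (mul_ne_zero hc1 (sub_ne_zero.mpr hca)) e8

/-- exceptional column 3: column 5. -/
theorem caseB {a c x y al de E u h4 gg e4 u' h' g' e' lam mu : F}
    (h2 : (2 : F) ≠ 0) (ha : a ≠ 0) (ha1 : a - 1 ≠ 0) (ha2 : a + 1 ≠ 0) (hc : c ≠ 0)
    (hc1 : c + 1 ≠ 0) (hE : E ≠ a)
    (hx : (a - 1) * (1 - x) = -((a + 1) * (x * c))) (hy : (a + 1) * y = (a - 1) * ((1 - y) * c))
    (R : c ^ 2 - (a + 1) * (a ^ 2 + a + 1) * c + a ^ 3 = 0)
    (hal : al * ((c + 1) * (a - 1)) = -2) (hde : de * ((c + 1) * (a - 1)) = 2 * a * c)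
    (hu : u = (1 - x) - x * c) (hh4 : a ^ 4 * h4 = u)
    (hg : gg = -c * (al * u + (1 - al) * h4)) (he : -c * e4 = a ^ 4 * ((1 - de) * u + de * h4))
    (hu' : u' = (1 - x) + x * E) (hh' : E * h' = (1 - y) * E + y)
    (hg' : g' = E * (al * u' + (1 - al) * h')) (he' : E * e' = a ^ 4 * ((1 - de) * u' + de * h'))
    (U1 : u' = (1 - lam) * (a * u) + lam * u) (U1' : a * (a ^ 4 * h') = (1 - mu) * (a * u) + mu * u)
    (U2 : g' = (1 - lam) * (-a * gg) + lam * e4) (U2' : -a * e' = (1 - mu) * (-a * gg) + mu * e4) :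
    a ^ 4 * h' = u' := by
  obtain ⟨d1, hd1⟩ : ∃ d1, d1 = (a - 1) - (a + 1) * c := ⟨_, rfl⟩
  obtain ⟨d2, hd2⟩ : ∃ d2, d2 = (a - 1) * c + (a + 1) := ⟨_, rfl⟩
  obtain ⟨K, hK⟩ : ∃ K, K = (c + 1) * (a - 1) := ⟨_, rfl⟩
  have hKne : K ≠ 0 := by rw [hK]; exact mul_ne_zero hc1 ha1
  have xd : x * d1 = a - 1 := by rw [hd1]; linear_combination - hx
  have yd : y * d2 = (a - 1) * c := by rw [hd2]; linear_combination hy
  have n1 : d1 ≠ 0 := fun h => ha1 (by rw [← xd, h, mul_zero])
  have hR : -(c * d2) = a ^ 3 * d1 := by rw [hd1, hd2]; linear_combination - (a - 1) * R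
  rw [← hK] at hal hde
  have k1 : (1 - al) * K = d2 := by rw [hd2]; linear_combination hK - hal
  have k2 : (1 - de) * K = d1 := by rw [hd1]; linear_combination hK - hde
  have k3 : 2 * a * c + d1 = K := by rw [hd1, hK]; ring
  have k4 : d2 - 2 = K := by rw [hd2, hK]; ring
  have ud : u * d1 = -(2 * a * c) := by
    rw [hu]; linear_combination hd1 - (1 + c) * xd
  have agg : a * gg = u := by
    apply mul_left_cancel₀ (mul_ne_zero (pow_ne_zero 3 ha) hKne)
    have i1 : K * gg = -c * (-2 * u + d2 * h4) := by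
      rw [hg]; linear_combination - c * u * hal - c * h4 * k1
    linear_combination a ^ 4 * i1 - c * d2 * hh4 + u * hR + a ^ 3 * u * k3
  have he4 : e4 = a * u := by
    apply mul_left_cancel₀ (mul_ne_zero hc hKne)
    have i1 : K * (-c * e4) = a ^ 4 * (d1 * u + 2 * a * c * h4) := by
      rw [he]; linear_combination a ^ 4 * u * k2 + a ^ 4 * h4 * hde
    linear_combination - i1 - 2 * a * c * hh4 + a * u * hR + a * c * u * k4
  have u'd : u' * d1 = (a - 1) * E - (a + 1) * c := by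
    rw [hu']; linear_combination hd1 + (E - 1) * xd
  have hd : E * h' * d2 = (a + 1) * E + (a - 1) * c := by
    rw [hh']; linear_combination E * hd2 + (1 - E) * yd
  have ud2 : u * d2 = 2 * a ^ 4 := by
    apply mul_left_cancel₀ hc
    linear_combination - u * hR - a ^ 3 * ud
  have m1 : (1 - a) * g' = (1 + a) * u' - (1 + a ^ 2) * u := by
    linear_combination (1 - a) * U2 - (1 + a) * U1 - (1 - a) * (1 - lam) * agg + (1 - a) * lam * he4
  have m2 : -(a * ((1 - a) * e')) = (1 + a) * (a * (a ^ 4 * h')) - (1 + a ^ 2) * u := by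
    linear_combination (1 - a) * U2' - (1 + a) * U1' - (1 - a) * (1 - mu) * agg
      + (1 - a) * mu * he4
  have e1 : (E + a * c) * (E - (a * c + a + 1)) = 0 := by
    apply (mul_eq_zero.mp (?_ : (2 * (a - 1)) * ((E + a * c) * (E - (a * c + a + 1))) = 0)).resolve_left
      (mul_ne_zero h2 ha1)
    have i1 : K * g' = E * (-2 * u' + d2 * h') := by
      rw [hg']; linear_combination E * u' * hal + E * h' * k1
    have i2 : -(E * (-2 * (u' * d1)) + d1 * (E * h' * d2))
        = (c + 1) * ((1 + a) * (u' * d1) - (1 + a ^ 2) * (u * d1)) := by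
      linear_combination (c + 1) * d1 * m1 + d1 * i1 - d1 * g' * hK
    rw [u'd, hd, ud, hd1] at i2
    linear_combination i2
  have e2 : (E + a * c) * ((c * (a + 1) + 1) * E - a * c) = 0 := by
    apply (mul_eq_zero.mp (?_ : (2 * (a - 1) * a ^ 4) *
      ((E + a * c) * ((c * (a + 1) + 1) * E - a * c)) = 0)).resolve_left
      (mul_ne_zero (mul_ne_zero h2 ha1) (pow_ne_zero 4 ha))
    have i1 : K * (E * e') = a ^ 4 * (d1 * u' + 2 * a * c * h') := by
      rw [he']; linear_combination a ^ 4 * u' * k2 + a ^ 4 * h' * hde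
    have i2 : a ^ 5 * (E * d2 * (u' * d1) + 2 * a * c * (E * h' * d2))
        = (c + 1) * E * ((1 + a) * (a ^ 5 * (E * h' * d2)) - (1 + a ^ 2) * E * (u * d2)) := by
      linear_combination (c + 1) * E * E * d2 * m2 - a * E * d2 * i1 + a * E * E * d2 * e' * hK
    rw [u'd, hd, ud2, hd2] at i2
    linear_combination - i2
  have hEc : E = -(a * c) := by
    rcases mul_eq_zero.mp e1 with h | h
    · linear_combination h
    · rcases mul_eq_zero.mp e2 with h' | h'
      · linear_combination h'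
      · exfalso
        have hE' : E = a * c + a + 1 := by linear_combination h
        rw [hE'] at h'
        have h3 : ((a + 1) * (c + 1)) * (a * c + 1) = 0 := by linear_combination h'
        have h4 := (mul_eq_zero.mp h3).resolve_left (mul_ne_zero ha2 hc1)
        exact hE (by rw [hE']; linear_combination h4)
  rw [hEc] at hd u'd
  apply mul_right_cancel₀ n1
  have h5 : c * (a * (h' * d2)) = c * (a ^ 2 + 1) := by linear_combination - hd
  linear_combination (-a * h') * hR - h5 - u'd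

end scal

variable {F : Type*} [Field F] {m : ℕ}

theorem fam_base (g : GForm F m) (hm : 2 ≤ m) {a x y al de : F} (ha : g.t 1 = a)
    (h1 : g.t 1 = g.s 1) (hb : g.t 2 = -a) (hx : x = 1 - g.lam' 0) (hy : y = g.mu' 0)
    (hal : al = 1 - g.lam' 1) (hde : de = g.mu' 1) (hD : g.G 1 1 ≠ g.H 1 1) :
    a * x + y ≠ 0 ∧ al * (a - 1) * (a * x + y) = ((1 - x) - a * (1 - y)) - (a * x + y) ∧
      de * (a - 1) * (a * x + y) = a * (((1 - x) - a * (1 - y)) + (a * x + y)) := by
  have t1 := g.t_ne 1 (by omega)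
  have h10 : g.t 1 - 1 ≠ 0 := by
    rw [← g.t0]; exact sub_ne_zero.mpr (g.t_inj 0 1 (by omega) (by omega)).symm
  have a1 := g.row1G (k := 1) (by omega) (by omega)
  have a2 := g.row1H (k := 1) (by omega) (by omega)
  have a3 := g.row2G (k := 1) (by omega) (by omega)
  have a4 := g.row2H (k := 1) (by omega) (by omega)
  have u1 := g.U1 1 0 (by omega) (by omega)
  have u2 := g.U2 1 0 (by omega) (by omega)
  have u3 := g.U1 2 0 (by omega) (by omega)
  have u4 := g.U2 2 0 (by omega) (by omega)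
  rw [g.G0 1 (by omega), g.H0 1 (by omega)] at u1 u2
  rw [g.G0 2 (by omega), g.H0 2 (by omega)] at u3 u4
  simp only [zero_add, pow_one, pow_zero, mul_one] at u1 u2 u3 u4
  rw [← h1, ha] at a1 a2 a3 a4
  rw [ha] at u1 u2 t1 h10
  rw [hb] at u3 u4
  have a1' : g.G 1 1 = (1 - x) + x * a := by rw [a1, hx]; ring
  have a2' : a * g.H 1 1 = (1 - y) * a + y := by rw [a2, hy]
  have l0 : g.lam 0 = 1 - x := by
    have : (a - 1) * (g.lam 0) = (a - 1) * (1 - x) := by linear_combination u1 - a1'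
    exact mul_left_cancel₀ h10 this
  have m0 : g.mu 0 = y := by
    have : (a - 1) * (g.mu 0) = (a - 1) * y := by linear_combination u2 - a2'
    exact mul_left_cancel₀ h10 this
  rw [l0] at u3
  rw [m0] at u4
  have hGH : a * (g.G 1 1 - g.H 1 1) = (a - 1) * (a * x + y) := by
    linear_combination a * a1' - a2'
  rw [u3] at a3
  rw [← hde] at a4
  have hbe : g.lam' 1 = 1 - al := by rw [hal]; ring
  rw [hbe] at a3
  refine ⟨?_, ?_, ?_⟩
  · intro h
    rw [h, mul_zero] at hGH
    exact hD (sub_eq_zero.mp ((mul_eq_zero.mp hGH).resolve_left t1))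
  · linear_combination - al * hGH - a3 - a2'
  · have a4' : a * (a * g.H 2 1) = a * ((1 - de) * g.G 1 1 + de * g.H 1 1) := by rw [a4]
    linear_combination - de * hGH + a4' + a * u4 + a * a1'

theorem fam_closed (g : GForm F m) (hm : 2 ≤ m) {a x y al de W : F} (ha : g.t 1 = a)
    (hb : g.t 2 = -a) (ha2 : a + 1 ≠ 0) (hx : x = 1 - g.lam' 0) (hy : y = g.mu' 0)
    (hal : al = 1 - g.lam' 1) (hde : de = g.mu' 1)
    (hW : W * (a * x + y) = (1 - x) - a * (1 - y))
    (hal' : al * (a - 1) = W - 1) (hde' : de * (a - 1) = a * (W + 1))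
    (j : ℕ) (hj : j + 1 < m) (η : F) (hη : g.t 2 ^ j = η * a ^ j)
    (hc1 : g.t 1 ^ j * g.H 1 (j + 1) = g.G 1 (j + 1))
    (hc2 : g.t 2 ^ j * g.H 2 (j + 1) = g.G 2 (j + 1)) :
    (a ^ (j + 1)) ^ 2 * (W - 1) * (1 + a * W) + a * (a - W) * (W + 1) = 0 ∧
    (g.s (j + 1) * g.s (j + 2)) * (a - 1)
      = η * ((a ^ (j + 1)) ^ 2 * (1 + a * W) - a * (W + 1)) ∧
    (g.s (j + 1) * g.s (j + 2)) * (a - W + (a ^ (j + 1)) ^ 2 * (W - 1))
      = - (η * (a ^ (j + 1)) ^ 2 * (a - 1)) ∧
    W * (a * a ^ (j + 1) + g.s (j + 1) * g.s (j + 2)) * (1 - a ^ (j + 1))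
      = (a ^ (j + 1) - g.s (j + 1) * g.s (j + 2)) * (a ^ (j + 1) - a) := by
  have t1 := g.t_ne 1 (by omega)
  have h10 : g.t 1 - 1 ≠ 0 := by
    rw [← g.t0]; exact sub_ne_zero.mpr (g.t_inj 0 1 (by omega) (by omega)).symm
  rw [ha] at t1 h10
  have hs := g.s_ne (j + 1) (by omega)
  have hs' := g.s_ne (j + 2) (by omega)
  have hss : g.s (j + 2) - g.s (j + 1) ≠ 0 :=
    sub_ne_zero.mpr (g.s_inj (j + 1) (j + 2) (by omega) (by omega)).symm
  have hZ : a ^ j ≠ 0 := pow_ne_zero j t1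
  have hxne : x ≠ 0 := by rw [hx]; exact sub_ne_zero.mpr (g.lam'_ne 0 (by omega)).symm
  have a1 := g.row1G (k := j + 1) (by omega) (by omega)
  have a2 := g.row1H (k := j + 1) (by omega) (by omega)
  have a3 := g.row2G (k := j + 1) (by omega) (by omega)
  have a4 := g.row2H (k := j + 1) (by omega) (by omega)
  have b1 := g.row1G (k := j + 2) (by omega) (by omega)
  have b2 := g.row1H (k := j + 2) (by omega) (by omega)
  have b3 := g.row2G (k := j + 2) (by omega) (by omega)
  have b4 := g.row2H (k := j + 2) (by omega) (by omega)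
  have u1 := g.U1 1 (j + 1) (by omega) hj
  have u2 := g.U2 1 (j + 1) (by omega) hj
  have u3 := g.U1 2 (j + 1) (by omega) hj
  have u4 := g.U2 2 (j + 1) (by omega) hj
  have hg : g.G 1 (j + 1) ≠ 0 := by
    intro h
    rw [h] at hc1
    rw [ha] at hc1
    exact g.ne_zero (j := 1) (k := j + 1) (by omega) (by omega)
      ⟨h, (mul_eq_zero.mp hc1).resolve_left hZ⟩
  have hlam0 : g.lam' 0 = 1 - x := by rw [hx]; ring
  have hlam1 : g.lam' 1 = 1 - al := by rw [hal]; ring
  rw [hlam0] at a1 b1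
  rw [← hy] at a2 b2
  rw [hlam1] at a3 b3
  rw [← hde] at a4 b4
  rw [ha] at u1 u2 hc1
  rw [hη] at hc2
  have hT1 : g.t 2 ^ (j + 1) = -a * (η * a ^ j) := by rw [pow_succ, hη, hb]; ring
  have hT2 : g.t 2 ^ (j + 1 + 1) = a ^ 2 * (η * a ^ j) := by rw [pow_succ, hT1, hb]; ring
  rw [hT1, hb] at u3
  rw [hT2, hT1, hb] at u4
  -- next column
  have n1 : g.G 1 (j + 2) = a * g.G 1 (j + 1) := by
    rw [pow_succ] at u1
    linear_combination u1 + g.lam (j + 1) * a * hc1
  have n2 : a * (a ^ j * g.H 1 (j + 2)) = g.G 1 (j + 1) := by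
    apply mul_left_cancel₀ t1
    rw [pow_succ, pow_succ] at u2
    linear_combination u2 + g.mu (j + 1) * a * hc1
  have n3 : g.G 2 (j + 2) = -a * g.G 2 (j + 1) := by
    linear_combination u3 - g.lam (j + 1) * a * hc2
  have n4 : -(a * (η * a ^ j * g.H 2 (j + 2))) = g.G 2 (j + 1) := by
    apply mul_left_cancel₀ t1
    linear_combination - u4 + g.mu (j + 1) * a * hc2
  obtain ⟨r1, r2⟩ := closed_row1 (a := a) (x := x) (y := y) (s := g.s (j + 1)) (σ := g.s (j + 2))
    (g := g.G 1 (j + 1)) (Z := a ^ j) h10 hss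
    (by linear_combination - a1)
    (by linear_combination g.s (j + 1) * hc1 - a ^ j * a2)
    (by linear_combination n1 - b1)
    (by linear_combination g.s (j + 2) * n2 - a * a ^ j * b2)
  have hX : a ^ (j + 1) = a * a ^ j := by rw [pow_succ]; ring
  obtain ⟨q1, q2, q3⟩ := closed_row2 (a := a) (al := al) (de := de) (W := W) (s := g.s (j + 1))
    (σ := g.s (j + 2)) (g := g.G 1 (j + 1)) (g2 := g.G 2 (j + 1)) (Z := a ^ j) (η := η)
    h10 ha2 hs hs' hZ hg hal' hde'
    (by linear_combination a ^ j * a3 + (1 - al) * g.s (j + 1) * hc1)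
    (by linear_combination g.s (j + 1) * hc2 - η * a ^ j * a4 - η * de * hc1)
    (by linear_combination (-(a * a ^ j)) * n3 + a * a ^ j * b3
          + a * a ^ j * g.s (j + 2) * al * n1 + g.s (j + 2) * (1 - al) * n2)
    (by linear_combination g.s (j + 2) * n4 + (a * η * a ^ j) * b4
          + η * a * a ^ j * (1 - de) * n1 + η * de * n2)
  rw [hX]
  exact ⟨q1, q2, q3, (closed_E (π := g.s (j + 1) * g.s (j + 2)) (X := a * a ^ j) hxne hW r1 r2).1⟩

/-- exceptional column in the family `T = - t`. -/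
theorem fam_exc (g : GForm F m) (hm : 2 ≤ m) {a x y : F} (ha : g.t 1 = a) (hb : g.t 2 = -a)
    (hx : x = 1 - g.lam' 0) (hy : y = g.mu' 0) (j : ℕ) (hj : j < m)
    (hc1 : g.t 1 ^ j * g.H 1 (j + 1) = g.G 1 (j + 1))
    (e1 : (g.t 2 - 1) * g.G 1 (j + 1) = (g.t 2 - g.t 1) * (g.t 1 ^ j * (1 - g.mu' 0)))
    (e2 : g.t 1 * ((g.t 2 - 1) * g.G 1 (j + 1)) = (g.t 2 - g.t 1) * g.lam' 0) :
    (a - 1) * (1 - x) = -((a + 1) * (x * g.s (j + 1))) ∧
    (a + 1) * y = (a - 1) * ((1 - y) * g.s (j + 1)) ∧ 1 - x = a ^ (j + 1) * (1 - y) := by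
  have t1 := g.t_ne 1 (by omega)
  rw [ha] at t1 e1 e2 hc1
  have h21 : g.t 2 - g.t 1 ≠ 0 := sub_ne_zero.mpr (g.t_inj 1 2 (by omega) (by omega)).symm
  rw [ha, hb] at h21
  have h22 : -2 * a ≠ 0 := by
    intro h; exact h21 (by linear_combination h)
  have hZ : a ^ j ≠ 0 := pow_ne_zero j t1
  have a1 := g.row1G (k := j + 1) (by omega) (by omega)
  have a2 := g.row1H (k := j + 1) (by omega) (by omega)
  have hlam0 : g.lam' 0 = 1 - x := by rw [hx]; ring
  rw [hlam0] at a1 e2
  rw [← hy] at a2 e1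
  rw [hb] at e1 e2
  have f2 : (a + 1) * g.G 1 (j + 1) = 2 * (1 - x) := by
    apply mul_left_cancel₀ t1
    linear_combination - e2
  have f1 : (a + 1) * g.G 1 (j + 1) = 2 * a * a ^ j * (1 - y) := by
    linear_combination - e1
  refine ⟨?_, ?_, ?_⟩
  · linear_combination f2 - (a + 1) * a1
  · apply mul_left_cancel₀ hZ
    linear_combination - (a + 1) * a ^ j * a2 + (a + 1) * g.s (j + 1) * hc1 + g.s (j + 1) * f1
  · apply mul_left_cancel₀ h22
    rw [pow_succ]
    linear_combination a * f2 - a * f1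

/-- THE FAMILY `t_2 = - t_1` OF THE DIAGONAL BRANCH IS EMPTY. -/
theorem b_neg_dead (g : GForm F m) (hm : 6 ≤ m) (hD : g.G 1 1 ≠ g.H 1 1) (h1 : g.t 1 = g.s 1)
    (h2 : g.t 2 = g.s 2) (hb : g.t 2 = - g.t 1) (hk : g.kap 1 2 ≠ 0) : False := by
  obtain ⟨a, ha⟩ : ∃ a, g.t 1 = a := ⟨_, rfl⟩
  obtain ⟨x, hx⟩ : ∃ x, x = 1 - g.lam' 0 := ⟨_, rfl⟩
  obtain ⟨y, hy⟩ : ∃ y, y = g.mu' 0 := ⟨_, rfl⟩
  obtain ⟨al, hal⟩ : ∃ al, al = 1 - g.lam' 1 := ⟨_, rfl⟩
  obtain ⟨de, hde⟩ : ∃ de, de = g.mu' 1 := ⟨_, rfl⟩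
  have hb' : g.t 2 = -a := by rw [hb, ha]
  have hs1 : g.s 1 = a := by rw [← h1, ha]
  have hs2 : g.s 2 = -a := by rw [← h2, hb']
  have ha0 : a ≠ 0 := by rw [← ha]; exact g.t_ne 1 (by omega)
  have ha1 : a - 1 ≠ 0 := by
    rw [← ha, ← g.t0]; exact sub_ne_zero.mpr (g.t_inj 0 1 (by omega) (by omega)).symm
  have ha2 : a + 1 ≠ 0 := by
    intro h
    apply g.t_inj 0 2 (by omega) (by omega)
    rw [g.t0, hb']; linear_combination h
  have hta : 2 * a ≠ 0 := by
    intro h
    apply g.t_inj 1 2 (by omega) (by omega)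
    rw [ha, hb']; linear_combination h
  have h20 : (2 : F) ≠ 0 := fun h => hta (by rw [h, zero_mul])
  have hc0 : g.s 3 ≠ 0 := g.s_ne 3 (by omega)
  have hca : g.s 3 ≠ a := by rw [← hs1]; exact (g.s_inj 1 3 (by omega) (by omega)).symm
  have hc1' : g.s 3 ≠ 1 := by rw [← g.s0]; exact (g.s_inj 0 3 (by omega) (by omega)).symm
  have hal0 : al ≠ 0 := by rw [hal]; exact sub_ne_zero.mpr (g.lam'_ne 1 (by omega)).symm
  have hx0 : x ≠ 0 := by rw [hx]; exact sub_ne_zero.mpr (g.lam'_ne 0 (by omega)).symm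
  obtain ⟨hDD, bal, bde⟩ := fam_base g (by omega) ha h1 hb' hx hy hal hde hD
  obtain ⟨W, hWd⟩ : ∃ W, W = ((1 - x) - a * (1 - y)) / (a * x + y) := ⟨_, rfl⟩
  have hW : W * (a * x + y) = (1 - x) - a * (1 - y) := by rw [hWd, div_mul_cancel₀ _ hDD]
  have hal' : al * (a - 1) = W - 1 := by
    apply mul_right_cancel₀ hDD
    rw [bal]; linear_combination - hW
  have hde' : de * (a - 1) = a * (W + 1) := by
    apply mul_right_cancel₀ hDD
    rw [bde]; linear_combination - a * hW
  -- `kap = 0` in the shape of `deg_flat`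
  have kz : ∀ j, g.kap 1 (j + 1) = 0 → g.t 1 ^ j * g.H 1 (j + 1) = g.G 1 (j + 1) := by
    intro j h
    rw [GForm.kap, ha] at h
    rw [ha]
    apply mul_left_cancel₀ ha0
    rw [pow_succ] at h
    linear_combination - h
  have Wexc : ∀ j, j < m → g.t 1 ^ j * g.H 1 (j + 1) = g.G 1 (j + 1) →
      (g.t 2 - 1) * g.G 1 (j + 1) = (g.t 2 - g.t 1) * (g.t 1 ^ j * (1 - g.mu' 0)) →
      g.t 1 * ((g.t 2 - 1) * g.G 1 (j + 1)) = (g.t 2 - g.t 1) * g.lam' 0 →
      W * (g.s (j + 1) + 1) = g.s (j + 1) - 1 := by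
    intro j hj hc e1 e2
    obtain ⟨f1, f2, _⟩ := fam_exc g (by omega) ha hb' hx hy j hj hc e1 e2
    have := exc_T1 ha1 (g.s_ne (j + 1) (by omega)) f1 f2
    apply mul_right_cancel₀ hDD
    linear_combination (g.s (j + 1) + 1) * hW + this
  -- the end: `kap_1^(5) = 0` is impossible once the type 1 relation holds for `s 3`
  have fin5 : W * (g.s 3 + 1) = g.s 3 - 1 → g.kap 1 5 = 0 → False := by
    intro hT h5
    have hc := kz 4 h5
    rcases deg_flat g (by omega) 4 (by omega) hc with h | ⟨e1, e2⟩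
    · obtain ⟨C1, B', B, E⟩ := fam_closed g (by omega) ha hb' ha2 hx hy hal hde hW hal' hde' 4
        (by omega) 1 (by rw [hb']; ring) hc h
      obtain ⟨hW0, _⟩ := closed_odd h20 ha1 ha2 (pow_ne_zero _ ha0) C1 B' (by rw [B]) E
      rw [hW0, zero_mul] at hT
      exact hc1' (by linear_combination - hT)
    · have hT5 := Wexc 4 (by omega) hc e1 e2
      have : 2 * (g.s 5 - g.s 3) = 0 := by
        norm_num at hT5
        linear_combination (g.s 5 + 1) * hT - (g.s 3 + 1) * hT5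
      rcases mul_eq_zero.mp this with h | h
      · exact h20 h
      · exact g.s_inj 3 5 (by omega) (by omega) (sub_eq_zero.mp h).symm
  have hkap1 : g.kap 1 1 ≠ 0 := by
    rw [GForm.kap, ha, pow_one]
    intro h
    have : a * (g.G 1 1 - g.H 1 1) = 0 := by linear_combination h
    exact hD (sub_eq_zero.mp ((mul_eq_zero.mp this).resolve_left ha0))
  have Dne : ∀ k, k < m → g.kap 1 k ≠ 0 → g.G 1 (k + 1) - g.t 1 ^ (k + 1) * g.H 1 (k + 1) ≠ 0 := by
    intro k hk hkk h
    have hs := g.D_succ (j := 1) (k := k) (by omega) hk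
    rw [GForm.D, h] at hs
    exact (mul_ne_zero (sub_ne_zero.mpr (g.lm_ne k hk).symm) hkk) hs.symm
  have mulkap : ∀ k, g.t 1 ^ k * g.H 1 k - g.t 1 * g.G 1 k = 0 → g.kap 1 k = 0 := by
    intro k h; rw [GForm.kap]; linear_combination - h
  have mulkap' : ∀ k, g.t 1 ^ k * g.H 1 (k + 1) - g.G 1 (k + 1) = 0 → g.kap 1 (k + 1) = 0 := by
    intro k h; rw [GForm.kap, pow_succ]; linear_combination - g.t 1 * h
  by_cases hk3 : g.kap 1 3 = 0
  · -- case B
    have hc := kz 2 hk3
    rcases deg_flat g (by omega) 2 (by omega) hc with h | ⟨e1, e2⟩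
    · obtain ⟨C1, B', B, E⟩ := fam_closed g (by omega) ha hb' ha2 hx hy hal hde hW hal' hde' 2
        (by omega) 1 (by rw [hb']; ring) hc h
      obtain ⟨_, hX⟩ := closed_odd h20 ha1 ha2 (pow_ne_zero _ ha0) C1 B' (by rw [B]) E
      have : a * ((a - 1) * (a + 1)) = 0 := by linear_combination hX
      exact mul_ne_zero ha0 (mul_ne_zero ha1 ha2) this
    have hT := Wexc 2 (by omega) hc e1 e2
    obtain ⟨f1, f2, f3⟩ := fam_exc g (by omega) ha hb' hx hy 2 (by omega) hc e1 e2
    norm_num at hT f1 f2 f3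
    have R := exc_R ha1 ha2 f1 f2 f3
    have hcm : g.s 3 + 1 ≠ 0 := by
      intro h
      rw [h, mul_zero] at hT
      exact h20 (by linear_combination hT + h)
    apply fin5 hT
    have hDk : g.G 1 4 = a * g.G 1 3 ∧ a ^ 4 * g.H 1 4 = g.G 1 4 := by
      have u1 := g.U1 1 3 (by omega) (by omega)
      have u2 := g.U2 1 3 (by omega) (by omega)
      rw [GForm.kap] at hk3
      rw [ha] at u1 u2 hk3
      norm_num at u1 u2
      have i1 : g.G 1 4 = a * g.G 1 3 := by linear_combination u1 - g.lam 3 * hk3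
      refine ⟨i1, ?_⟩
      linear_combination u2 - i1 - g.mu 3 * hk3
    obtain ⟨hG4, hH4⟩ := hDk
    have hlam0 : g.lam' 0 = 1 - x := by rw [hx]; ring
    have hlam1 : g.lam' 1 = 1 - al := by rw [hal]; ring
    have r3 := g.row1G (k := 3) (by omega) (by omega)
    have r4 := g.row1G (k := 4) (by omega) (by omega)
    have r5 := g.row1G (k := 5) (by omega) (by omega)
    have r5' := g.row1H (k := 5) (by omega) (by omega)
    have q4 := g.row2G (k := 4) (by omega) (by omega)
    have q4' := g.row2H (k := 4) (by omega) (by omega)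
    have q5 := g.row2G (k := 5) (by omega) (by omega)
    have q5' := g.row2H (k := 5) (by omega) (by omega)
    rw [hlam0] at r3 r4 r5
    rw [← hy] at r5'
    rw [hlam1] at q4 q5
    rw [← hde] at q4' q5'
    have hs4 : g.s 4 = - g.s 3 := by
      apply mul_left_cancel₀ hx0
      linear_combination - r4 + hG4 + a * r3 + f1
    rw [hs4] at q4 q4' r4
    have u1 := g.U1 1 4 (by omega) (by omega)
    have u2 := g.U2 1 4 (by omega) (by omega)
    have u3 := g.U1 2 4 (by omega) (by omega)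
    have u4 := g.U2 2 4 (by omega) (by omega)
    rw [ha] at u1 u2
    rw [hb'] at u3 u4
    norm_num at u1 u2 u3 u4
    have hE : g.s 5 ≠ a := by rw [← hs1]; exact (g.s_inj 1 5 (by omega) (by omega)).symm
    have key := caseB (a := a) (c := g.s 3) (x := x) (y := y) (al := al) (de := de) (E := g.s 5)
      (u := g.G 1 4) (h4 := g.H 1 4) (gg := g.G 2 4) (e4 := a ^ 4 * g.H 2 4) (u' := g.G 1 5)
      (h' := g.H 1 5) (g' := g.G 2 5) (e' := a ^ 4 * g.H 2 5) (lam := g.lam 4) (mu := g.mu 4)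
      h20 ha0 ha1 ha2 hc0 hcm hE f1 f2 R
      (by linear_combination (g.s 3 + 1) * hal' + hT)
      (by linear_combination (g.s 3 + 1) * hde' + a * hT)
      (by linear_combination r4) hH4
      (by linear_combination q4) (by linear_combination a ^ 4 * q4')
      (by linear_combination r5) r5'
      (by linear_combination q5) (by linear_combination a ^ 4 * q5')
      (by linear_combination u1 + g.lam 4 * hH4)
      (by linear_combination u2 + g.mu 4 * hH4)
      (by linear_combination u3)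
      (by linear_combination u4)
    rw [GForm.kap, ha]
    linear_combination - a * key
  · -- case A
    rcases local_flat2 g (by omega) 2 (by omega) with h | h | h | h | ⟨hL, hM⟩
    · exact Dne 1 (by omega) hkap1 h
    · exact hk (mulkap 2 h)
    · exact hk3 (mulkap' 2 h)
    · rw [hs2, hb', ha] at h
      apply hca
      apply mul_left_cancel₀ ha0
      linear_combination - h
    rw [hs2, hb', ha, ← hal, ← hde] at hM
    have hM' : de = -(a * g.s 3 * al) := by
      apply mul_left_cancel₀ (pow_ne_zero 2 ha0)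
      linear_combination - hM
    have hT : W * (g.s 3 + 1) = g.s 3 - 1 := by
      apply mul_left_cancel₀ ha0
      linear_combination - hde' + (a - 1) * hM' - a * g.s 3 * hal'
    have hlam0 : g.lam' 0 = 1 - x := by rw [hx]; ring
    have r2 := g.row1G (k := 2) (by omega) (by omega)
    have r2' := g.row1H (k := 2) (by omega) (by omega)
    have r3 := g.row1G (k := 3) (by omega) (by omega)
    have r3' := g.row1H (k := 3) (by omega) (by omega)
    rw [hlam0] at r2 r3
    rw [← hy] at r2' r3'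
    rw [hs2] at r2 r2'
    rw [hs2, hb', ha] at hL
    norm_num at hL
    have R : g.s 3 ^ 2 - (a + 1) * (a ^ 2 + a + 1) * g.s 3 + a ^ 3 = 0 := by
      apply type1_R (x := x) (y := y) hDD
      · linear_combination - (g.s 3 + 1) * hW + (a * x + y) * hT
      · linear_combination hL + a ^ 3 * r2' + a ^ 2 * r3 + a ^ 2 * r3' - g.s 3 * r2
    have dead4 : g.kap 1 4 = 0 → False := by
      intro h4
      have hc := kz 3 h4
      rcases deg_flat g (by omega) 3 (by omega) hc with h | ⟨e1, e2⟩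
      · obtain ⟨C1, _, _, _⟩ := fam_closed g (by omega) ha hb' ha2 hx hy hal hde hW hal' hde' 3
          (by omega) (-1) (by rw [hb']; ring) hc h
        exact closed_four h20 ha0 ha1 ha2 hc0 hca hT C1 R
      · have hT4 := Wexc 3 (by omega) hc e1 e2
        have : 2 * (g.s 4 - g.s 3) = 0 := by
          norm_num at hT4
          linear_combination (g.s 4 + 1) * hT - (g.s 3 + 1) * hT4
        rcases mul_eq_zero.mp this with h | h
        · exact h20 h
        · exact g.s_inj 3 4 (by omega) (by omega) (sub_eq_zero.mp h).symm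
    have hs4 : g.s 4 = - g.s 3 := by
      rcases local_flat2 g (by omega) 3 (by omega) with h | h | h | h | ⟨_, h⟩
      · exact (Dne 2 (by omega) hk h).elim
      · exact (hk3 (mulkap 3 h)).elim
      · exact (dead4 (mulkap' 3 h)).elim
      · rw [hb', ha] at h
        apply mul_left_cancel₀ ha0
        linear_combination - h
      · exfalso
        rw [hb', ha, ← hal, ← hde] at h
        have h5 : (a ^ 3 * al * g.s 3) * (g.s 4 - a) = 0 := by
          linear_combination h - a ^ 3 * hM'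
        have h6 := (mul_eq_zero.mp h5).resolve_left
          (mul_ne_zero (mul_ne_zero (pow_ne_zero 3 ha0) hal0) hc0)
        exact g.s_inj 1 4 (by omega) (by omega) (by rw [hs1]; linear_combination - h6)
    apply fin5 hT
    rcases local_flat2 g (by omega) 4 (by omega) with h | h | h | h | ⟨_, h⟩
    · exact (Dne 3 (by omega) hk3 h).elim
    · exact (dead4 (mulkap 4 h)).elim
    · exact mulkap' 4 h
    · exfalso
      rw [hb', ha, hs4] at h
      apply g.s_inj 3 5 (by omega) (by omega)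
      apply mul_left_cancel₀ ha0
      linear_combination h
    · exfalso
      rw [hb', ha, hs4, ← hal, ← hde] at h
      have h5 : (a ^ 4 * al * g.s 3) * (g.s 5 - a) = 0 := by
        linear_combination - h - a ^ 4 * hM'
      have h6 := (mul_eq_zero.mp h5).resolve_left
        (mul_ne_zero (mul_ne_zero (pow_ne_zero 4 ha0) hal0) hc0)
      exact g.s_inj 1 5 (by omega) (by omega) (by rw [hs1]; linear_combination - h6)

end Pool.Agent.Helper43.IPL
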