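import Pool.Agent.Helper43.IPL.K21Split
import Pool.Agent.Helper85.IP.K21Data

/-!
TH-P, K2-1, letter 0, in terms of helper85's `K21`: the characteristics 2 and 3 are impossible and
`S = -v` or `t^2 u S = v^2` in every characteristic.
-/

namespace Pool.Agent.Helper85.IP

open Pool.Agent.Helper76.IP Pool.Agent.Helper27.IP Pool.Agent.Helper43.IPL

variable {F : Type*} [Field F]

theorem K21.Stv {t v u S T r : F} (K : K21 t v u S T r) : S - v * t ≠ 0 := by
  intro h
  exact K.tvS (by linear_combination -h)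

/-- characteristic 2 is impossible. -/
theorem K21.char2 {t v u S T r : F} (K : K21 t v u S T r) (hp : (2 : F) = 0)
    (hI : pI S v u = 0) : False := by
  obtain ⟨hR, h1, h2', h3', h4, hF1, hD1⟩ :=
    k21_small K.t0 K.v0 K.u0 K.S0 K.Sv K.td K.uS K.u1 K.R K.Ea K.B2 hI
  exact k21_c2 hp K.t0 K.v0 K.S0 K.u1 K.Stv K.t1 K.v1 hR h1 h2' h3' h4 hF1 hD1

/-- characteristic 3 is impossible. -/
theorem K21.char3 {t v u S T r : F} (K : K21 t v u S T r) (hp : (3 : F) = 0)
    (hI : pI S v u = 0) : False := by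
  obtain ⟨hR, h1, h2', h3', h4, hF1, hD1⟩ :=
    k21_small K.t0 K.v0 K.u0 K.S0 K.Sv K.td K.uS K.u1 K.R K.Ea K.B2 hI
  exact k21_c3 hp K.t0 K.v0 K.S0 K.t1 K.Stv K.uS K.tv1 K.hST hR h1 h2' h3' h4 hF1 hD1
    (k20_E K.t0 K.T0 K.hr K.R K.t1 K.F41)

/-- letter 0, every characteristic. -/
theorem K21.letter0' {t v u S T r : F} (K : K21 t v u S T r) (hI : pI S v u = 0) :
    S = -v ∨ t ^ 2 * u * S = v ^ 2 := by
  by_cases h2 : (2 : F) = 0
  · exact (K.char2 h2 hI).elim
  by_cases h3 : (3 : F) = 0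
  · exact (K.char3 h3 hI).elim
  exact K.letter0 h2 h3 hI

end Pool.Agent.Helper85.IP
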