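import Pool.Agent.Helper43.IPL.Mult
import Pool.Agent.Helper54.IP.Defs

/-!
MP_d2f54f_al (inverting pairs): Christoffel-Darboux sums, the two decoupled equations of helper31,
and the local flatness alternative for a `GForm`.
-/

namespace Pool.Agent.Helper43.IPL

open Pool.Agent.Helper54.IP

variable {F : Type*} [Field F] {m : ℕ}

/-- `(G j k, H j k) ≠ 0`. -/
theorem GH_ne (Γ : GForm F m) (j : ℕ) (hj : j ≤ m) : ∀ k, k ≤ m → Γ.G j k ≠ 0 ∨ Γ.H j k ≠ 0 := by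
  intro k
  induction k with
  | zero => intro _; left; rw [Γ.G0 j hj]; exact one_ne_zero
  | succ k ih =>
    intro hk
    by_contra hcon
    push Not at hcon
    obtain ⟨h1, h2⟩ := hcon
    have u1 := Γ.U1 j k hj (by omega)
    have u2 := Γ.U2 j k hj (by omega)
    rw [h1] at u1
    rw [h2, mul_zero] at u2
    have hlm : Γ.mu k - Γ.lam k ≠ 0 := sub_ne_zero.mpr (Γ.lm_ne k (by omega)).symm
    have ha : (Γ.mu k - Γ.lam k) * (Γ.t j * Γ.G j k) = 0 := by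
      linear_combination Γ.lam k * u2 - Γ.mu k * u1
    have hb : (Γ.mu k - Γ.lam k) * (Γ.t j ^ k * Γ.H j k) = 0 := by
      linear_combination (1 - Γ.mu k) * u1 - (1 - Γ.lam k) * u2
    have ha' := (mul_eq_zero.mp ((mul_eq_zero.mp ha).resolve_left hlm)).resolve_left (Γ.t_ne j hj)
    have hb' := (mul_eq_zero.mp ((mul_eq_zero.mp hb).resolve_left hlm)).resolve_left
      (pow_ne_zero k (Γ.t_ne j hj))
    rcases ih (by omega) with h | h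
    · exact h ha'
    · exact h hb'

/-- Christoffel-Darboux quantity (closed form). -/
def nn (Γ : GForm F m) (i j k : ℕ) : F :=
  Γ.t j * (Γ.G i k * Γ.H j k - (Γ.t i / Γ.t j) ^ k * (Γ.H i k * Γ.G j k)) / (Γ.t i - Γ.t j)

theorem nn_zero (Γ : GForm F m) (i j : ℕ) (hi : i ≤ m) (hj : j ≤ m) : nn Γ i j 0 = 0 := by
  simp [nn, Γ.G0 i hi, Γ.H0 j hj, Γ.H0 i hi, Γ.G0 j hj]

theorem nn_succ (Γ : GForm F m) (i j k : ℕ) (hi : i ≤ m) (hj : j ≤ m) (hij : Γ.t i - Γ.t j ≠ 0)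
    (hk : k < m) :
    nn Γ i j (k + 1) = (Γ.mu k - Γ.lam k) * (nn Γ i j k + Γ.G i k * Γ.H j k) := by
  have ti := Γ.t_ne i hi
  have tj := Γ.t_ne j hj
  have u1 := Γ.U1 i k hi hk
  have u2 := Γ.U2 i k hi hk
  have w1 := Γ.U1 j k hj hk
  have w2 := Γ.U2 j k hj hk
  have key : Γ.t j ^ (k + 1) * (Γ.G i (k + 1) * Γ.H j (k + 1)
        - (Γ.t i / Γ.t j) ^ (k + 1) * (Γ.H i (k + 1) * Γ.G j (k + 1)))
      = (Γ.mu k - Γ.lam k) * (Γ.t i * Γ.G i k * (Γ.t j ^ k * Γ.H j k)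
        - Γ.t i ^ k * Γ.H i k * (Γ.t j * Γ.G j k)) := by
    have e1 : Γ.t j ^ (k + 1) * (Γ.t i / Γ.t j) ^ (k + 1) = Γ.t i ^ (k + 1) := by
      rw [← mul_pow, mul_div_cancel₀ _ tj]
    calc Γ.t j ^ (k + 1) * (Γ.G i (k + 1) * Γ.H j (k + 1)
        - (Γ.t i / Γ.t j) ^ (k + 1) * (Γ.H i (k + 1) * Γ.G j (k + 1)))
        = Γ.G i (k + 1) * (Γ.t j ^ (k + 1) * Γ.H j (k + 1))
          - (Γ.t j ^ (k + 1) * (Γ.t i / Γ.t j) ^ (k + 1)) * Γ.H i (k + 1) * Γ.G j (k + 1) := by ring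
      _ = Γ.G i (k + 1) * (Γ.t j ^ (k + 1) * Γ.H j (k + 1))
          - (Γ.t i ^ (k + 1) * Γ.H i (k + 1)) * Γ.G j (k + 1) := by rw [e1]
      _ = _ := by rw [u2, w2, u1, w1]; ring
  have key2 : Γ.t j ^ k * (Γ.G i k * Γ.H j k - (Γ.t i / Γ.t j) ^ k * (Γ.H i k * Γ.G j k))
      = Γ.t j ^ k * Γ.G i k * Γ.H j k - Γ.t i ^ k * Γ.H i k * Γ.G j k := by
    have e1 : Γ.t j ^ k * (Γ.t i / Γ.t j) ^ k = Γ.t i ^ k := by
      rw [← mul_pow, mul_div_cancel₀ _ tj]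
    linear_combination - Γ.H i k * Γ.G j k * e1
  have hpow : Γ.t j ^ k ≠ 0 := pow_ne_zero k tj
  unfold nn
  rw [div_eq_iff hij, mul_assoc, add_mul, div_mul_cancel₀ _ hij]
  apply mul_left_cancel₀ hpow
  linear_combination key - (Γ.mu k - Γ.lam k) * Γ.t j * key2

theorem E1n (Γ : GForm F m) (hm : 2 ≤ m) : ∀ k, k ≤ m →
    nn Γ 2 1 k - (1 - Γ.mu' 0) * nn Γ 2 0 k
      = Γ.mu' 0 * ((1 - Γ.lam' 1) * nn Γ 1 0 k + Γ.lam' 1 * nn Γ 0 1 k) := by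
  intro k
  have h21 : Γ.t 2 - Γ.t 1 ≠ 0 := sub_ne_zero.mpr (Γ.t_inj 1 2 (by omega) (by omega)).symm
  have h20 : Γ.t 2 - Γ.t 0 ≠ 0 := sub_ne_zero.mpr (Γ.t_inj 0 2 (by omega) (by omega)).symm
  have h10 : Γ.t 1 - Γ.t 0 ≠ 0 := sub_ne_zero.mpr (Γ.t_inj 0 1 (by omega) (by omega)).symm
  have h01 : Γ.t 0 - Γ.t 1 ≠ 0 := sub_ne_zero.mpr (Γ.t_inj 0 1 (by omega) (by omega))
  induction k with
  | zero =>
    intro _
    rw [nn_zero Γ 2 1 (by omega) (by omega), nn_zero Γ 2 0 (by omega) (by omega),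
      nn_zero Γ 1 0 (by omega) (by omega), nn_zero Γ 0 1 (by omega) (by omega)]
    ring
  | succ k ih =>
    intro hk
    have ih := ih (by omega)
    rw [nn_succ Γ 2 1 k (by omega) (by omega) h21 (by omega),
      nn_succ Γ 2 0 k (by omega) (by omega) h20 (by omega),
      nn_succ Γ 1 0 k (by omega) (by omega) h10 (by omega),
      nn_succ Γ 0 1 k (by omega) (by omega) h01 (by omega)]
    have a1 := Γ.V2 0 k (by omega) (by omega)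
    have a2 := Γ.V1 1 k (by omega) (by omega)
    have hs := Γ.s_ne k (by omega)
    have g0 := Γ.G0' k (by omega)
    have h0 := Γ.H0' k (by omega)
    simp only [zero_add, pow_one, pow_zero, g0, h0, mul_one] at a1 a2
    have rel : Γ.G 2 k * Γ.H 1 k - (1 - Γ.mu' 0) * (Γ.G 2 k * 1)
        = Γ.mu' 0 * ((1 - Γ.lam' 1) * (Γ.G 1 k * 1) + Γ.lam' 1 * (1 * Γ.H 1 k)) := by
      apply mul_left_cancel₀ hs
      have a2' : Γ.G 2 k = Γ.s k * ((1 - Γ.lam' 1) * Γ.G 1 k + Γ.lam' 1 * Γ.H 1 k) := by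
        linear_combination a2
      linear_combination Γ.G 2 k * a1 + Γ.mu' 0 * a2'
    rw [g0, h0]
    linear_combination (Γ.mu k - Γ.lam k) * (ih + rel)

theorem E2n (Γ : GForm F m) (hm : 2 ≤ m) : ∀ k, k ≤ m →
    nn Γ 1 2 k - (1 - (1 - Γ.lam' 0)) * nn Γ 0 2 k
      = (1 - Γ.lam' 0) * ((1 - Γ.mu' 1) * nn Γ 1 0 k + Γ.mu' 1 * nn Γ 0 1 k) := by
  intro k
  have h12 : Γ.t 1 - Γ.t 2 ≠ 0 := sub_ne_zero.mpr (Γ.t_inj 1 2 (by omega) (by omega))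
  have h02 : Γ.t 0 - Γ.t 2 ≠ 0 := sub_ne_zero.mpr (Γ.t_inj 0 2 (by omega) (by omega))
  have h10 : Γ.t 1 - Γ.t 0 ≠ 0 := sub_ne_zero.mpr (Γ.t_inj 0 1 (by omega) (by omega)).symm
  have h01 : Γ.t 0 - Γ.t 1 ≠ 0 := sub_ne_zero.mpr (Γ.t_inj 0 1 (by omega) (by omega))
  induction k with
  | zero =>
    intro _
    rw [nn_zero Γ 1 2 (by omega) (by omega), nn_zero Γ 0 2 (by omega) (by omega),
      nn_zero Γ 1 0 (by omega) (by omega), nn_zero Γ 0 1 (by omega) (by omega)]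
    ring
  | succ k ih =>
    intro hk
    have ih := ih (by omega)
    rw [nn_succ Γ 1 2 k (by omega) (by omega) h12 (by omega),
      nn_succ Γ 0 2 k (by omega) (by omega) h02 (by omega),
      nn_succ Γ 1 0 k (by omega) (by omega) h10 (by omega),
      nn_succ Γ 0 1 k (by omega) (by omega) h01 (by omega)]
    have a1 := Γ.V1 0 k (by omega) (by omega)
    have a2 := Γ.V2 1 k (by omega) (by omega)
    have hs := Γ.s_ne k (by omega)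
    have g0 := Γ.G0' k (by omega)
    have h0 := Γ.H0' k (by omega)
    simp only [zero_add, pow_one, pow_zero, g0, h0, mul_one] at a1 a2
    have a2' : Γ.s k * Γ.H 2 k = (1 - Γ.mu' 1) * Γ.G 1 k + Γ.mu' 1 * Γ.H 1 k := by
      apply mul_left_cancel₀ hs
      linear_combination a2
    have rel : Γ.G 1 k * Γ.H 2 k - (1 - (1 - Γ.lam' 0)) * (1 * Γ.H 2 k)
        = (1 - Γ.lam' 0) * ((1 - Γ.mu' 1) * (Γ.G 1 k * 1) + Γ.mu' 1 * (1 * Γ.H 1 k)) := by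
      linear_combination Γ.H 2 k * a1 + (1 - Γ.lam' 0) * a2'
    rw [g0, h0]
    linear_combination (Γ.mu k - Γ.lam k) * (ih + rel)

/-- helper31's (E1), cleared form: `X = t 1 ^ k`, `Y = t 2 ^ k`, `x = 1 - lam' 0`, `x' = mu' 0`, `be = lam' 1`. -/
theorem E1c (Γ : GForm F m) (hm : 2 ≤ m) (k : ℕ) (hk : k ≤ m) :
    Γ.t 1 * (Γ.G 2 k * (Γ.t 1 ^ k * Γ.H 1 k) - Γ.t 2 ^ k * Γ.H 2 k * Γ.G 1 k) * (Γ.t 2 - 1) * (Γ.t 1 - 1)
      - Γ.t 1 ^ k * (1 - Γ.mu' 0) * (Γ.G 2 k - Γ.t 2 ^ k * Γ.H 2 k) * (Γ.t 2 - Γ.t 1) * (Γ.t 1 - 1)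
      - Γ.mu' 0 * ((1 - Γ.lam' 1) * Γ.t 1 ^ k + Γ.lam' 1 * Γ.t 1)
        * (Γ.G 1 k - Γ.t 1 ^ k * Γ.H 1 k) * (Γ.t 2 - Γ.t 1) * (Γ.t 2 - 1) = 0 := by
  have t1 := Γ.t_ne 1 (by omega)
  have t2 := Γ.t_ne 2 (by omega)
  have h21 : Γ.t 2 - Γ.t 1 ≠ 0 := sub_ne_zero.mpr (Γ.t_inj 1 2 (by omega) (by omega)).symm
  have h20 : Γ.t 2 - 1 ≠ 0 := by
    rw [← Γ.t0]; exact sub_ne_zero.mpr (Γ.t_inj 0 2 (by omega) (by omega)).symm
  have h10 : Γ.t 1 - 1 ≠ 0 := by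
    rw [← Γ.t0]; exact sub_ne_zero.mpr (Γ.t_inj 0 1 (by omega) (by omega)).symm
  have g0 := Γ.G0' k (by omega)
  have h0 := Γ.H0' k (by omega)
  have E1 := E1n Γ hm k (by omega)
  simp only [nn, Γ.t0, g0, h0, one_mul, mul_one, div_one, one_div, inv_pow, div_pow] at E1
  have hX : Γ.t 1 ^ k ≠ 0 := pow_ne_zero k t1
  have hY : Γ.t 2 ^ k ≠ 0 := pow_ne_zero k t2
  have h01 : 1 - Γ.t 1 ≠ 0 := by
    rw [← neg_sub]; exact neg_ne_zero.mpr h10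
  field_simp at E1
  apply mul_left_cancel₀ h01
  linear_combination E1

/-- helper31's (E2), cleared form. -/
theorem E2c (Γ : GForm F m) (hm : 2 ≤ m) (k : ℕ) (hk : k ≤ m) :
    Γ.t 2 * Γ.t 1 ^ k * (Γ.t 1 ^ k * Γ.H 1 k * Γ.G 2 k - Γ.G 1 k * (Γ.t 2 ^ k * Γ.H 2 k))
        * (Γ.t 2 - 1) * (Γ.t 1 - 1)
      - Γ.t 2 * Γ.t 1 ^ k * (1 - (1 - Γ.lam' 0)) * (Γ.G 2 k - Γ.t 2 ^ k * Γ.H 2 k)
        * (Γ.t 2 - Γ.t 1) * (Γ.t 1 - 1)
      - (1 - Γ.lam' 0) * Γ.t 2 ^ k * ((1 - Γ.mu' 1) * Γ.t 1 ^ k + Γ.mu' 1 * Γ.t 1)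
        * (Γ.G 1 k - Γ.t 1 ^ k * Γ.H 1 k) * (Γ.t 2 - Γ.t 1) * (Γ.t 2 - 1) = 0 := by
  have t1 := Γ.t_ne 1 (by omega)
  have t2 := Γ.t_ne 2 (by omega)
  have h21 : Γ.t 2 - Γ.t 1 ≠ 0 := sub_ne_zero.mpr (Γ.t_inj 1 2 (by omega) (by omega)).symm
  have h20 : Γ.t 2 - 1 ≠ 0 := by
    rw [← Γ.t0]; exact sub_ne_zero.mpr (Γ.t_inj 0 2 (by omega) (by omega)).symm
  have h10 : Γ.t 1 - 1 ≠ 0 := by
    rw [← Γ.t0]; exact sub_ne_zero.mpr (Γ.t_inj 0 1 (by omega) (by omega)).symm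
  have g0 := Γ.G0' k (by omega)
  have h0 := Γ.H0' k (by omega)
  have E2 := E2n Γ hm k (by omega)
  simp only [nn, Γ.t0, g0, h0, one_mul, mul_one, div_one, one_div, inv_pow, div_pow] at E2
  have hX : Γ.t 1 ^ k ≠ 0 := pow_ne_zero k t1
  have hY : Γ.t 2 ^ k ≠ 0 := pow_ne_zero k t2
  have h12 : Γ.t 1 - Γ.t 2 ≠ 0 := by
    rw [← neg_sub]; exact neg_ne_zero.mpr h21
  have h01 : 1 - Γ.t 1 ≠ 0 := by
    rw [← neg_sub]; exact neg_ne_zero.mpr h10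
  have h02 : 1 - Γ.t 2 ≠ 0 := by
    rw [← neg_sub]; exact neg_ne_zero.mpr h20
  field_simp at E2
  apply mul_left_cancel₀ h01
  linear_combination E2

/-- LOCAL FLATNESS ALTERNATIVE (rows 0, 1, 2; columns k, k+1). -/
theorem local_flat (Γ : GForm F m) (hm : 2 ≤ m) (k : ℕ) (hk : k < m) :
    Γ.G 1 k - Γ.t 1 ^ k * Γ.H 1 k = 0 ∨ Γ.t 1 ^ k * Γ.H 1 k - Γ.t 1 * Γ.G 1 k = 0 ∨
    Γ.t 1 ^ k * Γ.H 1 (k + 1) - Γ.G 1 (k + 1) = 0 ∨ Γ.s k * Γ.t 2 = Γ.t 1 * Γ.s (k + 1) ∨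
      (1 - Γ.lam' 1) * (Γ.s k * Γ.s (k + 1) * Γ.t 1 ^ k) = Γ.mu' 1 * Γ.t 2 ^ k := by
  have t1 := Γ.t_ne 1 (by omega)
  have t2 := Γ.t_ne 2 (by omega)
  have h21 : Γ.t 2 - Γ.t 1 ≠ 0 := sub_ne_zero.mpr (Γ.t_inj 1 2 (by omega) (by omega)).symm
  have h20 : Γ.t 2 - 1 ≠ 0 := by
    rw [← Γ.t0]; exact sub_ne_zero.mpr (Γ.t_inj 0 2 (by omega) (by omega)).symm
  have h10 : Γ.t 1 - 1 ≠ 0 := by
    rw [← Γ.t0]; exact sub_ne_zero.mpr (Γ.t_inj 0 1 (by omega) (by omega)).symm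
  have hs := Γ.s_ne k (by omega)
  have hs' := Γ.s_ne (k + 1) (by omega)
  have hss : Γ.s (k + 1) - Γ.s k ≠ 0 :=
    sub_ne_zero.mpr (Γ.s_inj k (k + 1) (by omega) (by omega)).symm
  have g0 := Γ.G0' k (by omega)
  have h0 := Γ.H0' k (by omega)
  have g0' := Γ.G0' (k + 1) (by omega)
  have h0' := Γ.H0' (k + 1) (by omega)
  have a1 := Γ.V1 0 k (by omega) (by omega)
  have a2 := Γ.V2 0 k (by omega) (by omega)
  have a3 := Γ.V1 1 k (by omega) (by omega)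
  have a4 := Γ.V2 1 k (by omega) (by omega)
  have b1 := Γ.V1 0 (k + 1) (by omega) (by omega)
  have b2 := Γ.V2 0 (k + 1) (by omega) (by omega)
  have b3 := Γ.V1 1 (k + 1) (by omega) (by omega)
  have b4 := Γ.V2 1 (k + 1) (by omega) (by omega)
  simp only [zero_add, pow_one, pow_zero, g0, h0, g0', h0', mul_one] at a1 a2 a3 a4 b1 b2 b3 b4
  have a4' : Γ.s k * Γ.H 2 k = (1 - Γ.mu' 1) * Γ.G 1 k + Γ.mu' 1 * Γ.H 1 k := by
    apply mul_left_cancel₀ hs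
    linear_combination a4
  have b4' : Γ.s (k + 1) * Γ.H 2 (k + 1)
      = (1 - Γ.mu' 1) * Γ.G 1 (k + 1) + Γ.mu' 1 * Γ.H 1 (k + 1) := by
    apply mul_left_cancel₀ hs'
    linear_combination b4
  have U1 := Γ.U1 1 k (by omega) hk
  have U1' := Γ.U2 1 k (by omega) hk
  have U2 := Γ.U1 2 k (by omega) hk
  have U2' := Γ.U2 2 k (by omega) hk
  have hX : Γ.t 1 ^ k ≠ 0 := pow_ne_zero k t1
  have hY : Γ.t 2 ^ k ≠ 0 := pow_ne_zero k t2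
  have key := flat_alg2 (1 - Γ.lam' 0) (Γ.mu' 0) (Γ.lam' 1) (Γ.mu' 1) (Γ.s k) (Γ.s (k + 1))
    (Γ.t 1) (Γ.t 2) (Γ.t 1 ^ k) (Γ.t 2 ^ k) (Γ.lam k) (Γ.mu k) (Γ.G 1 k) (Γ.H 1 k)
    (Γ.G 1 (k + 1)) (Γ.H 1 (k + 1)) (Γ.t 1 ^ k * Γ.H 1 k) (Γ.t 1 ^ k * Γ.H 1 (k + 1))
    (Γ.G 2 k) (Γ.G 2 (k + 1)) (Γ.t 2 ^ k * Γ.H 2 k) (Γ.t 2 ^ k * Γ.H 2 (k + 1))
    hs hs' hss hX t2 h10 h20 h21
    (sub_ne_zero.mpr (Γ.lam'_ne 0 (by omega)).symm) (Γ.mu'_ne 0 (by omega)) rfl rfl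
    (by linear_combination a1) (by linear_combination a2)
    (by linear_combination b1) (by linear_combination b2)
    (by linear_combination a3) (by linear_combination Γ.t 2 ^ k * a4')
    (by linear_combination b3) (by linear_combination Γ.t 2 ^ k * b4')
    (by linear_combination U1) (by linear_combination U1')
    (by linear_combination U2) (by linear_combination U2')
    (E1c Γ hm k (by omega)) (E2c Γ hm k (by omega)) ?_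
  · rcases key with h | h | h | h | h
    · exact Or.inl h
    · exact Or.inr (Or.inl h)
    · exact Or.inr (Or.inr (Or.inl h))
    · exact Or.inr (Or.inr (Or.inr (Or.inl h)))
    · exact Or.inr (Or.inr (Or.inr (Or.inr h)))
  · rcases GH_ne Γ 2 (by omega) k (by omega) with h | h
    · exact Or.inl h
    · exact Or.inr (mul_ne_zero hY h)

end Pool.Agent.Helper43.IPL
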