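import Pool.Agent.Helper43.IPL.K20Alg
import Pool.Agent.Helper76.IP.K2Row
import Pool.Agent.Helper76.IP.K2Cell
import Pool.Agent.Helper27.IP.K2Dual
import Pool.Agent.Helper27.IP.K2Closed

/-!
TH-P, K2, letter 0: `K2-0` is dead for `m ≥ 6`, and forces `t_2 = -t_1` for `m = 5`.
-/

namespace Pool.Agent.Helper43.IPL

open Pool.Agent.Helper54.IP
open Pool.Agent.Helper76.IP
open Pool.Agent.Helper27.IP

variable {F : Type*} [Field F] {m : ℕ}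

private theorem cancel {a b : F} (ha : a ≠ 0) (h : a * b = 0) : b = 0 :=
  (mul_eq_zero.1 h).resolve_left ha

/-- K2, the row strip for `m ≥ 5` (helper76's proof of `k2_F`, first part) -/
theorem k2_F5 (g : GForm F m) (hm : 5 ≤ m) (hD : g.G 1 1 ≠ g.H 1 1)
    (hn1 : (g.s 2 * g.t 1 - g.t 2) * ((1 - g.lam' 0) - g.t 1 * g.mu' 0 + g.t 1 - 1) =
        (g.s 2 - 1) * (g.t 1 * g.t 2 * (1 - g.lam' 0) - g.t 1 * g.mu' 0))
    (hn2 : (g.t 2 * g.s 1 - g.s 2) * ((1 - g.lam' 0) - g.t 1 * g.mu' 0 + g.t 1 - 1) =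
        (g.t 2 - 1) * (g.s 1 * g.s 2 * (1 - g.lam' 0) - g.t 1 * g.mu' 0))
    (hk : g.kap 1 2 = 0) {v r : F} (hv : g.s 2 = v * g.t 2) (hr : g.t 2 = g.t 1 * r) :
    g.s 4 = g.s 1 * r ^ 3 ∧
    k2F (g.t 1) r (g.s 2) v (g.s 1) (g.t 1) r + k2F (g.t 1) r (g.s 2) v (g.s 1) (g.t 1 ^ 2) (r ^ 2)
      + k2F (g.t 1) r (g.s 2) v (g.s 1) (g.t 1 ^ 3) (r ^ 3) = 0 := by
  obtain ⟨v', hv0, hv1, hS, hs3, R, hx1, hy, h1x, h1y, hp, hk', e1, hG13, hw, hal, hde⟩ :=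
    k2_base g (by omega) hD hn1 hn2 hk
  have ht := g.t_ne 1 (by omega)
  have hT := g.t_ne 2 (by omega)
  have hvv : v' = v := by
    apply mul_right_cancel₀ hT
    rw [← hS, ← hv]
  subst hvv
  have hs4 := k2_s4 g (by omega) hD hn1 hn2 hk
  have h14 := k2_kap14_ne g (by omega) hD hn1 hn2 hk
  have h13 : g.kap 1 3 ≠ 0 := Pool.Agent.Helper14.IP.deg_next g (by omega) hk
  have h11 : g.kap 1 1 ≠ 0 := fun h =>
    Pool.Agent.Helper14.IP.deg_next g (k := 1) (by omega) h hk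
  have hr0 : r ≠ 0 := by
    rintro rfl
    rw [mul_zero] at hr
    exact hT hr
  have hu := g.s_ne 1 (by omega)
  have hs2 := g.s_ne 2 (by omega)
  have hx : 1 - g.lam' 0 ≠ 0 := sub_ne_zero.mpr (g.lam'_ne 0 (by omega)).symm
  have hal0 : 1 - g.lam' 1 ≠ 0 := sub_ne_zero.mpr (g.lam'_ne 1 (by omega)).symm
  have hT1 : g.t 2 - 1 ≠ 0 := by
    rw [← g.t0]; exact sub_ne_zero.mpr (g.t_inj 0 2 (by omega) (by omega)).symm
  have ht1 : g.t 1 - 1 ≠ 0 := by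
    rw [← g.t0]; exact sub_ne_zero.mpr (g.t_inj 0 1 (by omega) (by omega)).symm
  have hTt : g.t 2 - g.t 1 ≠ 0 := sub_ne_zero.mpr (g.t_inj 1 2 (by omega) (by omega)).symm
  have hSv : g.s 2 - v' ≠ 0 := by
    rw [hS]
    intro h
    exact mul_ne_zero hv0 hT1 (by linear_combination h)
  have h10 : g.kap 1 0 ≠ 0 := by
    rw [g.kap_zero (by omega)]
    exact ht1
  -- letters
  have h4 : g.s 4 = g.s 1 * r ^ 3 := by
    apply mul_right_cancel₀ (pow_ne_zero 3 ht)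
    rw [hs4, hr]
    ring
  have q1 := qx_col g (by omega) (k := 0) (by omega) h10 h11
  have q4 := qx_col g (by omega) (k := 3) (by omega) h13 h14
  norm_num at q1 q4
  rw [h4] at q4
  have h1x' : (1 - (1 - g.lam' 0)) * ((g.s 2 - 1) * (v' + 1)) = g.t 1 * (v' - g.s 2) := by
    linear_combination h1x
  have h1y' : 1 - (1 - g.lam' 0) = g.t 1 ^ 2 * (1 - g.mu' 0) := by
    linear_combination h1y
  have d1 := k2_dq (X := g.t 1) (P := r) (s := g.s 1) ht hu hr0 hr hS (by ring) hx1 hy h1x' h1y'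
    hal hde
  have d2 := k2_dq (X := g.t 1 ^ 2) (P := r ^ 2) (s := g.s 1 * r) ht hu hr0 hr hS (by ring) hx1 hy
    h1x' h1y' hal hde
  have d3 := k2_dq (X := g.t 1 ^ 3) (P := r ^ 3) (s := g.s 1 * r ^ 2) ht hu hr0 hr hS (by ring) hx1
    hy h1x' h1y' hal hde
  have hc : (g.t 2 - g.t 1) * (g.t 1 - 1) * (1 - g.lam' 1) * (1 - g.lam' 0) * (g.s 2 - v') ≠ 0 :=
    mul_ne_zero (mul_ne_zero (mul_ne_zero (mul_ne_zero hTt ht1) hal0) hx) hSv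
  have e : ∀ X P : F, (v' + 1 - g.s 2) * k2G (g.t 1) r (g.s 2) v' (g.s 1) X P =
      g.s 2 * k2F (g.t 1) r (g.s 2) v' (g.s 1) X P := fun X P => by
    have hS' : g.s 2 = v' * (g.t 1 * r) := by rw [← hr]; exact hS
    exact k2G_eq hr0 hS' R
  have p2 : g.t 1 * g.t 1 = g.t 1 ^ 2 := by ring
  have p3 : g.t 1 * g.t 1 ^ 2 = g.t 1 ^ 3 := by ring
  have p4 : g.t 1 * g.t 1 ^ 3 = g.t 1 ^ 4 := by ring
  rw [p2] at d1
  rw [p3] at d2
  rw [p4, q4] at d3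
  rw [q1] at d1
  have G1 : k2G (g.t 1) r (g.s 2) v' (g.s 1) (g.t 1) r +
      k2G (g.t 1) r (g.s 2) v' (g.s 1) (g.t 1 ^ 2) (r ^ 2) +
      k2G (g.t 1) r (g.s 2) v' (g.s 1) (g.t 1 ^ 3) (r ^ 3) = 0 := by
    refine cancel hc ?_
    linear_combination -(d1 + d2 + d3)
  refine ⟨h4, ?_⟩
  · refine cancel hs2 ?_
    linear_combination (v' + 1 - g.s 2) * G1 - e (g.t 1) r - e (g.t 1 ^ 2) (r ^ 2)
      - e (g.t 1 ^ 3) (r ^ 3)


/-- K2-0: `t_2 = -t_1`. -/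
theorem k20_T (g : GForm F m) (hm : 5 ≤ m) (hD : g.G 1 1 ≠ g.H 1 1) (h2 : g.t 2 ≠ g.s 2)
    (hn1 : (g.s 2 * g.t 1 - g.t 2) * ((1 - g.lam' 0) - g.t 1 * g.mu' 0 + g.t 1 - 1) =
        (g.s 2 - 1) * (g.t 1 * g.t 2 * (1 - g.lam' 0) - g.t 1 * g.mu' 0))
    (hn2 : (g.t 2 * g.s 1 - g.s 2) * ((1 - g.lam' 0) - g.t 1 * g.mu' 0 + g.t 1 - 1) =
        (g.t 2 - 1) * (g.s 1 * g.s 2 * (1 - g.lam' 0) - g.t 1 * g.mu' 0))
    (hk : g.kap 1 2 = 0) {v : F} (D : K2Data g v) (htd : v + 1 - g.s 2 ≠ 0)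
    (hk3 : g.swap.kap 1 3 ≠ 0) (huv : g.s 1 * v = 1) (h3 : g.t 3 = g.s 2 ^ 2) :
    g.t 2 = -g.t 1 := by
  have hS := D.hS
  have R := D.R
  have hv0 := D.v0
  have hvp := D.v1
  rcases k2_cell0 g (by omega) hD h2 hn1 hn2 hk hS htd huv h3 with h | f2
  · exact h
  exfalso
  have hk2 := D.kap' (by omega) h2 htd
  have hk4 : g.swap.kap 1 4 ≠ 0 := fun h => D.kap4_0 hm h2 huv h3 f2 h
  have ht := g.t_ne 1 (by omega)
  have hT := g.t_ne 2 (by omega)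
  have hs2 := g.s_ne 2 (by omega)
  have hT1 : g.t 2 - 1 ≠ 0 := by
    rw [← g.t0]; exact sub_ne_zero.mpr (g.t_inj 0 2 (by omega) (by omega)).symm
  have ht1 : g.t 1 - 1 ≠ 0 := by
    rw [← g.t0]; exact sub_ne_zero.mpr (g.t_inj 0 1 (by omega) (by omega)).symm
  have hS1 : g.s 2 - 1 ≠ 0 := by
    rw [← g.s0]; exact sub_ne_zero.mpr (g.s_inj 0 2 (by omega) (by omega)).symm
  have hv1 : v - 1 ≠ 0 := by
    intro h
    apply h2
    rw [hS, sub_eq_zero.1 h, one_mul]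
  have hSv : g.s 2 * v - 1 ≠ 0 := by
    intro h
    apply g.s_inj 1 2 (by omega) (by omega)
    apply mul_right_cancel₀ hv0
    linear_combination huv - h
  have hph : v ^ 2 + v + 1 ≠ 0 := by
    intro h
    apply g.s_inj 0 3 (by omega) (by omega)
    rw [g.s0, D.hs3]
    refine (sub_eq_zero.1 (cancel htd ?_)).symm
    linear_combination v * R + (g.s 2 - 1) * h
  have hA2 : g.s 2 * (v ^ 3 + v ^ 2 + 1) - (v ^ 3 + v + 1) ≠ 0 := by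
    intro h
    apply g.s_inj 1 3 (by omega) (by omega)
    rw [D.hs3]
    apply mul_right_cancel₀ hv0
    rw [huv]
    refine (sub_eq_zero.1 (cancel htd ?_)).symm
    linear_combination v ^ 2 * R + h
  obtain ⟨r, hr⟩ : ∃ r, g.t 2 = g.t 1 * r := ⟨g.t 2 / g.t 1, by field_simp⟩
  obtain ⟨h4, hF⟩ := k2_F5 g hm hD hn1 hn2 hk hS hr
  have hE := k20_E ht hT hr R ht1 hF
  rcases D.step3_0 (by omega) h2 htd hk2 hk3 hk4 huv h3 with ⟨-, h⟩ | ⟨-, h⟩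
  · rw [pA] at h
    have hA := (mul_eq_zero.1 h).resolve_right hA2
    exact k20_A hv1 hT1 hS huv (by linear_combination hA) (by linear_combination f2) R hE
  · rw [pD1] at h
    exact k20_D hs2 hS1 hv0 hvp hph hSv htd hS huv (by linear_combination f2) h R hE

/-- K2-0 is dead for `m ≥ 6`. -/
theorem k20_dead (g : GForm F m) (hm : 6 ≤ m) (hD : g.G 1 1 ≠ g.H 1 1) (h2 : g.t 2 ≠ g.s 2)
    (hn1 : (g.s 2 * g.t 1 - g.t 2) * ((1 - g.lam' 0) - g.t 1 * g.mu' 0 + g.t 1 - 1) =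
        (g.s 2 - 1) * (g.t 1 * g.t 2 * (1 - g.lam' 0) - g.t 1 * g.mu' 0))
    (hn2 : (g.t 2 * g.s 1 - g.s 2) * ((1 - g.lam' 0) - g.t 1 * g.mu' 0 + g.t 1 - 1) =
        (g.t 2 - 1) * (g.s 1 * g.s 2 * (1 - g.lam' 0) - g.t 1 * g.mu' 0))
    (hk : g.kap 1 2 = 0) {v : F} (D : K2Data g v) (htd : v + 1 - g.s 2 ≠ 0)
    (hk3 : g.swap.kap 1 3 ≠ 0) (huv : g.s 1 * v = 1) (h3 : g.t 3 = g.s 2 ^ 2) : False := by
  have h := k20_T g (by omega) hD h2 hn1 hn2 hk D htd hk3 huv h3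
  obtain ⟨-, h5, -, -⟩ := k2_F g hm hD hn1 hn2 hk D.hS (r := -1) (by rw [h]; ring)
  apply g.s_inj 1 5 (by omega) (by omega)
  rw [h5]
  ring

end Pool.Agent.Helper43.IPL
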