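import Mathlib

/-!
MP_d2f54f_al (inverting pairs), piece P3: certificates for the sporadic points (`b = a r`).
-/

namespace Pool.Agent.Helper43.IPL

variable {F : Type*} [Field F]

/-- the sporadic ideal: from the curve `R3 = J1 = J2 = J3 = 0` and `Z = 0`. -/
theorem spor {a r c : F} (ha : a ≠ 0) (hr : r ≠ 0) (ha1 : a + 1 ≠ 0) (ham : a - 1 ≠ 0)
    (hr1 : r - 1 ≠ 0)
    (hR3 : c ^ 2 + (a * r - 1) * (a ^ 2 + a + 1) * c - a ^ 3 * r = 0)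
    (hJ1 : c - a * r - c ^ 2 + 2 * a * c - 2 * a ^ 2 * r + a ^ 2 - a ^ 2 * r ^ 2 * c
      + a ^ 2 * r * c - a ^ 3 * r ^ 2 + a ^ 2 * c = 0)
    (hJ2 : r * c - c - r * c ^ 2 + a * r ^ 2 * c + a * r * c - a ^ 2 * r ^ 2 - a ^ 2 * r ^ 3 * c
      + a ^ 2 * r ^ 2 * c = 0)
    (hJ3 : -r + r * c + r ^ 2 * a - 2 * r * a + a + r * a * c - 2 * r * a ^ 2 + r ^ 3 * a ^ 3 = 0)
    (hZ : c * (a - (a ^ 2 + a + 1) * r ^ 2) + r ^ 4 * a * (a ^ 2 + a + 1 - r ^ 2 * a) = 0) :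
    (3 + r + 2 * r ^ 2 + 3 * r ^ 3 + c * r * (3 + 2 * r + r ^ 2 + 3 * r ^ 3) = 0) ∧
    (3 + 4 * r + 3 * r ^ 2 + 2 * r ^ 3 + 6 * r ^ 4 +
      a * r * (6 + 2 * r + 3 * r ^ 2 + 4 * r ^ 3 + 3 * r ^ 4) = 0) ∧
    (9 + 24 * r + 37 * r ^ 2 + 61 * r ^ 3 + 71 * r ^ 4 + 82 * r ^ 5 + 71 * r ^ 6 + 61 * r ^ 7
      + 37 * r ^ 8 + 24 * r ^ 9 + 9 * r ^ 10 = 0) := by
  have hC2 : c - c ^ 2 + a * c - a * r - 2 * a ^ 2 + 2 * a ^ 2 * c - a ^ 2 * r * c - a ^ 2 * r ^ 2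
    + 2 * a ^ 2 * r ^ 2 * c = 0 := by
    apply mul_left_cancel₀ ((mul_ne_zero (mul_ne_zero hr1 (pow_ne_zero 3 ha1)) (pow_ne_zero 4 hr)))
    rw [mul_zero]
    linear_combination (-2 - c - 3 * r + 2 * r * c - r ^ 2 - 4 * a * r - 4 * r ^ 3 + 4 * a * r ^ 2
      + 5 * r ^ 3 * c + 7 * r ^ 4 + a * r ^ 2 * c - 11 * a * r ^ 3 - 3 * r ^ 4 * c - 2 * r ^ 5 + 10 *
      a * r ^ 4 - r ^ 5 * c + r ^ 6 - a * r ^ 4 * c - 7 * a * r ^ 5 + 3 * a * r ^ 6 + a * r ^ 7) *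
      hR3 + (-2 - c + 2 * r * c - 4 * r ^ 2 + 2 * r ^ 3 + 5 * r ^ 3 * c + a * r ^ 2 * c - 3 * r ^ 4 *
      c + 2 * r ^ 5 - r ^ 5 * c - a * r ^ 4 * c) * hJ1 + (3 * c + 2 * a - 2 * r * c + 6 * r ^ 2 * c
      - 3 * a * r * c + 4 * a * r ^ 2 + 2 * a ^ 2 * r - 6 * r ^ 3 * c + 2 * a * r ^ 2 * c - 3 * a *
      r ^ 3 - 2 * a ^ 2 * r * c - a ^ 2 * r ^ 2 + 3 * r ^ 4 * c - 3 * a * r ^ 3 * c - a * r ^ 4 + 2 *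
      a ^ 2 * r ^ 2 * c + 3 * a ^ 2 * r ^ 3 - r ^ 5 * c + 5 * a * r ^ 4 * c - a * r ^ 5 - 3 * a ^ 2 *
      r ^ 3 * c - a ^ 2 * r ^ 4 - a * r ^ 5 * c + 3 * a ^ 2 * r ^ 4 * c - a * r ^ 6 * c) * hJ3 +
      (-1 + c + a + 2 * a * r * c - a ^ 2 * r + a ^ 2 * r * c - 2 * a ^ 2 * r ^ 2 - a ^ 2 * r ^ 3 *
      c) * hZ
  have hM2 : -3 + c + r + a - 2 * r * c - r ^ 2 - a * c - 2 * a * r + r ^ 2 * c + a * r * c + a * r ^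
    2 - 3 * a * r ^ 2 * c = 0 := by
    apply mul_left_cancel₀ ((mul_ne_zero hr1 (pow_ne_zero 2 ha)))
    rw [mul_zero]
    linear_combination (-5 - 2 * c + 5 * r - 4 * a + 2 * r * c - r ^ 2 + 2 * a * c + 3 * a * r + r ^
      2 * c + r ^ 3 - 4 * a * r * c + 5 * a * r ^ 2 * c - 3 * a * r ^ 3 * c) * hR3 + (-1 - c - 2 *
      r - 3 * a + 6 * r * c + 2 * a * c - r ^ 2 * c) * hJ1 + (-2 * c + 2 * a + r * c - a * c - r ^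
      2 * c - 2 * a * r * c) * hJ3 + (-1 - c + 2 * r - a - r * c + 2 * a * r + 2 * r ^ 2 * c - 3 *
      a * r * c - a * r ^ 2 + 2 * a ^ 2 * r + 3 * a * r ^ 2 * c - a ^ 2 * r * c - a * r ^ 3 * c + a ^
      2 * r ^ 2 * c) * hC2 + (3 - 3 * c - a * c + 2 * a * r * c + a ^ 2 * c - 2 * a * r ^ 2 * c - a ^
      2 * r * c) * hJ2
  have hM3 : 3 - c + r + r * c + r ^ 2 + a * r + r ^ 3 - a * r * c - r ^ 3 * c + a * r ^ 2 * c = 0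
    := by
    apply mul_left_cancel₀ ((mul_ne_zero ham (pow_ne_zero 2 ha)))
    rw [mul_zero]
    linear_combination (-1 - 5 * c + 3 * r - a + 3 * r * c + 2 * a * c + 2 * a ^ 2 + r ^ 2 * c + r ^
      3 - 4 * a * r * c - 2 * a ^ 2 * c - 2 * a ^ 2 * r + 2 * a * r ^ 2 * c + 2 * a ^ 2 * r * c - 3 *
      a * r ^ 3 * c - 3 * a ^ 2 * r ^ 2 * c) * hR3 + (-5 * c - 2 * r + 4 * r * c + a * c + 2 * a ^
      2 - r ^ 2 * c - 2 * a ^ 2 * c) * hJ1 + (-c - a + 3 * a * c - a ^ 2 - r ^ 2 * c - 3 * a * r *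
      c) * hJ3 + (1 + 2 * r - 2 * a + r * c + a * c + a * r + a ^ 2 + 2 * r ^ 2 * c - a * r ^ 2 - a ^
      2 * r + 2 * a * r ^ 2 * c + 2 * a ^ 2 * r * c - a ^ 3 * r - a * r ^ 3 * c + a ^ 3 * r * c) *
      hC2 + (2 - 2 * c - 4 * a * c - 2 * a * r ^ 2 * c - 3 * a ^ 2 * r * c - a ^ 3 * c) * hJ2
  have hM1 : 2 * r - 2 * a + r ^ 2 - a * c + 2 * r ^ 2 * c - 2 * a * r * c = 0 := by
    apply mul_left_cancel₀ ((mul_ne_zero (mul_ne_zero ha1 ha) (pow_ne_zero 2 hr)))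
    rw [mul_zero]
    linear_combination (-2 + 3 * c - 3 * r - a - r ^ 2 - 3 * a * r * c) * hM2 + (-2 - r - a - 3 * a *
      c + 2 * a * r - 2 * a ^ 2) * hM3 + (-2 + r - 5 * r ^ 2) * hR3 + (1 + 7 * r - r ^ 2 - r ^ 3) *
      hJ1 + (2 + 3 * c - r - r ^ 2) * hJ3 + (-3 - 3 * r * c) * hC2 + (-9 + 3 * c - r + r ^ 2) * hJ2
  have hM4 : c + 2 * r + a + r * c + r ^ 2 - a * c + a * r + 2 * r ^ 2 * c + a * r * c + 2 * a * r ^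
    2 + a * r ^ 3 = 0 := by
    apply mul_left_cancel₀ (ha)
    rw [mul_zero]
    linear_combination (a) * hM1 + (-a - a * r) * hM2 + (-a + a ^ 2) * hM3 + (1 - r) * hR3 + (1) *
      hJ1 + (-r) * hC2
  have hLc : 3 + r + 3 * r * c + 2 * r ^ 2 + 2 * r ^ 2 * c + 3 * r ^ 3 + r ^ 3 * c + 3 * r ^ 4 * c
    = 0 := by
    linear_combination (r + r ^ 2) * hM1 + (-1 - r) * hM2 + (-r) * hM3 + (1) * hM4
  have hLa : 3 + 4 * r + 3 * r ^ 2 + 6 * a * r + 2 * r ^ 3 + 2 * a * r ^ 2 + 6 * r ^ 4 + 3 * a * r ^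
    3 + 4 * a * r ^ 4 + 3 * a * r ^ 5 = 0 := by
    linear_combination (-r - r ^ 2) * hM1 + (-1 + 3 * r) * hM2 + (4 * r) * hM3 + (1 - 2 * r + 3 * r ^
      2) * hM4
  have hh : 9 + 24 * r + 37 * r ^ 2 + 61 * r ^ 3 + 71 * r ^ 4 + 82 * r ^ 5 + 71 * r ^ 6 + 61 * r ^
    7 + 37 * r ^ 8 + 24 * r ^ 9 + 9 * r ^ 10 = 0 := by
    linear_combination (3 * r + r ^ 2 + 3 * r ^ 3 + 8 * r ^ 4 + 2 * r ^ 5 + 3 * r ^ 6 + 4 * r ^ 7 +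
      3 * r ^ 8) * hM1 + (-3 - r - 6 * r ^ 2 - 10 * r ^ 3 - 4 * r ^ 5 - 3 * r ^ 6) * hM2 + (6 * r +
      2 * r ^ 2 + 9 * r ^ 3 + 14 * r ^ 4 + 9 * r ^ 5 + 8 * r ^ 6 + 6 * r ^ 7) * hM3 + (3 - 2 * r -
      r ^ 2 + 5 * r ^ 3 - 8 * r ^ 4 + 3 * r ^ 5) * hM4
  exact ⟨by linear_combination hLc, by linear_combination hLa, by linear_combination hh⟩

end Pool.Agent.Helper43.IPL
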