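import Pool.Agent.Helper43.IPL.P3E

/-!
MP_d2f54f_al (inverting pairs), piece P3: the cell `(3,5)` (scalar form), `b = a r`, `s_4 = c / r`,
`s_5 = a r^4`.
-/

namespace Pool.Agent.Helper43.IPL

variable {F : Type*} [Field F]

theorem p3_T {a r c d K L M L4 M4 X4 Y4 H24 X5 Y5 H25 G34 H34 G35 t g1 e0 m : F}
    (ha : a ≠ 0) (hr : r ≠ 0) (hc : c ≠ 0) (ht : t ≠ 0)
    (hd : r * d = c)
    (hKL : K * L = c * (c - a * r)) (hKL' : K * (1 - L) = (a * r) ^ 2 * (c * m))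
    (hKM : K * M = a * (a * r) ^ 2 * (c - a * r)) (hKM' : K * (1 - M) = c * m)
    (hL4 : L4 * (a * c * (1 - r)) = a * r ^ 5 - c) (hM4 : M4 * (r ^ 4 * (1 - r)) = a * r ^ 5 - c)
    (y4 : Y4 = d * H24) (y5 : Y5 = a * r ^ 4 * H25)
    (g34 : G34 = d * (L * X4 + (1 - L) * Y4)) (h34 : d ^ 2 * H34 = (1 - M) * X4 + M * Y4)
    (g35 : G35 = a * r ^ 4 * (L * X5 + (1 - L) * Y5))
    (u3 : G35 = L4 * (c * G34) + (1 - L4) * (c ^ 4 * H34))
    (u2 : X5 = L4 * (a * r * X4) + (1 - L4) * ((a * r) ^ 4 * H24))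
    (v2 : (a * r) ^ 5 * H25 = (1 - M4) * (a * r * X4) + M4 * ((a * r) ^ 4 * H24))
    (hX : X4 = t * (a ^ 2 * g1)) (hY : Y4 = t * e0) :
    c * ((c - a * r) * (a * r ^ 5 - c) * (a ^ 2 * r ^ 6 - c ^ 2) + r ^ 3 * c * m *
      (a * (1 - r) * (r ^ 4 - c ^ 2) - (a * r ^ 5 - c) * (a - c))) * g1 +
      r * (a ^ 2 * r ^ 5 - c ^ 2) * (a * r ^ 4 * (c - a * r) * (a * c * (1 - r) -
      (a * r ^ 5 - c)) + r * c * m * (a * r ^ 5 - c)) * e0 = 0 := by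
  obtain ⟨w, hw⟩ : ∃ w, w = a * r ^ 5 - c := ⟨_, rfl⟩
  obtain ⟨dl, hdl⟩ : ∃ w, w = c - a * r := ⟨_, rfl⟩
  rw [← hw] at hL4 hM4 ⊢
  rw [← hdl] at hKL hKM ⊢
  -- `c H24 = r Y4`
  have hH : c * H24 = r * Y4 := by rw [y4, ← hd]; ring
  -- `(1-L4) a c (1-r)` and `(1-M4) r^4 (1-r)`
  have hL4' : (1 - L4) * (a * c * (1 - r)) = a * c * (1 - r) - w := by
    linear_combination (-1 : F) * hL4
  have hM4' : (1 - M4) * (r ^ 4 * (1 - r)) = r ^ 4 * (1 - r) - w := by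
    linear_combination (-1 : F) * hM4
  have x5 : c ^ 2 * (1 - r) * X5 = r * c * w * X4 +
      (a * c * (1 - r) - w) * (a ^ 3 * r ^ 5) * Y4 := by
    apply mul_left_cancel₀ ha
    linear_combination a * c ^ 2 * (1 - r) * u2 + r * a * c * X4 * hL4 +
      (1 - L4) * (a * c * (1 - r)) * (a * r) ^ 4 * hH + (a * r) ^ 4 * (r * Y4) * hL4'
  have y5' : a ^ 3 * r ^ 4 * c * (1 - r) * Y5 = (r ^ 4 * (1 - r) - w) * c * X4 +
      w * (a ^ 3 * r ^ 4) * Y4 := by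
    apply mul_left_cancel₀ (mul_ne_zero ha hr)
    linear_combination (a * r) * (a ^ 3 * r ^ 4 * c * (1 - r)) * y5 +
      r ^ 4 * (1 - r) * c * v2 + a * r * c * X4 * hM4' +
      M4 * (r ^ 4 * (1 - r)) * (a * r) ^ 4 * hH + (a * r) ^ 4 * (r * Y4) * hM4
  -- the cell (3,5), times `K r^2`
  have c34 : K * (r * G34) = c * (c * dl * X4 + (a * r) ^ 2 * (c * m) * Y4) := by
    rw [g34]
    linear_combination K * (L * X4 + (1 - L) * Y4) * hd + c * X4 * hKL + c * Y4 * hKL'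
  have d34 : K * (c ^ 2 * H34) = r ^ 2 * (c * m * X4 + a * (a * r) ^ 2 * dl * Y4) := by
    have : c ^ 2 * H34 = r ^ 2 * (d ^ 2 * H34) := by rw [← hd]; ring
    rw [this, h34]
    linear_combination r ^ 2 * X4 * hKM' + r ^ 2 * Y4 * hKM
  have c35 : K * G35 = a * r ^ 4 * (c * dl * X5 + (a * r) ^ 2 * (c * m) * Y5) := by
    rw [g35]
    linear_combination a * r ^ 4 * X5 * hKL + a * r ^ 4 * Y5 * hKL'
  have main : a * c * (1 - r) * r * (K * G35) = w * c * (K * (r * G34)) +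
      (a * c * (1 - r) - w) * r * c ^ 2 * (K * (c ^ 2 * H34)) := by
    linear_combination (a * c * (1 - r) * r * K) * u3 + (K * r * c * G34) * hL4 +
      (K * r * c ^ 4 * H34) * hL4'
  rw [c34, d34, c35] at main
  have key : ((dl * w * (a ^ 2 * r ^ 6 - c ^ 2) + r ^ 3 * c * m *
      (a * (1 - r) * (r ^ 4 - c ^ 2) - w * (a - c))) * X4) * c +
      (a ^ 2 * r ^ 5 - c ^ 2) * (a ^ 2 * r) * (a * r ^ 4 * dl * (a * c * (1 - r) - w) +
      r * c * m * w) * Y4 = 0 := by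
    have e1 : a * c * (1 - r) * r * (a * r ^ 4 * (c * dl * X5 + (a * r) ^ 2 * (c * m) * Y5)) =
        a ^ 2 * r ^ 5 * dl * (c ^ 2 * (1 - r) * X5) +
        a * r ^ 3 * c * m * (a ^ 3 * r ^ 4 * c * (1 - r) * Y5) := by ring
    rw [e1, x5, y5'] at main
    linear_combination main
  rw [hX, hY] at key
  apply mul_left_cancel₀ (mul_ne_zero ht (pow_ne_zero 2 ha))
  linear_combination key

end Pool.Agent.Helper43.IPL
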