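import Pool.Agent.Helper43.IPL.P3Fin
import Pool.Agent.Helper43.IPL.P3Spor
import Pool.Agent.Helper43.IPL.P3T

/-!
MP_d2f54f_al (inverting pairs), piece P3 of the diagonal branch: in the O-state, `kap_1^(3) = 0` is
impossible for `m ≥ 6`.
-/

namespace Pool.Agent.Helper43.IPL

open Pool.Agent.Helper54.IP Pool.Agent.Helper16.IP

variable {F : Type*} [Field F]

/-- the contradiction at `s_5 = b ^ 4 / a ^ 3`, scalar form. -/
theorem p3_final {a b c d e K L M L4 M4 X4 H24 X5 H25 G34 H34 G35 P : F}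
    (ha : a ≠ 0) (hb : b ≠ 0) (hc : c ≠ 0) (ha1 : a + 1 ≠ 0) (ham : a - 1 ≠ 0)
    (hab : a - b ≠ 0) (hapb : a + b ≠ 0) (hP : P ≠ 0) (hTh : a ^ 3 * b + c ^ 2 ≠ 0)
    (hae : a - e ≠ 0) (hde : e - d ≠ 0)
    (hR : rr3 a b c = 0) (hJ1 : j1 a b c = 0)
    (hJ2 : b * c - a * c - b * c ^ 2 + b ^ 2 * c + a * b * c - a * b ^ 2 - b ^ 3 * c +
      a * b ^ 2 * c = 0)
    (hJ3 : -b + b * c + b ^ 2 - 2 * a * b + a ^ 2 + a * b * c - 2 * a ^ 2 * b + a * b ^ 3 = 0)
    (hZ : a ^ 2 * c * (a ^ 3 - (a ^ 2 + a + 1) * b ^ 2) +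
      b ^ 4 * (a * (a ^ 2 + a + 1) - b ^ 2) = 0)
    (hd : b * d = a * c) (he : a ^ 3 * e - b ^ 4 = 0)
    (hK : K = kk a b c) (hKL : K * L = c * (c - b)) (hKM : K * M = a * b ^ 2 * (c - b))
    (hL4 : L4 * (a * c * (b - a)) = a * c - b * e)
    (hM4 : M4 * ((b - a) * e) = a * (a * c - b * e))
    (hG : b * (a ^ 3 * b + c ^ 2) * X4 = a ^ 2 * c ^ 2 * (b - a) * gam0 a b c * P)
    (hH : (a ^ 3 * b + c ^ 2) * H24 = c * (b - a) * eps0 a b c * P)
    (g34 : G34 = d * (L * X4 + (1 - L) * (d * H24)))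
    (h34 : d ^ 2 * H34 = (1 - M) * X4 + M * (d * H24))
    (g35 : G35 = e * (L * X5 + (1 - L) * (e * H25)))
    (u3 : G35 = L4 * (c * G34) + (1 - L4) * (c ^ 4 * H34))
    (u2 : X5 = L4 * (b * X4) + (1 - L4) * (b ^ 4 * H24))
    (v2 : b ^ 5 * H25 = (1 - M4) * (b * X4) + M4 * (b ^ 4 * H24)) : False := by
  obtain ⟨r, rfl⟩ : ∃ r, b = a * r := ⟨b / a, by field_simp⟩
  have hr : r ≠ 0 := fun h => hb (by rw [h, mul_zero])
  have hee : e = a * r ^ 4 := by
    apply mul_left_cancel₀ (pow_ne_zero 3 ha)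
    linear_combination he
  subst hee
  have hrd : r * d = c := by
    apply mul_left_cancel₀ ha
    linear_combination hd
  have hr1 : r - 1 ≠ 0 := fun h => hab (by linear_combination (-a) * h)
  have hrp : r + 1 ≠ 0 := fun h => hapb (by linear_combination a * h)
  have hr2 : r ^ 2 + 1 ≠ 0 := by
    intro h
    apply hae
    linear_combination (-a * (r ^ 2 - 1)) * h
  have hw : a * r ^ 5 - c ≠ 0 := by
    intro h
    apply hde
    apply mul_left_cancel₀ hr
    linear_combination h - hrd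
  have hba : a * r - a ≠ 0 := fun h => hab (by linear_combination (-1 : F) * h)
  rw [rr3] at hR
  rw [j1] at hJ1
  have hJ2' : r * c - c - r * c ^ 2 + a * r ^ 2 * c + a * r * c - a ^ 2 * r ^ 2 - a ^ 2 * r ^ 3 * c
      + a ^ 2 * r ^ 2 * c = 0 := by
    apply mul_left_cancel₀ ha
    linear_combination hJ2
  obtain ⟨kc, ka, kh⟩ := spor (a := a) (r := r) (c := c) ha hr ha1 ham hr1
    (by linear_combination hR) (by linear_combination hJ1) hJ2'
    (by
      apply mul_left_cancel₀ ha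
      linear_combination hJ3)
    (by
      apply mul_left_cancel₀ (pow_ne_zero 4 ha)
      linear_combination hZ)
  have hne : a * r * (a ^ 3 * (a * r) + c ^ 2) ≠ 0 := mul_ne_zero hb hTh
  obtain ⟨t, ht⟩ : ∃ t, t * (a * r * (a ^ 3 * (a * r) + c ^ 2)) = a * c ^ 2 * (a * r - a) * P :=
    ⟨a * c ^ 2 * (a * r - a) * P / (a * r * (a ^ 3 * (a * r) + c ^ 2)), div_mul_cancel₀ _ hne⟩
  have ht0 : t ≠ 0 := by
    intro h
    rw [h, zero_mul] at ht
    exact mul_ne_zero (mul_ne_zero (mul_ne_zero ha (pow_ne_zero 2 hc)) hba) hP ht.symm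
  have hX : X4 = t * (a ^ 2 * ((a + 1) * (a ^ 2 + 1) * a * r ^ 2 - a ^ 2 * (a + 1) * r +
      (a * r - 1) * c)) := by
    apply mul_left_cancel₀ hne
    rw [gam0] at hG
    linear_combination hG - a ^ 2 * ((a + 1) * (a ^ 2 + 1) * a * r ^ 2 - a ^ 2 * (a + 1) * r +
      (a * r - 1) * c) * ht
  have hY : d * H24 = t * ((a + 1) * (a ^ 2 + 1 - a * r) * c - a ^ 3 * r * (a * r - 1)) := by
    apply mul_left_cancel₀ hne
    rw [eps0] at hH
    linear_combination (a * r * d) * hH + c * (a * r - a) * P * ((a + 1) * (a ^ 2 + 1 - a * r) * c -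
      a ^ 2 * (a * r) * (a * r - 1)) * hd -
      ((a + 1) * (a ^ 2 + 1 - a * r) * c - a ^ 3 * r * (a * r - 1)) * ht
  have T := p3_T (a := a) (r := r) (c := c) (d := d) (K := K) (L := L) (M := M) (L4 := L4)
    (M4 := M4) (X4 := X4) (Y4 := d * H24) (H24 := H24) (X5 := X5) (Y5 := a * r ^ 4 * H25)
    (H25 := H25) (G34 := G34) (H34 := H34) (G35 := G35) (t := t)
    (m := c + a ^ 2 * r ^ 2 - a * (a + 1) * r) ha hr hc ht0 hrd hKL
    (by
      have e1 : K * (1 - L) = kk a (a * r) c - c * (c - a * r) := by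
        linear_combination hK - hKL
      rw [e1, kk]
      linear_combination (a ^ 2 * r) * hJ2')
    hKM
    (by
      have e1 : K * (1 - M) = kk a (a * r) c - a * (a * r) ^ 2 * (c - a * r) := by
        linear_combination hK - hKM
      rw [e1, kk]
      ring)
    (by
      apply mul_left_cancel₀ ha
      linear_combination (-1 : F) * hL4)
    (by
      apply mul_left_cancel₀ (pow_ne_zero 2 ha)
      linear_combination (-1 : F) * hM4)
    rfl rfl g34 h34 g35 u3 u2 v2 hX hY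
  exact spor_dead hr hrp hr1 hr2 hw kc ka kh rfl rfl rfl rfl rfl rfl T

variable {m : ℕ}

theorem p3_dead (g : GForm F m) (hm : 6 ≤ m) (hD : g.G 1 1 ≠ g.H 1 1) (h1 : g.t 1 = g.s 1)
    (h2 : g.t 2 = g.s 2) (hk : g.kap 1 2 ≠ 0) (hbn : g.t 2 ≠ -g.t 1)
    (h3 : g.s 3 ≠ g.t 1 * g.t 2) (h33 : g.t 3 = g.s 3)
    (hL : LL (g.t 1) (g.t 2) (g.s 3) (1 - g.lam' 0) (g.mu' 0) = 0)
    (hT : TT (g.t 1) (g.t 2) (g.s 3) (1 - g.lam' 0) (g.mu' 0) = 0) (hk3 : g.kap 1 3 = 0) :
    False := by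
  have ha := g.t_ne 1 (by omega)
  have hb := g.t_ne 2 (by omega)
  have hc := g.s_ne 3 (by omega)
  have hd0 := g.s_ne 4 (by omega)
  have he0 := g.s_ne 5 (by omega)
  have ham := t1_sub g (by omega)
  have hbm := t2_sub g (by omega)
  have hab : g.t 1 - g.t 2 ≠ 0 := sub_ne_zero.2 (g.t_inj 1 2 (by omega) (by omega))
  have hba : g.t 2 - g.t 1 ≠ 0 := sub_ne_zero.2 (g.t_inj 1 2 (by omega) (by omega)).symm
  have hcb : g.s 3 - g.t 2 ≠ 0 := by
    rw [h2]; exact sub_ne_zero.2 (g.s_inj 2 3 (by omega) (by omega)).symm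
  have hca : g.s 3 - g.t 1 ≠ 0 := by
    rw [h1]; exact sub_ne_zero.2 (g.s_inj 1 3 (by omega) (by omega)).symm
  have hc1 : g.s 3 - 1 ≠ 0 := by
    have := g.s_inj 0 3 (by omega) (by omega)
    rw [g.s0] at this
    exact sub_ne_zero.2 this.symm
  have hae : g.t 1 - g.s 5 ≠ 0 := by
    rw [h1]; exact sub_ne_zero.2 (g.s_inj 1 5 (by omega) (by omega))
  have hed : g.s 5 - g.s 4 ≠ 0 := sub_ne_zero.2 (g.s_inj 4 5 (by omega) (by omega)).symm
  have habc : g.t 1 * g.t 2 - g.s 3 ≠ 0 := sub_ne_zero.2 (fun h => h3 h.symm)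
  have hapb : g.t 1 + g.t 2 ≠ 0 := fun h => hbn (by linear_combination h)
  obtain ⟨P, hP, ip, ix, iq, iy, hR⟩ := p3_base g (by omega) h1 h2 hL hT hk3
  have ip' : 1 - (1 - g.lam' 0) = g.t 1 ^ 3 * g.s 3 * (g.t 2 - 1) * P := by rw [← ip]; ring
  have hax := axy_ne g (by omega) hD h1
  have hal0 := al_ne g (by omega)
  have hal := p3_al ham hP ix iy iq (al_eq g (by omega) h1)
  have hde : g.t 2 * g.mu' 1 = g.t 1 ^ 2 * g.s 3 * (1 - g.lam' 1) := by
    have q1 := al_eq g (by omega) h1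
    have q2 := de_eq g (by omega) h1
    have hL' := hL
    rw [LL] at hL'
    apply mul_right_cancel₀ (mul_ne_zero ham hax)
    linear_combination q2 - g.t 1 ^ 2 * g.s 3 * q1 - g.t 1 * hL'
  have hTh : g.t 1 ^ 3 * g.t 2 + g.s 3 ^ 2 ≠ 0 := by
    intro h
    apply hax
    linear_combination g.t 1 * ix + iy - (g.t 1 - 1) * P * h
  have hS : g.t 1 ^ 2 * g.t 2 + g.s 3 ≠ 0 := by
    intro h
    rw [h, mul_zero] at hal
    exact mul_ne_zero hal0 (mul_ne_zero ham hTh) hal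
  have ha1 : g.t 1 + 1 ≠ 0 := by
    intro h
    have e : g.t 1 = -1 := by linear_combination h
    have hR' := hR
    rw [rr3, e] at hR'
    rw [e] at hS
    apply hS
    have e2 : (g.s 3 - 1) * (g.s 3 + g.t 2) = 0 := by linear_combination hR'
    linear_combination (mul_eq_zero.1 e2).resolve_left hc1
  -- the rows
  have r12 := g.row1G (k := 2) (by omega) (by omega)
  have q12 := g.row1H (k := 2) (by omega) (by omega)
  have r13 := g.row1G (k := 3) (by omega) (by omega)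
  have r14 := g.row1G (k := 4) (by omega) (by omega)
  have r15 := g.row1G (k := 5) (by omega) (by omega)
  have q15 := g.row1H (k := 5) (by omega) (by omega)
  have r23 := g.row2G (k := 3) (by omega) (by omega)
  have q23 := g.row2H (k := 3) (by omega) (by omega)
  have r24 := g.row2G (k := 4) (by omega) (by omega)
  have q24 := g.row2H (k := 4) (by omega) (by omega)
  have r25 := g.row2G (k := 5) (by omega) (by omega)
  have q25 := g.row2H (k := 5) (by omega) (by omega)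
  have u12 := g.U1 1 2 (by omega) (by omega)
  have v12 := g.U2 1 2 (by omega) (by omega)
  have u14 := g.U1 1 4 (by omega) (by omega)
  have v14 := g.U2 1 4 (by omega) (by omega)
  have u23 := g.U1 2 3 (by omega) (by omega)
  have u24 := g.U1 2 4 (by omega) (by omega)
  have v24 := g.U2 2 4 (by omega) (by omega)
  have u34 := g.U1 3 4 (by omega) (by omega)
  have w24 := g.V1 2 4 (by omega) (by omega)
  have z24 := g.V2 2 4 (by omega) (by omega)
  have w25 := g.V1 2 5 (by omega) (by omega)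
  have u4 := g.G_succ (j := 1) (k := 3) (by omega) (by omega)
  have v4 := g.H_succ (j := 1) (k := 3) (by omega) (by omega)
  simp only [Nat.reduceAdd] at u12 v12 u14 v14 u23 u24 v24 u34 w24 z24 w25 u4 v4
  rw [hk3, mul_zero, sub_zero] at u4 v4
  have hk3' : g.t 1 ^ 2 * g.H 1 3 = g.G 1 3 := by
    rw [GForm.kap] at hk3
    apply mul_left_cancel₀ ha
    linear_combination -hk3
  rw [← h2] at r12 q12
  rw [h33] at u34
  have l2 := lam2 g (by omega) h1 h2 h33 hk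
  have m2 := mu2 g (by omega) h1 h2 h33 hk
  have e13 := p3_g13 ip' ix (G13 := g.G 1 3) (by rw [r13]; ring)
  have hd := p3_s4 (d := g.s 4) (G13 := g.G 1 3) (G14 := g.G 1 4) ha ham hP ip' ix
    (by rw [r13]; ring) (by rw [r14]; ring) u4
  have e14 : g.G 1 4 = g.t 1 ^ 3 * g.s 3 * (g.t 2 - g.t 1) * P := by
    linear_combination u4 + g.t 1 * e13
  have f14 : g.t 1 * g.H 1 4 = g.s 3 * (g.t 2 - g.t 1) * P := by
    apply mul_left_cancel₀ (pow_ne_zero 3 ha)
    linear_combination v4 + g.t 1 * e13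
  obtain ⟨kL, kM⟩ := p3_KL (L := 1 - g.lam' 2) (M := g.mu' 2) (G12 := g.G 1 2) (H12 := g.H 1 2)
    (G13 := g.G 1 3) (H13 := g.H 1 3) ha ham hP ip' ix iq iy (by rw [r12]; ring) q12
    (by rw [r13]; ring) hk3' (by rw [u12, l2]; ring) (by rw [v12, m2])
  have hL3 := p3_L3 (d := g.s 4) (L3 := 1 - g.lam 3) (G13 := g.G 1 3) (H13 := g.H 1 3)
    (G14 := g.G 1 4) (H14 := g.H 1 4) (G23 := g.G 2 3) (H23 := g.H 2 3) (G24 := g.G 2 4) ha hb hc
    ham hbm hba hP hR hde hal e13 hk3' hd u4 v4 (by rw [r23]; ring) q23 (by rw [r24]; ring)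
    (by rw [u23]; ring)
  have hL30 : 1 - g.lam 3 ≠ 0 := sub_ne_zero.2 (g.lam_ne 3 (by omega)).symm
  have hq3 : q3 (g.t 1) (g.t 2) (g.s 3) ≠ 0 := by
    rw [← hL3]
    exact mul_ne_zero hL30 (mul_ne_zero (mul_ne_zero (pow_ne_zero 2 hb) hcb)
      (fun h => habc (by linear_combination (-1 : F) * h)))
  obtain ⟨hJ, hDb⟩ := p3_J1 ha hb hc ha1 hab hapb hcb habc hca hR hd kL kM hL3
    (cell34 g (by omega) hD h1 h2 h33)
  obtain ⟨hJ2, hJ3⟩ := p3_J23 hDb hR hJ
  have hb2 := p3_ba2 ha ha1 ham hca hR hJ hq3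
  obtain ⟨kG, kH⟩ := p3_col4 (d := g.s 4) (G14 := g.G 1 4) (H14 := g.H 1 4) (G24 := g.G 2 4)
    (H24 := g.H 2 4) ha hb hc ham hR hde hal hd e14 f14 (by rw [r24]; ring) q24
  obtain ⟨e15, f15, kL4, kM4⟩ := p3_LM4 (e := g.s 5) (L := 1 - g.lam 4) (M := g.mu 4)
    (G14 := g.G 1 4) (H14 := g.H 1 4) (G15 := g.G 1 5) (H15 := g.H 1 5) ha hc ham hP ip' ix iq iy
    e14 f14 (by rw [r15]; ring) q15 (by rw [u14]; ring) v14
  have hbe : g.t 1 * g.s 3 - g.t 2 * g.s 5 ≠ 0 := by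
    rw [← hd]
    intro h
    apply mul_ne_zero hb hed
    linear_combination (-1 : F) * h
  obtain ⟨kq, kE⟩ := p3_E (e := g.s 5) (L := 1 - g.lam 4) (M := g.mu 4) (G15 := g.G 1 5)
    (H15 := g.H 1 5) (G24 := g.G 2 4) (H24 := g.H 2 4) (G25 := g.G 2 5) (H25 := g.H 2 5)
    ha hb hc ham hbm hS hP hbe hR hde hal kG kH e15 f15 kL4 kM4 (by rw [r25]; ring) q25
    (by rw [u24]; ring) v24
  rcases mul_eq_zero.1 kE with h | h
  · -- closed column 5
    have he : g.s 5 = -(g.t 1 * g.s 3) := by linear_combination h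
    have k5 : g.t 1 ^ 4 * g.H 1 5 = g.G 1 5 := by
      apply mul_left_cancel₀ he0
      rw [e15, show g.s 5 * (g.t 1 ^ 4 * g.H 1 5) = g.t 1 ^ 4 * (g.s 5 * g.H 1 5) by ring, f15, he]
      ring
    have r16 := g.row1G (k := 6) (by omega) (by omega)
    have q16 := g.row1H (k := 6) (by omega) (by omega)
    have u6 := g.U1 1 5 (by omega) (by omega)
    have v6 := g.U2 1 5 (by omega) (by omega)
    simp only [Nat.reduceAdd] at u6 v6
    have hss : g.s 6 - g.s 5 ≠ 0 := sub_ne_zero.2 (g.s_inj 5 6 (by omega) (by omega)).symm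
    have cl := closed_row1 (a := g.t 1) (x := 1 - g.lam' 0) (y := g.mu' 0) (s := g.s 5)
      (σ := g.s 6) (g := g.G 1 5) (Z := g.t 1 ^ 4) ham hss
      (by rw [r15]; ring) (by linear_combination (-g.t 1 ^ 4) * q15 + g.s 5 * k5)
      (by linear_combination (-1 : F) * r16 + u6 + g.lam 5 * g.t 1 * k5)
      (by
        apply mul_left_cancel₀ ha
        linear_combination (-g.t 1 ^ 6) * q16 + g.s 6 * v6 + g.s 6 * g.mu 5 * g.t 1 * k5)
    have e := cl.1
    rw [ip', iq] at e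
    apply mul_ne_zero (mul_ne_zero (mul_ne_zero (mul_ne_zero (pow_ne_zero 3 ha) hc) hbm) hP)
      (mul_ne_zero ham ha1)
    linear_combination (-1 : F) * e
  · have kZ := p3_Z ha hb hc ham hbm hab hb2 h kq
    refine p3_final (a := g.t 1) (b := g.t 2) (c := g.s 3) (d := g.s 4) (e := g.s 5)
      (K := kk (g.t 1) (g.t 2) (g.s 3)) (L := 1 - g.lam' 2) (M := g.mu' 2) (L4 := 1 - g.lam 4)
      (M4 := g.mu 4) (X4 := g.G 2 4) (H24 := g.H 2 4) (X5 := g.G 2 5) (H25 := g.H 2 5)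
      (G34 := g.G 3 4) (H34 := g.H 3 4) (G35 := g.G 3 5) (P := P) ha hb hc ha1 ham hab hapb hP hTh
      hae hed hR hJ hJ2 hJ3 kZ hd h rfl kL kM kL4 kM4 kG kH (by rw [w24]; ring) ?_
      (by rw [w25]; ring) (by rw [u34]; ring) (by rw [u24]; ring) v24
    apply mul_left_cancel₀ hd0
    linear_combination z24

end Pool.Agent.Helper43.IPL
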