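import Pool.Agent.Helper16.IP.DBranch3
import Pool.Agent.Helper43.IPL.P3

/-!
MP_d2f54f_al (inverting pairs): the diagonal branch.
-/

namespace Pool.Agent.Helper43.IPL

open Pool.Agent.Helper54.IP Pool.Agent.Helper16.IP

variable {F : Type*} [Field F] {m : ℕ}

theorem d_branch (g : GForm F m) (hm : 6 ≤ m) (hD : g.G 1 1 ≠ g.H 1 1) (h1 : g.t 1 = g.s 1)
    (h2 : g.t 2 = g.s 2) (hk : g.kap 1 2 ≠ 0) :
    g.t 2 = g.t 1 ^ 2 ∧ (g.s 3 = g.t 1 ^ 3 ∨ g.t 3 = g.t 1 ^ 3) :=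
  d_branch_of3 (fun g hD h1 h2 hk hb h3 h33 hL hT hk3 =>
    p3_dead g hm hD h1 h2 hk hb h3 h33 hL hT hk3) g hm hD h1 h2 hk

end Pool.Agent.Helper43.IPL
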