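import Pool.Agent.Helper43.IPL.K21F54
import Pool.Agent.Helper85.IP.K2LeafOf

/-!
TH-P, K2-1, letter 0, the case `t^2 u S = v^2`: the characteristic is 953, the point is explicit,
and then `F54` is not zero.
-/

namespace Pool.Agent.Helper43.IPL

open Pool.Agent.Helper76.IP
open Pool.Agent.Helper27.IP
open Pool.Agent.Helper85.IP

variable {F : Type*} [Field F]

private theorem cancel {a b : F} (ha : a ≠ 0) (h : a * b = 0) : b = 0 :=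
  (mul_eq_zero.1 h).resolve_left ha

/-- `t^2 u S = v^2` forces characteristic 953. -/
theorem k21_b953 {t v u S : F} (h2 : (2 : F) ≠ 0) (h3 : (3 : F) ≠ 0)
    (hSv : S - v ≠ 0) (hutv : u - t * v ≠ 0) (hv : v ≠ 0)
    (R : S*(t+v+1)-(t*v+t+v) = 0)
    (C1 : (S+t*v)*(u^2+t*S)-t*S*(1+u)*(1+u*v) = 0)
    (C2 : u^2*(S^2-v*S+v^2*S-t*v^2)-t*S^2*u+t*S*(v+t*v-S) = 0)
    (C3 : v*(u^2-t)*(S+t)-(u*v-t)*(u*v+t*S) = 0)
    (C4 : u^2*v*(S+t*S-t*v)-t*v^2*u+t*(t*v^2-t*v*S+t*S-S^2) = 0)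
    (F1 : u^2*(v*S-t*S+t*v)+u*v*(S^2-S-t-t^2)+t*S*(S-v+t) = 0)
    (D1 : u*(v*S^2-v^2*S-t*v+t^2-t^2*S+t^2*v*S)+(v*S-v^2*S+v^2*S^2-t*v*S^2-t^2*S+t^2*v) = 0)
    (B : t ^ 2 * u * S - v ^ 2 = 0) :
    (953 : F) = 0 := by
  refine cancel (mul_ne_zero (mul_ne_zero h2 (pow_ne_zero 2 h3)) (mul_ne_zero (mul_ne_zero hSv hutv) hv)) ?_
  linear_combination (12978 * v * u + 24773 * v ^ 2 + 15686 * t * S - 7260 * t * v + 39530 * v * u *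
    S + 15654 * v * u ^ 2 - 5336 * v ^ 2 * S + 27123 * v ^ 2 * u + 3956 * v ^ 3 - 12996 * t * S ^ 2
    - 13503 * t * u * S - 1542 * t * u ^ 2 + 10322 * t * v * S + 4696 * t * v * u - 22548 * t * v ^
    2 - 27498 * t ^ 2 * S - 8190 * t ^ 2 * u + 13362 * t ^ 2 * v - 7201 * u ^ 2 * S ^ 2 + 8480 * u ^
    3 * S - 6935 * v * u * S ^ 2 - 8166 * v ^ 2 * u * S - 2198 * v ^ 3 * S + 5998 * v ^ 3 * u -
    1549 * t * S ^ 3 + 824 * t * u ^ 3 - 22267 * t * v * u * S - 16023 * t ^ 2 * S ^ 2 - 564 * t ^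
    2 * u ^ 2 - 13246 * t ^ 2 * v * S + 1002 * t ^ 3 * u) * R + (6538 * S - 39216 * v - 4176 * t +
    1549 * S ^ 2 - 5373 * v * S + 8065 * v * u + 2966 * t * u - 673 * t * v + 11500 * t ^ 2 - 23091 *
    u * S ^ 2 - 168 * u ^ 2 * S - 8825 * v * S ^ 2 + 4788 * v * u ^ 2 + 10168 * v ^ 2 * u + 2529 *
    v ^ 3 - 4396 * t * S ^ 2 + 19682 * t * v * S + 5167 * t * v * u + 9721 * t * v ^ 2 + 3017 * t ^
    2 * S - 4438 * t ^ 2 * u + 10390 * t ^ 2 * v + 3112 * t ^ 3) * C1 + (-6538 + 5652 * S - 8480 *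
    u - 1833 * v - 4323 * t + 23091 * u * S + 168 * u ^ 2 - 140 * v * S + 10557 * v * u + 8196 * v ^
    2 + 9315 * t * S + 15015 * t * u - 1912 * t * v - 7038 * t ^ 2 + 3781 * v * u * S - 2338 * v *
    u ^ 2 - 6119 * v ^ 2 * u + 1549 * t * u * S + 2394 * t * u ^ 2 - 12415 * t * v * S - 10579 * t *
    v * u - 17803 * t ^ 2 * S + 4462 * t ^ 2 * u - 3112 * t ^ 3) * C2 + (7260 + 6338 * u + 20862 *
    v - 21552 * t + 12054 * S ^ 2 - 34165 * u * S - 22735 * v * S + 1774 * v * u + 7893 * t * S +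
    8341 * t * u - 3975 * t * v + 1002 * t ^ 2 + 7494 * S ^ 3 - 3269 * u * S ^ 2 + 106 * v * S ^ 2
    + 36061 * v * u * S - 5212 * t * S ^ 2 + 23476 * t * u * S + 6338 * t * u ^ 2 - 1043 * t * v *
    u - 3767 * t * v ^ 2 - 5012 * t ^ 2 * u - 898 * t ^ 2 * v - 6119 * v ^ 2 * u * S - 1437 * t * u *
    S ^ 2 - 24528 * t * v * u * S + 4280 * t * v * u ^ 2 + 10217 * t * v ^ 2 * u + 6296 * t ^ 2 * v *
    S - 88 * t ^ 2 * v * u) * C3 + (9968 + 2319 * S - 9713 * u - 18560 * v + 8496 * t + 16294 * u *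
    S - 4620 * u ^ 2 + 4860 * v * S + 10847 * v * u - 1900 * v ^ 2 - 21238 * t * S + 17635 * t * u
    - 3767 * t * v - 7194 * t ^ 2 - 21542 * u * S ^ 2 - 56 * u ^ 2 * S - 8825 * v * S ^ 2 + 396 * v *
    u ^ 2 - 2529 * v ^ 2 * S - 4098 * v ^ 2 * u - 22386 * t * u * S + 1886 * t * u ^ 2 - 9721 * t *
    v * S + 18546 * t * v * u - 4094 * t ^ 2 * S - 1438 * t ^ 2 * u) * C4 + (-5718 + 15978 * S -
    4690 * u - 22526 * v - 11132 * t + 23495 * u * S + 24769 * v * S - 40107 * v * u + 3504 * v ^ 2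
    - 903 * t * S - 10265 * t * u + 853 * t * v + 10306 * t ^ 2 + 1549 * u * S ^ 2 + 2394 * u ^ 2 *
    S + 9043 * v * S ^ 2 - 19638 * v * u * S - 2902 * v * u ^ 2 - 678 * v ^ 2 * S + 12927 * v ^ 2 *
    u - 4098 * v ^ 3 - 1549 * t * S ^ 2 + 3637 * t * u * S - 6338 * t * u ^ 2 - 21186 * t * v * S +
    18218 * t * v * u + 8329 * t * v ^ 2 - 2130 * t ^ 2 * S + 3112 * t ^ 2 * u - 1350 * t ^ 2 * v +
    2338 * v ^ 2 * u ^ 2 - 112 * t * u ^ 2 * S + 4396 * t ^ 2 * v * S + 3112 * t ^ 2 * v * u) * F1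
    + (-1542 * u + 898 * v - 8190 * t - 17834 * u * S + 824 * u ^ 2 + 10070 * v * u - 2198 * v ^ 2
    + 7298 * t * S - 564 * t * u + 891 * t * v + 1002 * t ^ 2 - 9043 * u * S ^ 2 + 17087 * u ^ 2 *
    S + 678 * v * u * S - 12894 * v * u ^ 2 + 4098 * v ^ 2 * u + 13145 * t * u * S - 19175 * t * v *
    u + 6296 * t ^ 2 * v) * D1 + (25671 * S + 4176 * u - 24773 * v - 17513 * t - 5336 * S ^ 2 +
    34709 * u * S - 22914 * u ^ 2 + 30969 * v * S - 27123 * v * u - 3956 * v ^ 2 + 16045 * t * S -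
    12275 * t * u - 23335 * t * v + 6450 * t ^ 2 + 8872 * u * S ^ 2 + 18656 * u ^ 2 * S - 6338 * u ^
    3 - 6636 * v * S ^ 2 + 30913 * v * u * S - 20862 * v * u ^ 2 + 8352 * v ^ 2 * S - 5998 * v ^ 2 *
    u - 16366 * t * S ^ 2 + 18701 * t * u * S + 3112 * t * u ^ 2 - 9786 * t * v * S - 15867 * t * v *
    u - 3956 * t * v ^ 2 - 3112 * t ^ 2 * S + 1790 * t ^ 2 * v - 112 * u ^ 3 * S + 3210 * v * u * S ^
    2 + 6736 * v * u ^ 2 * S - 1774 * v * u ^ 3 - 4396 * v ^ 2 * S ^ 2 + 8196 * v ^ 2 * u * S -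
    1638 * t * v * u * S + 6296 * t * v ^ 2 * S + 3112 * t ^ 2 * v * u - 1900 * t ^ 2 * v ^ 2) * B

/-- the point in characteristic 953. -/
theorem k21_bpt {t v u S : F} (hp : (953 : F) = 0)
    (hStv : S - v * t ≠ 0) (hutv : u - t * v ≠ 0) (hv : v ≠ 0) (hu : u ≠ 0) (hvt : v + t ≠ 0) (hS :
      S ≠ 0)
    (R : S*(t+v+1)-(t*v+t+v) = 0)
    (C1 : (S+t*v)*(u^2+t*S)-t*S*(1+u)*(1+u*v) = 0)
    (C2 : u^2*(S^2-v*S+v^2*S-t*v^2)-t*S^2*u+t*S*(v+t*v-S) = 0)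
    (C3 : v*(u^2-t)*(S+t)-(u*v-t)*(u*v+t*S) = 0)
    (C4 : u^2*v*(S+t*S-t*v)-t*v^2*u+t*(t*v^2-t*v*S+t*S-S^2) = 0)
    (F1 : u^2*(v*S-t*S+t*v)+u*v*(S^2-S-t-t^2)+t*S*(S-v+t) = 0)
    (D1 : u*(v*S^2-v^2*S-t*v+t^2-t^2*S+t^2*v*S)+(v*S-v^2*S+v^2*S^2-t*v*S^2-t^2*S+t^2*v) = 0)
    (B : t ^ 2 * u * S - v ^ 2 = 0) :
    t ^ 2 - (-96) * t - (-1) = 0 ∧ v = 475 - 337 * t ∧ u = -108 - 6 * t ∧ S = 161 + 92 * t := by
  have lS : (-161 + S - 92 * t) = 0 := by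
    refine cancel (mul_ne_zero (mul_ne_zero hStv hutv) hv) ?_
    linear_combination (-40 * v * S - 213 * v * u + 420 * v ^ 2 - 64 * t * S - 476 * t * v + 322 *
      u ^ 2 * S + 406 * v * u * S + 392 * v * u ^ 2 + 391 * v ^ 2 * S + 416 * v ^ 2 * u + 367 * v ^
      3 + 338 * t * S ^ 2 + 176 * t * u * S - 212 * t * u ^ 2 + 387 * t * v * S - 451 * t * v ^ 2 -
      201 * t ^ 2 * S - 450 * t ^ 2 * u - 466 * t ^ 2 * v + 78 * u ^ 2 * S ^ 2 - 383 * u ^ 3 * S -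
      364 * v * u * S ^ 2 - 354 * v * u ^ 2 * S + 146 * v * u ^ 3 - 40 * v ^ 2 * S ^ 2 - 57 * v ^ 3 *
      S + 57 * v ^ 3 * u - 18 * t * v ^ 2 * u - 57 * t * v ^ 3 - 138 * t ^ 2 * S ^ 2 + 249 * t ^ 2 *
      u ^ 2 + 421 * t ^ 3 * u) * R + (213 * S + 337 * v + 270 * t + 351 * v * u + 337 * v ^ 2 - 203 *
      t * S - 188 * t * u + 190 * t * v - 129 * t ^ 2 - 74 * u ^ 2 * S + v * u * S - 238 * v * u ^
      2 - 259 * v ^ 2 * u + 233 * t * v * u + 139 * t ^ 2 * S + 37 * t ^ 2 * u - 182 * t ^ 2 * v -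
      t ^ 3) * C1 + (418 - 78 * S + 383 * u + 309 * v + 25 * t + 74 * u ^ 2 - 204 * v * S + 13 * v *
      u + 38 * v ^ 2 + 21 * t * S + 315 * t * u + 257 * t * v - 206 * t ^ 2 + 25 * v * u * S + 25 *
      v * u ^ 2 - 25 * t * u ^ 2 + 29 * t * v * u + 43 * t ^ 2 * S - 73 * t ^ 2 * u + t ^ 3) * C2 +
      (476 - 98 * S - 49 * u - 319 * v + 16 * t + 11 * S ^ 2 + 402 * u * S - 84 * v * S - 282 * v *
      u - 112 * v ^ 2 - 296 * t * u - 239 * t * v + 421 * t ^ 2 - 399 * u * S ^ 2 + 371 * v * S ^ 2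
      + 38 * v ^ 2 * S + 404 * t * S ^ 2 + 5 * t * u * S + 97 * t * u ^ 2 + 462 * t * v * S + 382 *
      t * v * u + 19 * t * v ^ 2 - 133 * t ^ 2 * u + 287 * t ^ 2 * v - 74 * t * u ^ 2 * S - 233 * t *
      v * u ^ 2) * C3 + (-6 + 310 * u - 116 * v + 94 * t + 10 * u * S + 312 * u ^ 2 - 321 * v * S -
      128 * v * u - 57 * v ^ 2 - 405 * t * S - t * u - 73 * t * v + 287 * t ^ 2 + 263 * v * u * S +
      183 * v * u ^ 2 - 197 * t * u * S - 470 * t * u ^ 2 - 4 * t * v * u + 182 * t ^ 2 * S + 334 *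
      t ^ 2 * u) * C4 + (-264 + 324 * S + 195 * u - 194 * v + 63 * t - 68 * u * S + 141 * v * S +
      323 * v * u - 14 * v ^ 2 - 392 * t * S - 432 * t * u + 278 * t * v - 288 * t ^ 2 - 25 * u ^ 2 *
      S + 225 * v * u * S - 232 * v * u ^ 2 + 42 * v ^ 2 * S - 269 * v ^ 2 * u - 128 * t * u * S -
      97 * t * u ^ 2 - 373 * t * v * S - 212 * t * v * u - 4 * t * v ^ 2 - 180 * t ^ 2 * S - t ^ 2 *
      u + 334 * t ^ 2 * v - 25 * v ^ 2 * u ^ 2 - 262 * t * v * u ^ 2 + t ^ 2 * u * S - t ^ 2 * v *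
      u) * F1 + (40 * S - 212 * u - v - 450 * t + 183 * u * S + 40 * v * S - 4 * v * u + 57 * v ^ 2
      + 409 * t * S + 249 * t * u + 154 * t * v + 421 * t ^ 2 + 399 * u ^ 2 * S - 42 * v * u * S -
      231 * v * u ^ 2 - 251 * t * u * S + 42 * t * v * u) * D1 + (459 * S + 213 * u - 420 * v + 56 *
      t + 351 * S ^ 2 + 199 * u * S + 85 * u ^ 2 + 454 * v * S - 416 * v * u - 367 * v ^ 2 - 317 *
      t * S + 471 * t * u - 336 * t * v - 201 * t ^ 2 - 43 * u * S ^ 2 + 319 * u ^ 2 * S - 97 * u ^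
      3 + 333 * v * S ^ 2 - 461 * v * u * S + 319 * v * u ^ 2 + 367 * v ^ 2 * S - 57 * v ^ 2 * u +
      42 * t * S ^ 2 - 431 * t * u * S - t * u ^ 2 - 465 * t * v * S + 459 * t * v * u - 310 * t *
      v ^ 2 - 231 * t ^ 2 * v - v * u * S ^ 2 - 277 * v * u ^ 2 * S + 282 * v * u ^ 3 + 112 * v ^ 2 *
      u ^ 2 + t * u ^ 2 * S + 208 * t * v * u * S - 299 * t * v * u ^ 2) * B - (-t * S ^ 2 - t * v *
      S + t * v * u + u ^ 2 * S ^ 2 - v ^ 2 * u ^ 2 + t * S ^ 3 - t * u * S ^ 2 - 2 * t * v * u * S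
      - t * v ^ 2 * u - t ^ 2 * v * S + t ^ 2 * v * u + 2 * t ^ 2 * v ^ 2 + t ^ 3 * S + v * u ^ 2 *
      S ^ 2 + v * u ^ 3 * S + v ^ 3 * u * S - t * u ^ 2 * S ^ 2 + t * v * S ^ 3 + t * v * u * S ^ 2
      + 2 * t * v * u ^ 2 * S - 2 * t * v ^ 2 * u ^ 2 - t * v ^ 3 * u + t ^ 2 * u ^ 2 * S + t ^ 2 *
      v * S ^ 2 - t ^ 2 * v * u * S - t ^ 2 * v ^ 2 * S + t ^ 2 * v ^ 3 - 2 * t ^ 3 * S ^ 2 + t ^ 3 *
      v * u + t ^ 3 * v ^ 2 - v ^ 2 * u ^ 2 * S ^ 2 + v ^ 3 * u ^ 2 * S - 3 * t * v * u ^ 2 * S ^ 2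
      + t * v ^ 2 * u * S ^ 2 + t * v ^ 3 * u ^ 2 + t ^ 2 * u ^ 3 * S - t ^ 2 * v * S ^ 3 + 2 * t ^
      2 * v * u * S ^ 2 - t ^ 2 * v * u ^ 3 - t ^ 3 * u * S ^ 2 - t ^ 3 * v ^ 2 * S - t ^ 3 * v ^ 2 *
      u + v ^ 2 * u ^ 2 * S ^ 3 - v ^ 3 * u ^ 2 * S ^ 2 - t * v * u ^ 3 * S ^ 2 - t * v ^ 2 * u * S ^
      3 + t * v ^ 2 * u ^ 3 * S - t * v ^ 2 * u ^ 4 - t * v ^ 3 * u ^ 3 + t ^ 2 * v * u ^ 3 * S + t ^
      2 * v ^ 2 * u ^ 3 + t ^ 3 * v * u ^ 2 * S) * hp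
  have lv : (-475 + v + 337 * t) = 0 := by
    refine cancel (mul_ne_zero hu hvt) ?_
    linear_combination (469 * S + 475 * u - 201 * v + 201 * t + 370 * S ^ 2 + 189 * u * S + 119 * v *
      S + 140 * v * u + 193 * v ^ 2 + 310 * t * S + 46 * t * u - 388 * t * v + 251 * t ^ 2 - 273 *
      u * S ^ 2 + 311 * u ^ 2 * S + 100 * v * S ^ 2 + 65 * v * u * S - 101 * v * u ^ 2 - 388 * v ^
      2 * u - 195 * t * S ^ 2 - 205 * t * u ^ 2 + 262 * t * v * S + 351 * t * v * u + 377 * t * v ^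
      2 - 186 * t ^ 2 * S - 15 * t ^ 2 * u - 218 * v * u * S ^ 2 + 379 * v ^ 2 * u * S + 243 * t *
      u * S ^ 2 - 66 * t * u ^ 2 * S - 158 * t * v * u * S + 379 * t * v ^ 2 * u - 266 * t ^ 2 * u *
      S) * R + (469 + 455 * S - 238 * t) * C1 + (-139 + 28 * S + 133 * v) * C2 + (308 + 48 * S -
      246 * v * S + 438 * t * S + 53 * t * v) * C3 + (-357 + 326 * S + 388 * v + 53 * t) * C4 +
      (322 + 368 * S - 443 * v + 218 * v * S - 379 * v ^ 2 - 25 * t * S) * F1 + (372 + 123 * S -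
      205 * u - 388 * v + 251 * t) * D1 + (250 * S + 119 * u - 289 * v - 243 * S ^ 2 + 41 * u * S +
      29 * v * S + 388 * v * u + 266 * t * S + 411 * t * v) * B + (-370 * S ^ 2 - 74 * u * S + 229 *
      v * S + 386 * v ^ 2 + 173 * t * S - 386 * t ^ 2 + 273 * u * S ^ 2 - 370 * u ^ 2 * S - 470 * v *
      S ^ 2 + 100 * v * u * S - 200 * v ^ 2 * S - 120 * v ^ 2 * u - 29 * v ^ 3 + 309 * t * S ^ 2 -
      346 * t * v * u - 153 * t * v ^ 2 + 303 * t ^ 2 * S - 225 * t ^ 2 * u - 28 * u ^ 2 * S ^ 2 -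
      223 * v ^ 2 * S ^ 2 - 238 * v ^ 2 * u * S + 271 * v ^ 2 * u ^ 2 + 388 * v ^ 3 * S + 58 * t *
      u * S ^ 2 + 406 * t * u ^ 2 * S + 10 * t * v * u ^ 2 + 318 * t * v ^ 2 * u - 321 * t * v ^ 3
      + 220 * t ^ 2 * S ^ 2 + 264 * t ^ 2 * v * S + 342 * t ^ 2 * v * u + 268 * t * v ^ 2 * u * S) *
      lS - (63 * S ^ 2 + 13 * u * S - 39 * v * S - 65 * v ^ 2 - 30 * t * S + 65 * t ^ 2 - 46 * u *
      S ^ 2 + 63 * u ^ 2 * S + 80 * v * S ^ 2 - 17 * v * u * S + 33 * v ^ 2 * S + 20 * v ^ 2 * u +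
      5 * v ^ 3 - 15 * t * S ^ 2 + 7 * t * u * S - 24 * t * v * S + 57 * t * v * u - 11 * t * v ^ 2
      - 68 * t ^ 2 * S + 38 * t ^ 2 * u + 37 * t ^ 3 + 5 * u ^ 2 * S ^ 2 + v * u * S ^ 2 + 38 * v ^
      2 * S ^ 2 + 40 * v ^ 2 * u * S - 46 * v ^ 2 * u ^ 2 - 65 * v ^ 3 * S + t * S ^ 3 - 36 * t * u *
      S ^ 2 - 34 * t * u ^ 2 * S + 44 * t * v * S ^ 2 - 11 * t * v * u * S + 19 * t * v ^ 2 * S -
      41 * t * v ^ 2 * u + 56 * t * v ^ 3 - 66 * t ^ 2 * S ^ 2 - 44 * t ^ 2 * v * S - 26 * t ^ 2 *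
      v * u + 14 * t ^ 2 * v ^ 2 - 29 * t ^ 3 * S + 22 * t ^ 3 * u + v * u ^ 2 * S ^ 2 - v ^ 2 * u *
      S ^ 2 + 3 * t * u ^ 2 * S ^ 2 + 22 * t * v ^ 2 * S ^ 2 - 23 * t * v ^ 2 * u * S - 26 * t * v ^
      2 * u ^ 2 - 37 * t * v ^ 3 * S - 6 * t ^ 2 * u * S ^ 2 - 39 * t ^ 2 * u ^ 2 * S + 2 * t ^ 2 *
      v * u * S - t ^ 2 * v * u ^ 2 - 31 * t ^ 2 * v ^ 2 * u + 31 * t ^ 2 * v ^ 3 - 21 * t ^ 3 * S ^
      2 - 26 * t ^ 3 * v * S - 33 * t ^ 3 * v * u + t * v ^ 2 * u * S ^ 2 - t * v ^ 3 * u ^ 2 - t ^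
      2 * v * u * S ^ 2 + t ^ 2 * v * u ^ 2 * S - 26 * t ^ 2 * v ^ 2 * u * S + t ^ 3 * v * u * S) *
      hp
  have lt : (1 + 96 * t + t ^ 2) = 0 := by
    linear_combination (193) * R + (-193 - 193 * v - 193 * t) * lS + (-384 - 409 * t) * lv - (224 +
      32 * v + 119 * t + 18 * t * v - 126 * t ^ 2) * hp
  have lu : (108 + u + 6 * t) = 0 := by
    refine cancel hS ?_
    linear_combination (-50 + 22 * v - 22 * t) * R + (-315 + 96 * t) * B + (136 + 28 * v - 128 * t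
      - 22 * v ^ 2) * lS + (226 - 23 * v) * lv + (-362 + 22 * S - 22 * v + u * S - 96 * t * u * S) *
      lt - (-136 + 7 * v + 52 * t + 4 * v ^ 2 + 2 * t * S - 13 * t * v + 12 * t ^ 2 + 2 * t * v ^ 2
      - 10 * t ^ 2 * u * S) * hp
  exact ⟨by linear_combination lt, by linear_combination lv, by linear_combination lu,
    by linear_combination lS⟩

/-- the case `t^2 u S = v^2`: the characteristic and the point. -/
theorem k21_B_pt {t v u S T r : F} (K : K21 t v u S T r) (h2 : (2 : F) ≠ 0) (h3 : (3 : F) ≠ 0)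
    (hI : pI S v u = 0) (hB : t ^ 2 * u * S = v ^ 2) :
    (953 : F) = 0 ∧ t ^ 2 - (-96) * t - (-1) = 0 ∧ v = 475 - 337 * t ∧ u = -108 - 6 * t ∧
      S = 161 + 92 * t := by
  obtain ⟨hR, h1, h2', h3', h4, hF1, hD1⟩ :=
    k21_small K.t0 K.v0 K.u0 K.S0 K.Sv K.td K.uS K.u1 K.R K.Ea K.B2 hI
  have hB' : t ^ 2 * u * S - v ^ 2 = 0 := by linear_combination hB
  have hutv : u - t * v ≠ 0 := fun h => K.tvu (by linear_combination -h)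
  have hStv : S - v * t ≠ 0 := fun h => K.tvS (by linear_combination -h)
  have hvt := K.vt
  have hp : (953 : F) = 0 := k21_b953 h2 h3 K.Sv hutv K.v0 hR h1 h2' h3' h4 hF1 hD1 hB'
  exact ⟨hp, k21_bpt hp hStv hutv K.v0 K.u0 K.vt K.S0 hR h1 h2' h3' h4 hF1 hD1 hB'⟩

/-- the case `t^2 u S = v^2` is impossible for `m ≥ 6`. -/
theorem k21_B : K21B F := by
  intro t v u S T r K h2 h3 _ hI _ _ _ _ hF hB
  obtain ⟨hp, ht, hv, hu, hS⟩ := k21_B_pt K h2 h3 hI hB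
  exact k21_F54_953 hp K.t0 K.v0 K.r0 ht hv hu hS (by rw [K.hST, K.hr]; ring) hF

end Pool.Agent.Helper43.IPL
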