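import Mathlib

/-!
MP_d2f54f_al (inverting pairs): pure algebra of the local flatness lemma.
-/

namespace Pool.Agent.Helper43.IPL

theorem det_poly {R : Type*} [CommRing R] (u V u' V' r t T : R) :
    ((t - 1) * (V * u' - V' * u) * (t * V * (T - 1) - (V - (V - V') * r) * (T - t))
        - (T - t) * (T - 1) * (u - V) * (V - V')
          * ((r - 1) * T * (V - u') - r * (V' - t * u')))
      * (-(t - 1) * (V * u' - V' * u) * (u * (T - 1) - (u - (u' - u) * (r - 1)) * (T - t)) * T ^ 2
        - (T - t) * (T - 1) * (u - V) * (u' - u)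
          * (r * t * (V' - u) - (r - 1) * T * (V' - t * u')))
    - (-(t - 1) * (V * u' - V' * u) * (t * u * (T - 1) - (V - (V - V') * r) * (T - t))
        - (T - t) * (T - 1) * (u - V) * (V - V') * (r - 1) * (u' - t * u))
      * ((t - 1) * (V * u' - V' * u) * (V * (T - 1) - (u - (u' - u) * (r - 1)) * (T - t)) * T ^ 2
        - (T - t) * (T - 1) * (u - V) * (u' - u) * r * T * (V - t * V'))
    = (T - t) ^ 2 * (T - 1) ^ 2 * (u - V) * (V - t * u) * (V' - u') * (V - V') * (u' - u)
        * ((r - 1) * T - t * r) * ((r - 1) * (V - u') * T - r * (V' - u)) := by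
  ring

end Pool.Agent.Helper43.IPL
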