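import Pool.Agent.Helper43.IPL.FlatAlg

/-!
MP_d2f54f_al (inverting pairs): the two linear equations and the local flatness alternative
(pure algebra, one column step).
-/

namespace Pool.Agent.Helper43.IPL

variable {F : Type*} [Field F]

theorem lin2 {a11 a12 a21 a22 g e d : F} (L1 : a11 * g + a12 * e = 0)
    (L2 : a21 * g + a22 * e = 0) (hd : a11 * a22 - a12 * a21 = d) (h : g ≠ 0 ∨ e ≠ 0) : d = 0 := by
  rw [← hd]
  rcases h with h | h
  · have : (a11 * a22 - a12 * a21) * g = 0 := by linear_combination a22 * L1 - a12 * L2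
    exact (mul_eq_zero.mp this).resolve_right h
  · have : (a11 * a22 - a12 * a21) * e = 0 := by linear_combination a11 * L2 - a21 * L1
    exact (mul_eq_zero.mp this).resolve_right h

/-- the one-step alternative.  `u = G_1`, `v = H_1`, `V = X v`, `g = G_2`, `h = H_2`, `e = Y h` at column `k`,
primes = column `k+1`, `X = t^k`, `Y = T^k`, `e' = Y h'`. -/
theorem flat_alg' (x x' be de s s' t T X Y lam mu u v u' v' V V' g g' e e' : F)
    (hs : s ≠ 0) (hs' : s' ≠ 0) (hss : s' - s ≠ 0) (hX : X ≠ 0)
    (hT : T ≠ 0) (ht1 : t - 1 ≠ 0) (hT1 : T - 1 ≠ 0) (hTt : T - t ≠ 0)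
    (hx : x ≠ 0) (hx' : x' ≠ 0)
    (hV : V = X * v) (hV' : V' = X * v')
    (hu : u = 1 - x + x * s) (hv : s * v = (1 - x') * s + x')
    (hu' : u' = 1 - x + x * s') (hv' : s' * v' = (1 - x') * s' + x')
    (hg : g = s * ((1 - be) * u + be * v)) (he : s * e = Y * ((1 - de) * u + de * v))
    (hg' : g' = s' * ((1 - be) * u' + be * v')) (he' : s' * e' = Y * ((1 - de) * u' + de * v'))
    (U1 : u' = (1 - lam) * (t * u) + lam * V)
    (U1' : t * V' = (1 - mu) * (t * u) + mu * V)
    (U2 : g' = (1 - lam) * (T * g) + lam * e)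
    (U2' : T * e' = (1 - mu) * (T * g) + mu * e)
    (E1 : t * (g * V - e * u) * (T - 1) * (t - 1)
        - X * (1 - x') * (g - e) * (T - t) * (t - 1)
        - x' * ((1 - be) * X + be * t) * (u - V) * (T - t) * (T - 1) = 0)
    (E2 : T * X * (V * g - u * e) * (T - 1) * (t - 1)
        - T * X * (1 - x) * (g - e) * (T - t) * (t - 1)
        - x * Y * ((1 - de) * X + de * t) * (u - V) * (T - t) * (T - 1) = 0)
    (hgh : g ≠ 0 ∨ e ≠ 0) :
    u - V = 0 ∨ V - t * u = 0 ∨ V' - u' = 0 ∨ s * T = t * s' ∨
      s * (V - u') * T = s' * (V' - u) := by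
  obtain ⟨r, hr⟩ : ∃ r, r = s' / (s' - s) := ⟨_, rfl⟩
  -- basic relations
  have hr1 : r * (s' - s) = s' := by rw [hr]; field_simp
  have hr2 : (r - 1) * (s' - s) = s := by linear_combination hr1
  have hxu : u' - u = x * (s' - s) := by rw [hu, hu']; ring
  have hsV : s * V = X * (1 - x') * s + X * x' := by rw [hV]; linear_combination X * hv
  have hsV' : s' * V' = X * (1 - x') * s' + X * x' := by rw [hV']; linear_combination X * hv'
  have hVV : (V - V') * (s * s') = X * x' * (s' - s) := by
    linear_combination s' * hsV - s * hsV'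
  have hVne : V - V' ≠ 0 := by
    intro h0
    rw [h0, zero_mul] at hVV
    exact mul_ne_zero (mul_ne_zero hX hx') hss hVV.symm
  have hune : u' - u ≠ 0 := by rw [hxu]; exact mul_ne_zero hx hss
  have hA : (V - V') * (r - 1) * s' = X * x' := by
    have : (s * (s' - s)) * ((V - V') * (r - 1) * s') = (s * (s' - s)) * (X * x') := by
      linear_combination (V - V') * (s * s') * hr2 + s * hVV
    exact mul_left_cancel₀ (mul_ne_zero hs hss) this
  have hB : (V - V') * r * s = X * x' := by
    have : (s' * (s' - s)) * ((V - V') * r * s) = (s' * (s' - s)) * (X * x') := by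
      linear_combination (V - V') * (s * s') * hr1 + s' * hVV
    exact mul_left_cancel₀ (mul_ne_zero hs' hss) this
  have hK1 : X * (1 - x') = V - (V - V') * r := by
    have : s * (X * (1 - x')) = s * (V - (V - V') * r) := by
      linear_combination - hsV + hB
    exact mul_left_cancel₀ hs this
  have hC : (u' - u) * r = x * s' := by
    rw [hxu]; linear_combination x * hr1
  have hDd : (u' - u) * (r - 1) = x * s := by
    rw [hxu]; linear_combination x * hr2
  have hK2 : 1 - x = u - (u' - u) * (r - 1) := by rw [hDd, hu]; ring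
  -- U steps
  have hk1 : (V - t * u) * g' = T * (V - u') * g + (u' - t * u) * e := by
    linear_combination (V - t * u) * U2 + (T * g - e) * U1
  have hk2 : (V - t * u) * (T * e') = T * (V - t * V') * g + t * (V' - u) * e := by
    linear_combination (V - t * u) * U2' + (T * g - e) * U1'
  -- Cramer
  have hQ1 : x' * (V * u' - V' * u) * ((1 - be) * X + be * t)
      = (V - V') * (r - 1) * ((V - t * u) * g') - (V - V') * r * (V' - t * u') * g := by
    have h1 : (V - V') * (r - 1) * ((V - t * u) * g')
        = X * x' * (V - t * u) * ((1 - be) * u' + be * v') := by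
      rw [hg']; linear_combination (V - t * u) * ((1 - be) * u' + be * v') * hA
    have h2 : (V - V') * r * (V' - t * u') * g
        = X * x' * (V' - t * u') * ((1 - be) * u + be * v) := by
      rw [hg]; linear_combination (V' - t * u') * ((1 - be) * u + be * v) * hB
    rw [h1, h2]
    linear_combination x' * be * ((V - t * u) * hV' - (V' - t * u') * hV)
  have hQ2 : X * ((u' - u) * r * ((V - t * u) * e') - (u' - u) * (r - 1) * (V' - t * u') * e)
      = x * Y * ((1 - de) * X + de * t) * (V * u' - V' * u) := by
    have h1 : (u' - u) * r * ((V - t * u) * e')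
        = x * (V - t * u) * (Y * ((1 - de) * u' + de * v')) := by
      linear_combination (V - t * u) * e' * hC + x * (V - t * u) * he'
    have h2 : (u' - u) * (r - 1) * (V' - t * u') * e
        = x * (V' - t * u') * (Y * ((1 - de) * u + de * v)) := by
      linear_combination (V' - t * u') * e * hDd + x * (V' - t * u') * he
    rw [h1, h2]
    linear_combination x * Y * de * ((V' - t * u') * hV - (V - t * u) * hV')
  have L1 : ((t - 1) * (V * u' - V' * u) * (t * V * (T - 1) - (V - (V - V') * r) * (T - t))
        - (T - t) * (T - 1) * (u - V) * (V - V')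
          * ((r - 1) * T * (V - u') - r * (V' - t * u'))) * g
      + (-(t - 1) * (V * u' - V' * u) * (t * u * (T - 1) - (V - (V - V') * r) * (T - t))
        - (T - t) * (T - 1) * (u - V) * (V - V') * (r - 1) * (u' - t * u)) * e = 0 := by
    linear_combination (V * u' - V' * u) * E1
      + (V * u' - V' * u) * (g - e) * (T - t) * (t - 1) * hK1
      + (u - V) * (T - t) * (T - 1) * hQ1
      + (T - t) * (T - 1) * (u - V) * (V - V') * (r - 1) * hk1
  have L2X : X * (((t - 1) * (V * u' - V' * u) * (V * (T - 1) - (u - (u' - u) * (r - 1)) * (T - t)) * T ^ 2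
        - (T - t) * (T - 1) * (u - V) * (u' - u) * r * T * (V - t * V')) * g
      + (-(t - 1) * (V * u' - V' * u) * (u * (T - 1) - (u - (u' - u) * (r - 1)) * (T - t)) * T ^ 2
        - (T - t) * (T - 1) * (u - V) * (u' - u)
          * (r * t * (V' - u) - (r - 1) * T * (V' - t * u'))) * e) = X * 0 := by
    linear_combination T * (V * u' - V' * u) * E2
      + T ^ 2 * X * (V * u' - V' * u) * (g - e) * (T - t) * (t - 1) * hK2
      - T * (u - V) * (T - t) * (T - 1) * hQ2
      + X * (T - t) * (T - 1) * (u - V) * (u' - u) * r * hk2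
  have L2 := mul_left_cancel₀ hX L2X
  have hz := lin2 L1 L2 (det_poly u V u' V' r t T) hgh
  rcases mul_eq_zero.mp hz with hz | h9
  · rcases mul_eq_zero.mp hz with hz | h8
    · rcases mul_eq_zero.mp hz with hz | h7
      · rcases mul_eq_zero.mp hz with hz | h6
        · rcases mul_eq_zero.mp hz with hz | h5
          · rcases mul_eq_zero.mp hz with hz | h4
            · rcases mul_eq_zero.mp hz with hz | h3
              · rcases mul_eq_zero.mp hz with h1 | h2
                · exact absurd h1 (pow_ne_zero 2 hTt)
                · exact absurd h2 (pow_ne_zero 2 hT1)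
              · exact Or.inl h3
            · exact Or.inr (Or.inl h4)
          · exact Or.inr (Or.inr (Or.inl h5))
        · exact absurd h6 hVne
      · exact absurd h7 hune
    · refine Or.inr (Or.inr (Or.inr (Or.inl ?_)))
      linear_combination (s' - s) * h8 - T * hr2 + t * hr1
  · refine Or.inr (Or.inr (Or.inr (Or.inr ?_)))
    linear_combination (s' - s) * h9 - (V - u') * T * hr2 + (V' - u) * hr1

end Pool.Agent.Helper43.IPL
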