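import Pool.Agent.Helper76.IP.K2RowAlg

/-!
TH-P, K2, letter 0: the scalar algebra (`u v = 1`, `t_3 = S^2`, the cell relation `f2`, the dual
relations `pA` or `pD1`, and the row relation `F41`).
-/

namespace Pool.Agent.Helper43.IPL

open Pool.Agent.Helper76.IP

variable {F : Type*} [Field F]

private theorem cancel {a b : F} (ha : a ≠ 0) (h : a * b = 0) : b = 0 :=
  (mul_eq_zero.1 h).resolve_left ha

/-- `t^2 T^3 F41 / (t - 1)`, `W = T^3` -/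
def k20E (t T S v u W : F) : F :=
  S * v * (v + 1 - S) * t ^ 3 * (1 + t + t ^ 2) * W
    - S * (S ^ 2 * v + S * (1 - v - v ^ 2) + v ^ 2) * t ^ 3 * (t ^ 2 + t * T + T ^ 2)
    + t * (1 + t + t ^ 2) * ((1 + t + t ^ 2) * (v ^ 2 - (v + 1 - S)) - (v - 1) * (v + 1 - S))
      * (v + 1 - S) * u * W
    + S * (v + 1 - S) * u * t * (t ^ 2 + t * T + T ^ 2) * W
    - S * (v + 1 - S) * u * v * t ^ 3 * (t ^ 2 + t * T + T ^ 2)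
    + u ^ 2 * (S ^ 2 + S * (v ^ 2 - v - 1) + v) * (t ^ 2 + t * T + T ^ 2) * W
    - u ^ 2 * v * (v + 1 - S) * t * (1 + t + t ^ 2) * W

theorem k20_E {t r T S v u : F} (ht : t ≠ 0) (hT : T ≠ 0) (hr : T = t * r)
    (R : t * (v + 1 - S) = S * (v + 1) - v) (ht1 : t - 1 ≠ 0)
    (hF : k2F t r S v u t r + k2F t r S v u (t ^ 2) (r ^ 2) + k2F t r S v u (t ^ 3) (r ^ 3) = 0) :
    k20E t T S v u (T ^ 3) = 0 := by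
  have hr' : r = T / t := by rw [hr]; field_simp
  have key : t ^ 2 * T ^ 3 * (k2F t r S v u t r + k2F t r S v u (t ^ 2) (r ^ 2)
      + k2F t r S v u (t ^ 3) (r ^ 3)) = (t - 1) * k20E t T S v u (T ^ 3)
      + t * T ^ 3 * (1 + t + t ^ 2) * (v - 1) * (v + 1 - S) * u
        * (t * (v + 1 - S) - (S * (v + 1) - v)) := by
    rw [hr', k2F, k2F, k2F, k20E]
    field_simp
    ring
  rw [hF, R, sub_self, mul_zero, mul_zero, add_zero] at key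
  exact cancel ht1 key.symm

/-- the branch `S v^2 = 1`: `v^9 = 1`. -/
theorem k20_A9 {t v : F} (hp : v ^ 6 + v ^ 3 + 1 = 0) (hR : t * (v ^ 3 + v ^ 2 - 1) = v + 1 - v ^ 3)
    (hE :
      (-2 - t + v - 6 * t ^ 2 - v * t + 2 * v ^ 2 - 9 * t ^ 3 - 7 * v * t ^ 2 - v ^ 2 * t - v ^ 3 -
        5 * t ^ 4 - 7 * v * t ^ 3 + 2 * v ^ 2 * t ^ 2 - 2 * v ^ 3 * t - 4 * t ^ 5 - 5 * v * t ^ 4 +
        4 * v ^ 2 * t ^ 3 + v ^ 5 - 2 * v * t ^ 5 + 5 * v ^ 2 * t ^ 4 - 6 * v ^ 3 * t ^ 3 - 5 * v ^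
        4 * t ^ 2 + 3 * v ^ 2 * t ^ 5 - v ^ 3 * t ^ 4 - 9 * v ^ 4 * t ^ 3 - v ^ 5 * t ^ 2 - 2 * v ^
        3 * t ^ 5 - 6 * v ^ 4 * t ^ 4 + 2 * v ^ 5 * t ^ 3 - 4 * v ^ 4 * t ^ 5 + 2 * v ^ 5 * t ^ 4 +
        2 * v ^ 5 * t ^ 5)
      = 0) : v - 1 = 0 := by
  have e : ∀ j k : ℕ, t ^ j * (v ^ 3 + v ^ 2 - 1) ^ (j + k) =
      (v + 1 - v ^ 3) ^ j * (v ^ 3 + v ^ 2 - 1) ^ k := fun j k => by
    rw [pow_add, ← mul_assoc, ← mul_pow, hR]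
  have e1 := e 1 4
  have e2 := e 2 3
  have e3 := e 3 2
  have e4 := e 4 1
  have e5 := e 5 0
  norm_num at e1 e2 e3 e4 e5
  have h1 : (-63 + 66 * v + 120 * v ^ 2 + 63 * v ^ 3 + 186 * v ^ 4 + 186 * v ^ 5) = 0 := by
    linear_combination (v ^ 3 + v ^ 2 - 1) ^ 5 * hE - (-1 - v - v ^ 2 - 2 * v ^ 3) * e1 - (-6 -
      7 * v + 2 * v ^ 2 - 5 * v ^ 4 - v ^ 5) * e2 - (-9 - 7 * v + 4 * v ^ 2 - 6 * v ^ 3 - 9 * v ^ 4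
      + 2 * v ^ 5) * e3 - (-5 - 5 * v + 5 * v ^ 2 - v ^ 3 - 6 * v ^ 4 + 2 * v ^ 5) * e4 - (-4 - 2 *
      v + 3 * v ^ 2 - 2 * v ^ 3 - 4 * v ^ 4 + 2 * v ^ 5) * e5 - (62 - 81 * v - 163 * v ^ 2 - 160 *
      v ^ 3 - 56 * v ^ 4 + 99 * v ^ 5 + 160 * v ^ 6 + 60 * v ^ 7 - 72 * v ^ 8 - 88 * v ^ 9 - 17 * v ^
      10 + 29 * v ^ 11 + 20 * v ^ 12 + 2 * v ^ 13 - 2 * v ^ 14) * hp
  have h9 : (9 : F) = 0 := by
    linear_combination (1094 - 1028 * v + 838 * v ^ 2 + 547 * v ^ 3 - 838 * v ^ 4 + 1028 * v ^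
      5) * h1 - (-68931 + 136968 * v + 10638 * v ^ 2 + 35340 * v ^ 3 + 191208 * v ^ 4) * hp
  have h3 : (3 : F) = 0 := by
    have : (3 : F) ^ 2 = 0 := by linear_combination h9
    exact pow_eq_zero_iff (two_ne_zero) |>.1 this
  have h6 : (v - 1) ^ 6 = 0 := by
    linear_combination hp + (-2 * v ^ 5 + 5 * v ^ 4 - 7 * v ^ 3 + 5 * v ^ 2 - 2 * v) * h3
  exact pow_eq_zero_iff (by norm_num) |>.1 h6

/-- the branch `S v^2 = 1`. -/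
theorem k20_A {t T S v u : F} (hv1 : v - 1 ≠ 0) (hT1 : T - 1 ≠ 0) (hS : S = v * T)
    (huv : u * v = 1) (hA : S * v ^ 2 = 1)
    (f2 : S ^ 3 * (1 + v ^ 2) - S ^ 2 + v ^ 3 * (S - 1) - v = 0)
    (R : t * (v + 1 - S) = S * (v + 1) - v) (hE : k20E t T S v u (T ^ 3) = 0) : False := by
  have hT : T * v ^ 3 = 1 := by rw [hS] at hA; linear_combination hA
  have h9 : v ^ 9 = 1 := by
    linear_combination (-v ^ 6) * f2 + (((S * v ^ 2) ^ 2 + S * v ^ 2 + 1) * (1 + v ^ 2)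
      - (S * v ^ 2 + 1) * v ^ 2 + v ^ 7) * hA
  have hp : v ^ 6 + v ^ 3 + 1 = 0 := by
    refine cancel (a := T - 1) hT1 ?_
    linear_combination (v ^ 6 + v ^ 3 + 1) * hT - T * h9
  have hT6 : T = -v ^ 3 - 1 := by linear_combination v ^ 6 * hT - T * h9 + hp
  have hS' : S = -v ^ 4 - v := by rw [hS, hT6]; ring
  have hu' : u = -v ^ 5 - v ^ 2 := by linear_combination v ^ 8 * huv - u * h9 + v ^ 2 * hp
  have hT3 : T ^ 3 = 1 := by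
    linear_combination ((T * v ^ 3) ^ 2 + T * v ^ 3 + 1) * hT - T ^ 3 * h9
  have hR : t * (v ^ 3 + v ^ 2 - 1) = v + 1 - v ^ 3 := by
    linear_combination v ^ 2 * R + (t + v + 1) * hA
  rw [hT3, k20E, hS', hT6, hu'] at hE
  refine hv1 (k20_A9 hp hR ?_)
  linear_combination hE - (2 + t - v + 6 * t ^ 2 + v * t - 2 * v ^ 2 + 9 * t ^ 3 + 7 * v * t ^ 2 +
    v ^ 2 * t - v ^ 3 + 5 * t ^ 4 + 7 * v * t ^ 3 - v ^ 2 * t ^ 2 + 3 * v ^ 3 * t + v ^ 4 + 4 * t ^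
    5 + 5 * v * t ^ 4 - 4 * v ^ 2 * t ^ 3 - 2 * v ^ 3 * t ^ 2 + 4 * v ^ 4 * t + 3 * v ^ 5 + 2 * v *
    t ^ 5 - 3 * v ^ 2 * t ^ 4 + 7 * v ^ 3 * t ^ 3 + 2 * v ^ 4 * t ^ 2 - 2 * v ^ 5 * t + v ^ 6 - 4 *
    v ^ 2 * t ^ 5 + 14 * v ^ 4 * t ^ 3 + 4 * v ^ 5 * t ^ 2 - 3 * v ^ 6 * t - v ^ 7 + 2 * v ^ 3 * t ^
    5 + 6 * v ^ 4 * t ^ 4 - 6 * v ^ 5 * t ^ 3 + 10 * v ^ 7 * t + 8 * v ^ 8 + 6 * v ^ 4 * t ^ 5 + 3 *
    v ^ 5 * t ^ 4 + v ^ 6 * t ^ 3 - 5 * v ^ 7 * t ^ 2 - 3 * v ^ 8 * t + 11 * v ^ 9 - 4 * v ^ 5 * t ^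
    5 - v ^ 6 * t ^ 4 + 8 * v ^ 7 * t ^ 3 + 2 * v ^ 8 * t ^ 2 - 8 * v ^ 9 * t - 5 * v ^ 10 - v ^ 7 *
    t ^ 4 - 8 * v ^ 8 * t ^ 3 + 3 * v ^ 9 * t ^ 2 + 8 * v ^ 10 * t + 5 * v ^ 11 + 2 * v ^ 7 * t ^ 5
    + 4 * v ^ 8 * t ^ 4 - 2 * v ^ 10 * t ^ 2 - v ^ 11 * t + 13 * v ^ 12 - v ^ 8 * t ^ 5 + 4 * v ^
    10 * t ^ 3 - 5 * v ^ 12 * t - 4 * v ^ 13 - v ^ 10 * t ^ 4 - 5 * v ^ 11 * t ^ 3 + v ^ 12 * t ^ 2
    + 2 * v ^ 13 * t + v ^ 14 + v ^ 11 * t ^ 4 + 6 * v ^ 15 + v ^ 13 * t ^ 3 - v ^ 15 * t - v ^ 16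
    - v ^ 14 * t ^ 3 + v ^ 18) * hp

/-- the branch `pD1`: `v = S^2`, `2 S^2 + 3 S + 2 = 0`, Lehmer's polynomial. -/
theorem k20_D {t T S v u : F} (hS0 : S ≠ 0) (hS1 : S - 1 ≠ 0) (hv0 : v ≠ 0) (hvp : v + 1 ≠ 0)
    (hph : v ^ 2 + v + 1 ≠ 0) (hSv : S * v - 1 ≠ 0) (htd : v + 1 - S ≠ 0) (hS : S = v * T)
    (huv : u * v = 1) (f2 : S ^ 3 * (1 + v ^ 2) - S ^ 2 + v ^ 3 * (S - 1) - v = 0)
    (hD : S ^ 3 * v ^ 4 + 2 * S ^ 3 * v ^ 3 + 2 * S ^ 3 * v ^ 2 + S ^ 3 * v + S ^ 3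
      - 2 * S ^ 2 * v ^ 4 - 3 * S ^ 2 * v ^ 3 - 2 * S ^ 2 * v ^ 2 - 3 * S ^ 2 * v - S ^ 2
      + S * v ^ 5 + 3 * S * v ^ 4 + 2 * S * v ^ 3 + 3 * S * v ^ 2 + 2 * S * v - v ^ 5 - v ^ 4
      - 2 * v ^ 3 - 2 * v ^ 2 - v = 0)
    (R : t * (v + 1 - S) = S * (v + 1) - v) (hE : k20E t T S v u (T ^ 3) = 0) : False := by
  have hv : v = S ^ 2 := by
    refine sub_eq_zero.1 (cancel (mul_ne_zero (mul_ne_zero (mul_ne_zero hv0 hS1) hph) hSv) ?_)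
    linear_combination (S + v ^ 2 + S * v + v ^ 3) * f2 - (v + S) * hD
  subst hv
  have htd' : S ^ 2 - S + 1 ≠ 0 := fun h => htd (by linear_combination h)
  have hy : 2 * S ^ 2 + 3 * S + 2 = 0 := by
    refine cancel (mul_ne_zero (mul_ne_zero (pow_ne_zero 2 hS0) hS1) htd') ?_
    linear_combination f2
  have ht : t = S := by
    refine sub_eq_zero.1 (cancel htd' ?_)
    linear_combination R
  have hT : T = 1 / S := by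
    rw [eq_div_iff hS0]
    refine sub_eq_zero.1 (cancel hS0 ?_)
    linear_combination -hS
  have hu : u = 1 / S ^ 2 := by
    rw [eq_div_iff (pow_ne_zero 2 hS0)]
    exact huv
  have hq : S ^ 2 + S + 1 ≠ 0 := by
    intro h
    exact hph (by linear_combination (S ^ 2 - S + 1) * h)
  have key : S ^ 8 * k20E t T S (S ^ 2) u (T ^ 3) = (S - 1) ^ 3 * (S ^ 2 - S + 1) * (S ^ 2 + 1)
      * (S ^ 2 + S + 1) * (S ^ 10 + S ^ 9 - S ^ 7 - S ^ 6 - S ^ 5 - S ^ 4 - S ^ 3 + S + 1) := by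
    rw [ht, hT, hu, k20E]
    field_simp
    ring
  rw [hE, mul_zero] at key
  have hL := cancel (mul_ne_zero (mul_ne_zero (mul_ne_zero (pow_ne_zero 3 hS1) htd') hvp) hq)
    key.symm
  have h3 : (3 : F) = 0 := by
    refine cancel (pow_ne_zero 5 hS0) ?_
    linear_combination 32 * hL - (16 - 8 * S - 4 * S ^ 2 - 2 * S ^ 3 - 9 * S ^ 4 - 2 * S ^ 5 - 4 *
      S ^ 6 - 8 * S ^ 7 + 16 * S ^ 8) * hy
  exact hvp (by linear_combination (S ^ 2 + S + 1) * h3 - hy)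

end Pool.Agent.Helper43.IPL
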