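import Pool.Agent.Helper43.IPL.K20Alg
import Pool.Agent.Helper85.IP.K21Small

/-!
TH-P, K2, letter 1 at `2 -> 3`, letter 0 at `3 -> 4`: the characteristics 2 and 3.
In characteristic 2 the relations force a degenerate point; in characteristic 3 they force
`t v u = 1` and five quadrics, and then the row relation is a unit.
-/

namespace Pool.Agent.Helper43.IPL

open Pool.Agent.Helper76.IP
open Pool.Agent.Helper27.IP

variable {F : Type*} [Field F]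

private theorem cancel {a b : F} (ha : a ≠ 0) (h : a * b = 0) : b = 0 :=
  (mul_eq_zero.1 h).resolve_left ha

theorem k21_c2 {t v u S : F} (h2 : (2 : F) = 0) (ht : t ≠ 0) (hv : v ≠ 0) (hS : S ≠ 0) (hu1 : u - 1 ≠ 0) (hStv : S - v * t ≠ 0) (ht1 : t - 1 ≠ 0) (hv1 : v - 1 ≠ 0)
    (R : S*(t+v+1)-(t*v+t+v) = 0)
    (C1 : (S+t*v)*(u^2+t*S)-t*S*(1+u)*(1+u*v) = 0)
    (C2 : u^2*(S^2-v*S+v^2*S-t*v^2)-t*S^2*u+t*S*(v+t*v-S) = 0)
    (C3 : v*(u^2-t)*(S+t)-(u*v-t)*(u*v+t*S) = 0)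
    (C4 : u^2*v*(S+t*S-t*v)-t*v^2*u+t*(t*v^2-t*v*S+t*S-S^2) = 0)
    (F1 : u^2*(v*S-t*S+t*v)+u*v*(S^2-S-t-t^2)+t*S*(S-v+t) = 0)
    (D1 : u*(v*S^2-v^2*S-t*v+t^2-t^2*S+t^2*v*S)+(v*S-v^2*S+v^2*S^2-t*v*S^2-t^2*S+t^2*v) = 0) : False := by
  refine (mul_ne_zero (mul_ne_zero (mul_ne_zero (mul_ne_zero (mul_ne_zero (mul_ne_zero ht hv) hS) hu1) hStv) ht1) hv1) ?_
  linear_combination (v * u * S + t * v * u * S + t ^ 2 * u ^ 2 + t ^ 2 * v * u + v * u ^ 2 * S ^ 2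
    + v ^ 2 * u * S ^ 2 + v ^ 3 * u * S + t * v ^ 2 * u * S + t * v ^ 3 * u * S + t ^ 2 * v ^ 3 *
    u) * R + (v * S + v ^ 3 + t * v * u + t * v ^ 2) * C1 + (v ^ 2 + v * u * S + v ^ 2 * u + t * v *
    u + t * v ^ 2) * C2 + (v * S ^ 2 + t * v * S + t * v * u + v ^ 2 * u * S + t * v * u * S + t *
    v ^ 2 * S + t * v ^ 2 * u) * C3 + (v * S + v * u + v * u * S + t * u * S + t * v * S) * C4 + (v *
    u + t * u + v * u * S + v ^ 2 * S + t * u * S + t * v ^ 3) * F1 + (u * S + v * u + t * u + u ^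
    2 * S + v * u ^ 2 + v ^ 2 * u) * D1 - (v * u * S ^ 2 + v * u ^ 2 * S ^ 2 - t * v * u ^ 2 * S -
    t * v ^ 2 * S ^ 2 - 2 * t * v ^ 2 * u * S - t * v ^ 2 * u ^ 2 + t ^ 2 * u ^ 2 * S - t ^ 2 * v *
    u ^ 2 - t ^ 2 * v ^ 2 * S + v * u ^ 2 * S ^ 3 + v ^ 2 * u * S ^ 3 + v ^ 2 * u ^ 3 * S - v ^ 3 *
    u ^ 2 * S - v ^ 4 * u * S - t * v * u * S ^ 3 - 2 * t * v ^ 3 * u * S - t * v ^ 3 * u ^ 2 - t ^
    2 * u ^ 2 * S ^ 2 + t ^ 2 * v * u * S ^ 2 - t ^ 2 * v * u ^ 2 * S + t ^ 2 * v * u ^ 3 - t ^ 2 *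
    v ^ 2 * u * S + t ^ 2 * v ^ 2 * u ^ 2 + 2 * t ^ 2 * v ^ 3 * S + t ^ 2 * v ^ 3 * u + t ^ 3 * u *
    S ^ 2 + t ^ 3 * v * S ^ 2 + t ^ 3 * v * u * S - t ^ 3 * v * u ^ 2 - t ^ 3 * v ^ 2 * u + v * u ^
    3 * S ^ 3 + 2 * v ^ 2 * u ^ 2 * S ^ 3 + v ^ 2 * u ^ 3 * S ^ 2 + v ^ 3 * u * S ^ 3 + v ^ 3 * u ^
    2 * S ^ 2 - v ^ 3 * u ^ 3 * S + v ^ 4 * u * S ^ 2 + t * v * u ^ 3 * S ^ 2 + t * v ^ 2 * u ^ 3 *
    S - t * v ^ 3 * u ^ 2 * S - t * v ^ 3 * u ^ 3 - 2 * t * v ^ 4 * u * S - t ^ 2 * u ^ 3 * S ^ 2 -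
    t ^ 2 * v ^ 2 * u * S ^ 2 - t ^ 2 * v ^ 2 * u ^ 2 * S + t ^ 2 * v ^ 2 * u ^ 3 - 2 * t ^ 2 * v ^
    3 * u * S + t ^ 2 * v ^ 3 * u ^ 2 - t ^ 2 * v ^ 4 * u + t ^ 3 * v ^ 2 * u * S + t ^ 3 * v ^ 3 *
    S - t ^ 3 * v ^ 3 * u + v ^ 3 * u ^ 3 * S ^ 2 + t * v ^ 2 * u ^ 3 * S ^ 2 + t * v ^ 4 * u * S ^
    2 - t * v ^ 4 * u ^ 3 + t ^ 2 * v * u ^ 3 * S ^ 2 - t ^ 2 * v ^ 3 * u ^ 2 * S + t ^ 3 * v ^ 3 *
    u * S - t ^ 3 * v ^ 4 * u) * h2

theorem k21_c3 {t v u S T : F} (h3 : (3 : F) = 0)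
    (ht : t ≠ 0) (hv : v ≠ 0) (hS : S ≠ 0) (ht1 : t - 1 ≠ 0) (hStv : S - v * t ≠ 0) (huS : u - S ≠
      0) (htv : t * v - 1 ≠ 0)
    (hST : S = v * T)
    (R : S*(t+v+1)-(t*v+t+v) = 0)
    (C1 : (S+t*v)*(u^2+t*S)-t*S*(1+u)*(1+u*v) = 0)
    (C2 : u^2*(S^2-v*S+v^2*S-t*v^2)-t*S^2*u+t*S*(v+t*v-S) = 0)
    (C3 : v*(u^2-t)*(S+t)-(u*v-t)*(u*v+t*S) = 0)
    (C4 : u^2*v*(S+t*S-t*v)-t*v^2*u+t*(t*v^2-t*v*S+t*S-S^2) = 0)
    (F1 : u^2*(v*S-t*S+t*v)+u*v*(S^2-S-t-t^2)+t*S*(S-v+t) = 0)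
    (D1 : u*(v*S^2-v^2*S-t*v+t^2-t^2*S+t^2*v*S)+(v*S-v^2*S+v^2*S^2-t*v*S^2-t^2*S+t^2*v) = 0)
    (hE : k20E t T S v u (T ^ 3) = 0) : False := by
  have r1 : (-1 + t * v * u) = 0 := by
    refine cancel (mul_ne_zero (mul_ne_zero (mul_ne_zero ht ht) huS) hv) ?_
    linear_combination (-v * S + v ^ 2 * S + t * u * S + t * v * S + t ^ 2 * S + t ^ 2 * u - t ^ 2 *
      v - u ^ 2 * S ^ 2 + v * u ^ 2 * S + v * u ^ 3 - v ^ 2 * S ^ 2 - t * u * S ^ 2 - t * u ^ 2 * S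
      + t * v * S ^ 2 - t * v ^ 2 * S + t ^ 2 * u * S - t ^ 2 * u ^ 2 + v * u ^ 4) * R + (-v + v *
      S - t * u - t * v - t ^ 2 + u ^ 2 * S - v * u * S - v ^ 2 * u - t * u ^ 2 - t * v * S - t * v *
      u - t ^ 2 * u - t ^ 2 * v) * C1 + (S - v - u ^ 2 + v * S + v ^ 2 + t * S + t * u + t * v - t *
      u ^ 2 + t * v * S - t ^ 2 * u + t ^ 2 * v) * C2 + (-u - t + u * S - u ^ 2 - v * S - t * S - t *
      u + u ^ 2 * S + v ^ 2 * S + t * S ^ 2 + t * u ^ 2 - t * v * u - t * v ^ 2 + t ^ 2 * S + t ^ 2 *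
      u + t ^ 2 * v + t * u ^ 2 * S + t * v * u * S) * C3 + (S + t - u * S - v * u - t * v + t ^ 2
      - v * u * S - t * v * u - t ^ 2 * u) * C4 + (-S - u + v + t + u * S - u ^ 2 + t * S + t * u +
      t * v - t ^ 2 - u ^ 2 * S - v * u * S + v * u ^ 2 - v ^ 2 * u - t * u * S + t * v * u - t * v ^
      2 - t ^ 2 * S - t ^ 2 * v - t * v * u ^ 2 - t * v ^ 2 * u) * F1 + (S - v + t - u * S + v * S
      + v * u + t * S - t * u + t * v + u ^ 2 * S - v * u ^ 2 - t * v * u) * D1 - (t * v * S - t *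
      S ^ 3 + t * v * S ^ 2 - t * v ^ 2 * S - t ^ 2 * v * u + t ^ 3 * v + t * v * u * S ^ 2 - t * v *
      u ^ 3 + t * v ^ 2 * S ^ 2 - t * v ^ 2 * u * S + t ^ 2 * u * S ^ 2 - t ^ 2 * u ^ 2 * S + t ^ 2 *
      v * u ^ 2 - t ^ 2 * v ^ 2 * u - t ^ 3 * S ^ 2 + t ^ 3 * u * S + t ^ 3 * v ^ 2 + v ^ 2 * u ^ 2 *
      S ^ 2 - v ^ 2 * u ^ 3 * S + t * v * u ^ 2 * S ^ 2 + t * v * u ^ 3 * S - t * v * u ^ 4 - t * v ^
      2 * u * S ^ 2 + t * v ^ 3 * u * S + t * v ^ 3 * u ^ 2 - t ^ 2 * u * S ^ 3 - t ^ 2 * u ^ 2 * S ^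
      2 - t ^ 2 * v * S ^ 3 + 2 * t ^ 2 * v * u * S ^ 2 - t ^ 2 * v ^ 2 * u ^ 2 + t ^ 2 * v ^ 3 * S
      + t ^ 3 * u ^ 2 * S - t ^ 3 * v * S ^ 2 - t ^ 3 * v * u ^ 2 - t ^ 4 * v * S - v ^ 2 * u ^ 3 *
      S ^ 2 - t * v * u ^ 3 * S ^ 2 + t * v * u ^ 4 * S - t * v ^ 3 * u * S ^ 2 + t * v ^ 3 * u ^ 2 *
      S - t ^ 2 * v * u * S ^ 3 + t ^ 2 * v * u ^ 3 * S + t ^ 2 * v ^ 2 * u ^ 2 * S - t ^ 2 * v ^ 2 *
      u ^ 3 + t ^ 3 * u ^ 2 * S ^ 2 - t ^ 3 * v ^ 2 * u ^ 2 - t * v ^ 2 * u ^ 4 * S + t ^ 2 * v * u ^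
      4 * S + t ^ 3 * v ^ 2 * u ^ 3) * h3
  have q1 : (-1 - S - u - v - u * S - u ^ 2 + v * S) = 0 := by
    refine cancel (mul_ne_zero hStv ht1) ?_
    linear_combination (1 - S - u - t * S + t * u - t * v - v * u * S - v ^ 2 * S + v ^ 2 * u - t *
      S ^ 2 - t * v * S + t ^ 2 * S + u ^ 2 * S ^ 2 - v ^ 2 * u * S - t * u * S ^ 2 + t * v ^ 2 *
      u) * R + (1 - v ^ 2 + t * v) * C1 + (-S - v + t - t * S) * C2 + (S - S ^ 2 + t * v - t * v ^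
      2) * C3 + (-1 + t - t * S - t * v) * C4 + (1 + v + v ^ 2 + t * v) * F1 + (1 + v) * D1 + (-v -
      t + S ^ 2 + u * S - v * S + v * u - t * S + t * u - u * S ^ 2 + v * u * S - t * S ^ 2 - t * v *
      S - t * v * u - t * v ^ 2 + t ^ 2 * v + v * u * S ^ 2 - v ^ 3 * u + t * u * S ^ 2 - t * v ^ 2 *
      S) * r1 - (-S ^ 2 - u * S + v * S + t * S - v * u * S + t * S ^ 2 + t * v * S + t * v ^ 2 - t *
      v * S ^ 2 + t * v * u * S + t * v * u ^ 2 - t * v ^ 2 * u - t ^ 2 * v * u - t * v ^ 2 * S ^ 2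
      + t * v ^ 2 * u * S + t * v ^ 2 * u ^ 2 - t * v ^ 3 * u + t ^ 2 * v * S ^ 2 - t ^ 2 * v * u *
      S - t ^ 2 * v ^ 2 * u - t * v * u ^ 2 * S ^ 2 + t * v ^ 2 * u ^ 2 * S + t * v ^ 3 * u * S - t ^
      2 * v ^ 3 * u) * h3
  have q4 : (-1 + S - u + t - u * S - u ^ 2 - t * S + t * v) = 0 := by
    linear_combination (-1) * R + (1) * q1 - (-S) * h3
  have r2 : (1 - v - v * u - t * S + u ^ 3) = 0 := by
    refine cancel hS ?_
    linear_combination (t - u * S + v * S - v * u * S - t ^ 2 * u) * R + (-1 + S + u) * C1 + (-1) *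
      C2 + (-t) * C3 + (-1 + S + u) * C4 + (v) * F1 + (-t) * D1 + (-1 - S - u + u * S - u ^ 2 + v *
      S + t * S - t * u - t ^ 2 + v * u * S + v * u ^ 2 + t ^ 2 * S) * r1 + (1 + S + u - v * S + t *
      S - t * v + t * v * S + t ^ 2 * v) * q1 + (S - u - v + t * S - t * v + v * u * S + t * v * S) *
      q4 - (-S - 2 * u * S - u * S ^ 2 - u ^ 2 * S + v * S ^ 2 + v * u * S - t * v * S - t ^ 2 * v
      - t * u * S ^ 2 - t * u ^ 2 * S + t * v * S ^ 2 + t * v * u * S - t * v ^ 2 * S + t ^ 2 * v *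
      S - t ^ 2 * v ^ 2 - 2 * t * v * u * S ^ 2 - t * v * u ^ 2 * S + t * v ^ 2 * u * S + t * v ^ 2 *
      u ^ 2 - t ^ 2 * v * u ^ 2 + t ^ 2 * v ^ 2 * S) * h3
  have q3 : (1 + u - v + S ^ 2 + u * S + u ^ 2 - t * S + t * u) = 0 := by
    refine cancel htv ?_
    linear_combination (-1 + S - u * S - u ^ 2 - t * S + t * v + v * u ^ 2) * R + (-1) * C1 + (-1) *
      C3 + (1) * C4 + (-1 + u - v) * F1 + (-u + u * S - u ^ 2 + t * u - t * v) * r1 + (-S + t - t *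
      u + t * v + v * u * S + t * u ^ 2) * q1 + (-u + v) * q4 + (-1 - t * S + t * u) * r2 - (u + S ^
      2 + u ^ 2 - t * S - t * S ^ 2 + t * u * S + t * v * S - t * v * u - v * u * S ^ 2 - v * u ^ 2 *
      S - t * v * S ^ 2 - 3 * t * v * u ^ 2 + t * v ^ 2 * S - t * u ^ 3 * S + 2 * t * v * u ^ 2 * S
      - t * v ^ 2 * u ^ 2) * h3
  have q2 : (-1 - S - u + v - t + v * u + v ^ 2) = 0 := by
    linear_combination (1 + S) * R + (-1) * F1 + (-1 + u - t) * r1 + (1 - u + u * S + u ^ 2) * q1 +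
      (-S) * q4 + (-1 + S - t) * r2 + (-v + u ^ 2) * q3 - (S - v - v * u * S - v * u ^ 2) * h3
  have q5 : (-1 + u + t - S ^ 2 - u * S - u ^ 2 - v * u - t * S + t ^ 2) = 0 := by
    refine cancel huS ?_
    linear_combination (-1 + S - u) * R + (-1 + S - u - v + t) * q3 + (-1) * q2 - (t - u ^ 2 - v *
      S - v * u * S + t * u * S) * h3
  have hv0 := hv
  have hR : t * (v + 1 - S) = S * (v + 1) - v := by linear_combination -R
  have hT : T = (-1 + S + u + v - t + u ^ 2 - v * u - t * S) := by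
    refine sub_eq_zero.1 (cancel hv0 ?_)
    linear_combination -hST - (1 - S + u - t) * q1 - (-1 - u + t) * q2 - (-u + v) * q3 - (1 - u - v) *
      q4 - (1) * q5 - (-1) * r1 - (1) * r2 - (-S - t + u * S + u ^ 2 + v * u + v ^ 2 + t * S - t *
      v - v * u * S - t * u * S) * h3
  have g1 : t * (v + 1 - S) = (1 - S + u + u * S + u ^ 2) := by
    linear_combination hR + (1) * q1 + (S) * h3
  have g2 : S * v = (1 + S + u + v + u * S + u ^ 2) := by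
    linear_combination (1) * q1
  have g3 : t ^ 2 = (1 - u - t + S ^ 2 + u * S + u ^ 2 + v * u + t * S) := by
    linear_combination (1) * q5
  have g4 : S * v * t ^ 2 = (S + u + v + t - u * S - v * u - t * S) := by
    linear_combination ((t ^ 2)) * g2 + (1 + S + u + v + u * S + u ^ 2) * g3 + (-S - u + v - v * S
      - v * u + t ^ 2) * q1 + (S - v * u - t * S) * q2 + (-u + u * S - v * u - t * u) * q3 + (1 + S
      + v + t + t * v) * q4 + (-S + u - v - u ^ 2 - v ^ 2) * q5 + (S - u) * r1 + (-1 + t) * r2 + (1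
      - t + u * S - v * S + u * S ^ 2 + u ^ 3 + v * u ^ 2 - v ^ 2 * S + t * u ^ 2 + t ^ 2 * S + t *
      u * S ^ 2 + t * v * u ^ 2 + t ^ 2 * u ^ 2) * h3
  have g5 : 1 + t + t ^ 2 = (-1 - u + S ^ 2 + u * S + u ^ 2 + v * u + t * S) := by
    linear_combination g3 + (1) * h3
  have g6 : v ^ 2 = (1 + S + u - v + t - v * u) := by
    linear_combination (1) * q2
  have g7 : v ^ 2 - (v + 1 - S) = (-S + u + v + t - v * u) := by
    linear_combination g6 + (S - v) * h3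
  have g8 : (1 + t + t ^ 2) * (v ^ 2 - (v + 1 - S)) = (-1 - u + v - u ^ 2 + t * S) := by
    linear_combination ((v ^ 2 - (v + 1 - S))) * g5 + (-1 - u + S ^ 2 + u * S + u ^ 2 + v * u + t *
      S) * g7 + (-1 - u + t) * q1 + (-S - u + t) * q3 + (-S + u + t) * q4 + (-1 - u - v + v * u) *
      q5 + (-1 - t) * r1 + (1) * r2 + (-1 - v - u * S + t * v - t * S ^ 2 + t * u * S + t * u ^ 2 +
      t ^ 2 * S) * h3
  have g9 : (v - 1) * (v + 1 - S) = (-1 + S + v + t - u * S - u ^ 2 - v * u) := by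
    linear_combination (-1) * q1 + (1) * q2 + (-v) * h3
  have g10 : (1 + t + t ^ 2) * (v ^ 2 - (v + 1 - S)) - (v - 1) * (v + 1 - S) = (-S - u - t + u * S + v * u + t * S) := by
    linear_combination g8 - g9
  have g11 : u * ((1 + t + t ^ 2) * (v ^ 2 - (v + 1 - S)) - (v - 1) * (v + 1 - S)) = (v * u - t * S) := by
    linear_combination (u) * g10 + (-1 - u) * q1 + (1 + u) * q2 + (-1 - S - u + v) * q3 + (-1 - S -
      t) * q4 + (1 - S + v) * q5 + (-1) * r1 + (-v + S ^ 2 - 2 * v * u + t * S - t * S ^ 2 + t * v *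
      S) * h3
  have g12 : u ^ 2 = (u ^ 2) := by
    ring
  have g13 : u ^ 2 * v = (1 + u + v - u ^ 2 - v * u) := by
    linear_combination (v) * g12 + (-1 - S + u - v - t) * q1 + (S - t) * q2 + (-1 - u + v) * q3 +
      (-1 - u + v) * q4 + (-1) * q5 + (1) * r1 + (1) * r2 + (-1 - v - v * S - t * S - v * u * S - t *
      u * S + t * v * S) * h3
  have g14 : S * v * t ^ 2 + u * ((1 + t + t ^ 2) * (v ^ 2 - (v + 1 - S)) - (v - 1) * (v + 1 - S)) - u ^ 2 * v = (-1 + S + t - u * S + u ^ 2 + v * u + t * S) := by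
    linear_combination g4 + g11 - g13 + (-t * S) * h3
  have g15 : (1 + t + t ^ 2) * (t * (v + 1 - S)) = (-1 + u + v + S ^ 2 + u * S - u ^ 2) := by
    linear_combination ((t * (v + 1 - S))) * g5 + (-1 - u + S ^ 2 + u * S + u ^ 2 + v * u + t * S) *
      g1 + (-1 - u + t - t * S + t * u + t ^ 2) * q1 + (t) * q2 + (-S - v + t * u + t * v) * q3 +
      (-t - u * S) * q4 + (u - v - u * S) * q5 + (1 - S - u - t) * r1 + (u + v) * r2 + (-2 * u - v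
      - u * S - u ^ 2 + v * u + t * S + t ^ 2 + u * S ^ 2 + v * u ^ 2 - t * S ^ 2 + 2 * t * u * S -
      t * v * S + t ^ 2 * v - t * u * S ^ 2 + t ^ 2 * u * S) * h3
  have g16 : (((1 + t + t ^ 2) * (t * (v + 1 - S)))) * ((S * v * t ^ 2 + u * ((1 + t + t ^ 2) * (v ^ 2 - (v + 1 - S)) - (v - 1) * (v + 1 - S)) - u ^ 2 * v)) = (-S + v - t - u ^ 2 + v * u) := by
    linear_combination ((S * v * t ^ 2 + u * ((1 + t + t ^ 2) * (v ^ 2 - (v + 1 - S)) - (v - 1) *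
      (v + 1 - S)) - u ^ 2 * v)) * g15 + (-1 + u + v + S ^ 2 + u * S - u ^ 2) * g14 + (1 - S + u) *
      q1 + (u) * q2 + (1 - S + u + t - S ^ 2 - t * S) * q3 + (-1 + u - u * S + v * u) * q4 + (S - u
      - S ^ 2 + u * S) * q5 + (1 - S - v) * r1 + (1 - S - u) * r2 + (S - S ^ 2 + u ^ 2 - v * S + t *
      v + S ^ 3 + u * S ^ 2 - u ^ 2 * S - v * u * S + t * u * S - t * u ^ 2 - t * v * u + u ^ 3 * S
      + v * u ^ 2 * S + t * u * S ^ 2 + t * v * u * S) * h3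
  have g17 : T ^ 2 = (-1 - u + v + t + u * S + u ^ 2 + t * S) := by
    linear_combination (T) * hT + (-1 + S + u + v - t + u ^ 2 - v * u - t * S) * hT + (1 + S + v -
      t - v ^ 2 + t ^ 2) * q1 + (1 - v + u * S + v * S) * q2 + (1 - u + t + u * S) * q3 + (-S - u +
      t - u * S - t * S) * q4 + (1 + u * S + u ^ 2) * q5 + (1 - u - v) * r2 + (1 + S ^ 2 + u * S +
      v * S + v * u - t * u - t * v + u * S ^ 2 - v ^ 2 * S - v ^ 2 * u - t * S ^ 2 - 2 * t * u * S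
      - t * u ^ 2 + t * v * u + 2 * t ^ 2 * S + u ^ 4 - v ^ 2 * u * S - t * u ^ 2 * S + t * v * u *
      S) * h3
  have g18 : t * T = (S + u - S ^ 2 + u * S - u ^ 2 - v * u - t * S) := by
    linear_combination (t) * hT + (-1 + u) * q1 + (-t) * q2 + (1 + t) * q3 + (-1 + S - u + v) * q4
      + (1 - u) * q5 + (1) * r1 + (-1) * r2 + (-2 * u - t + v * u + t * v - t ^ 2 - t * u * S) * h3
  have g19 : t ^ 2 + t * T + T ^ 2 = (S - u + v + u ^ 2 + t * S) := by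
    linear_combination g3 + g18 + g17 + (u * S) * h3
  have g20 : S ^ 2 = (S ^ 2) := by
    ring
  have g21 : v ^ 2 - v - 1 = (S + u + v + t - v * u) := by
    linear_combination g6 + (-v) * h3
  have g22 : S * (v ^ 2 - v - 1) = (-S + v - t - S ^ 2 + u * S + v * u - t * S) := by
    linear_combination (S) * g21 + (S - u + t) * q1 + (-1 + t) * q2 + (1 + u - v) * q3 + (1 + u -
      v) * q4 + (1) * q5 + (-1) * r1 + (-1) * r2 + (-u + S ^ 2 + v * S + 2 * t * S + t * u * S - t *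
      v * S) * h3
  have g23 : S ^ 2 + S * (v ^ 2 - v - 1) + v = (-S - v - t + u * S + v * u - t * S) := by
    linear_combination g20 + g22 + (v) * h3
  have g24 : S * (t * (v + 1 - S)) = (1 + u - v - t + u * S - v * u - t * S) := by
    linear_combination (S) * g1 + (-u - v + t) * q1 + (-1 + S - t) * q2 + (-1 + u) * q3 + (1 + u +
      v) * q4 + (-1) * q5 + (-1) * r2 + (-v * S + t * u * S) * h3
  have g25 : u * (S ^ 2 + S * (v ^ 2 - v - 1) + v) = (-1 + S + u + v - t - u ^ 2 - v * u + t * S) := by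
    linear_combination (u) * g23 + (1 + u - v) * q1 + (-1 + S) * q2 + (1) * q3 + (u) * q4 + (-1) *
      r1 + (-1) * r2 + (u ^ 2 - v * S - t * u + u ^ 2 * S + u ^ 3 - v * u * S) * h3
  have g26 : S * (t * (v + 1 - S)) + u * (S ^ 2 + S * (v ^ 2 - v - 1) + v) = (S - u + t + u * S - u ^ 2 + v * u) := by
    linear_combination g24 + g25 + (u - t - v * u) * h3
  have g27 : (u) * ((S * (t * (v + 1 - S)) + u * (S ^ 2 + S * (v ^ 2 - v - 1) + v))) = (-S + t + S ^ 2 + v * u + t * S) := by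
    linear_combination (u) * g26 + (v) * q1 + (-S - u) * q2 + (-1 + S + u - v) * q3 + (1 + S - u +
      t) * q4 + (-1 + S - v) * q5 + (-1) * r1 + (-S ^ 2 - u ^ 2 + v * S + v * u - 2 * t * S + t * u
      - u ^ 3 + v * u * S + v * u ^ 2 + t * S ^ 2 - t * v * S + t * v * u) * h3
  have g28 : ((t ^ 2 + t * T + T ^ 2)) * (((u) * ((S * (t * (v + 1 - S)) + u * (S ^ 2 + S * (v ^ 2 - v - 1) + v))))) = (1 + v - t + S ^ 2 + u ^ 2) := by
    linear_combination (((u) * ((S * (t * (v + 1 - S)) + u * (S ^ 2 + S * (v ^ 2 - v - 1) + v))))) *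
      g19 + (S - u + v + u ^ 2 + t * S) * g27 + (-S + v + u * S - t * u) * q1 + (1 - S + u) * q2 +
      (1 + S - u - v - t + S ^ 2) * q3 + (-u + t + u * S) * q4 + (-1 + u - v + S ^ 2) * q5 + (S) *
      r1 + (1 - S + v - t) * r2 + (-1 + u + 2 * t - 2 * S ^ 2 - u ^ 2 - u * S ^ 2 + v * S ^ 2 + v *
      u * S - t * u * S + t * u ^ 2 + u ^ 2 * S ^ 2 + u ^ 3 * S + t * S ^ 3) * h3
  have g29 : ((((1 + t + t ^ 2) * (t * (v + 1 - S)))) * ((S * v * t ^ 2 + u * ((1 + t + t ^ 2) * (v ^ 2 - (v + 1 - S)) - (v - 1) * (v + 1 - S)) - u ^ 2 * v))) + (((t ^ 2 + t * T + T ^ 2)) * (((u) * ((S * (t * (v + 1 - S)) + u * (S ^ 2 + S * (v ^ 2 - v - 1) + v)))))) = (1 - S - v + t + S ^ 2 + v * u) := by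
    linear_combination g16 + g28 + (v - t) * h3
  have g30 : T ^ 3 = (1 + S - u + v - S ^ 2 - v * u) := by
    linear_combination ((T ^ 2)) * hT + (-1 + S + u + v - t + u ^ 2 - v * u - t * S) * g17 + (-1 +
      S - u * S - u ^ 2) * q1 + (-S + u - u * S + t * S) * q2 + (-u + t - u ^ 2 - v * S) * q3 + (-1
      - v * S + t * S) * q4 + (-1 - u - v * S) * q5 + (-S) * r1 + (u - v + t) * r2 + (-1 - S - v -
      2 * u * S - u ^ 2 + v * S + t * u + t * v + v * u * S - v ^ 2 * u - t * v * S ^ 2) * h3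
  have g31 : ((T ^ 3)) * ((((((1 + t + t ^ 2) * (t * (v + 1 - S)))) * ((S * v * t ^ 2 + u * ((1 + t + t ^ 2) * (v ^ 2 - (v + 1 - S)) - (v - 1) * (v + 1 - S)) - u ^ 2 * v))) + (((t ^ 2 + t * T + T ^ 2)) * (((u) * ((S * (t * (v + 1 - S)) + u * (S ^ 2 + S * (v ^ 2 - v - 1) + v)))))))) = (-1 - S + u + t - u * S - u ^ 2 - v * u - t * S) := by
    linear_combination ((((((1 + t + t ^ 2) * (t * (v + 1 - S)))) * ((S * v * t ^ 2 + u * ((1 + t +
      t ^ 2) * (v ^ 2 - (v + 1 - S)) - (v - 1) * (v + 1 - S)) - u ^ 2 * v))) + (((t ^ 2 + t * T + T ^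
      2)) * (((u) * ((S * (t * (v + 1 - S)) + u * (S ^ 2 + S * (v ^ 2 - v - 1) + v)))))))) * g30 +
      (1 + S - u + v - S ^ 2 - v * u) * g29 + (-S + v + t - u * S - u ^ 2 - v * S - t * S) * q1 +
      (1 + S - t + S ^ 2 - u ^ 2) * q2 + (1 - S - S ^ 2 - u * S) * q3 + (-1 + u + v + S ^ 2 + u *
      S) * q4 + (-1) * q5 + (-1 - S) * r1 + (-1 - u + v) * r2 + (S + t - u ^ 2 - 2 * v * S - t * u
      + t * v + S ^ 3 - v ^ 2 * S + v ^ 2 * u - t * S ^ 2 + u * S ^ 3 + u ^ 2 * S ^ 2 - v * u * S ^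
      2) * h3
  have g32 : S ^ 2 * v = (-1 + S - u - t - S ^ 2 - u * S + u ^ 2 - v * u - t * S) := by
    linear_combination (v) * g20 + (1 + S - u - v + t) * q1 + (-1 + S - t) * q2 + (-1 + u) * q3 +
      (1 + u + v) * q4 + (-1) * q5 + (-1) * r2 + (1 + u + S ^ 2 + u * S - v * S + t * u * S) * h3
  have g33 : 1 - v - v ^ 2 = (-S - u - t + v * u) := by
    linear_combination -g6
  have g34 : S * (1 - v - v ^ 2) = (1 - S + u + t + S ^ 2 + u ^ 2 - v * u + t * S) := by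
    linear_combination (S) * g33 + (1 - S + u - t) * q1 + (1 - t) * q2 + (-1 - u + v) * q3 + (-1 -
      u + v) * q4 + (-1) * q5 + (1) * r1 + (1) * r2 + (S + u - S ^ 2 - v * S - 2 * t * S - t * u *
      S + t * v * S) * h3
  have g35 : S ^ 2 * v + S * (1 - v - v ^ 2) + v ^ 2 = (1 + S + u - v + t - u * S - u ^ 2) := by
    linear_combination g32 + g34 + g6 + (u ^ 2 - v * u) * h3
  have g36 : u * v = (v * u) := by
    ring
  have g37 : (v + 1 - S) * (u * v) = (S + u - t - u * S - v * u - t * S) := by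
    linear_combination (1 - S + v) * g36 + (-S + u + v - t) * q1 + (-1 - S + u - t) * q2 + (-u + v) *
      q3 + (-1 - u + v) * q4 + (-1) * q5 + (1) * r1 + (1) * r2 + (-1 - S + v - S ^ 2 + v * u + v ^
      2 - t * S - t * u * S + t * v * S) * h3
  have g38 : (S ^ 2 * v + S * (1 - v - v ^ 2) + v ^ 2) + ((v + 1 - S) * (u * v)) = (1 - S - u - v + u * S - u ^ 2 - v * u - t * S) := by
    linear_combination g35 + g37 + (S + u - u * S) * h3
  have g39 : t ^ 3 = (-1 - S + v + S ^ 2 - u ^ 2 + v * u + t * S) := by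
    linear_combination (t) * g3 + (t) * q1 + (-1 - u) * q2 + (-u - v + t) * q3 + (t) * q4 + (1 - u
      - v) * q5 + (-1) * r1 + (-u + u ^ 2 + v * u + t * v - t ^ 2 + t * u ^ 2 - t * v * S + t * v *
      u + t ^ 2 * S) * h3
  have g40 : S * t ^ 3 = (1 + S - u - v - t + u ^ 2 + v * u) := by
    linear_combination (S) * g39 + (-1 + S + u + t) * q1 + (u) * q2 + (1) * q3 + (-t) * q4 + (1 - S
      + v) * q5 + (1) * r2 + (-1 - S + v + u * S + v * S + 2 * t * S) * h3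
  have g41 : ((S * t ^ 3)) * ((t ^ 2 + t * T + T ^ 2)) = (-1 - S - v - v * u + t * S) := by
    linear_combination ((t ^ 2 + t * T + T ^ 2)) * g40 + (1 + S - u - v - t + u ^ 2 + v * u) * g19
      + (-1 + u - t - t * u) * q1 + (-u + t) * q2 + (-1 + S) * q3 + (-v) * q4 + (1 + S) * q5 + (-S) *
      r1 + (-1 + u + v - t) * r2 + (1 - u - v + S ^ 2 - u * S + u ^ 2 + v * S + v * u - t * S - t *
      v + u ^ 2 * S + v ^ 2 * u + t * S ^ 2 - t * u * S - t * u ^ 2 - t * v * u - t ^ 2 * S + t * v *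
      u * S) * h3
  have g42 : ((((S * t ^ 3)) * ((t ^ 2 + t * T + T ^ 2)))) * (((S ^ 2 * v + S * (1 - v - v ^ 2) + v ^ 2) + ((v + 1 - S) * (u * v)))) = (-u - t + S ^ 2 + u * S - v * u) := by
    linear_combination (((S ^ 2 * v + S * (1 - v - v ^ 2) + v ^ 2) + ((v + 1 - S) * (u * v)))) *
      g41 + (-1 - S - v - v * u + t * S) * g38 + (-1 - S - u - v - t + u * S - t * S + t * u) * q1
      + (-1 + S + u + t) * q2 + (-1 - u - t + v * u + t * v) * q3 + (1 + S + u + t - u * S + t * S) *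
      q4 + (u - v - v * u) * q5 + (-S + u) * r1 + (-1 - v + t) * r2 + (-S + 2 * u - v + u ^ 2 - v *
      u + t * u - t * v + u * S ^ 2 + u ^ 2 * S + u ^ 3 + t * u * S + t * u ^ 2 - t * v * S - v * u *
      S ^ 2 - v * u ^ 2 * S - t * v * u ^ 2) * h3
  have g43 : (((T ^ 3)) * ((((((1 + t + t ^ 2) * (t * (v + 1 - S)))) * ((S * v * t ^ 2 + u * ((1 + t + t ^ 2) * (v ^ 2 - (v + 1 - S)) - (v - 1) * (v + 1 - S)) - u ^ 2 * v))) + (((t ^ 2 + t * T + T ^ 2)) * (((u) * ((S * (t * (v + 1 - S)) + u * (S ^ 2 + S * (v ^ 2 - v - 1) + v))))))))) - (((((S * t ^ 3)) * ((t ^ 2 + t * T + T ^ 2)))) * (((S ^ 2 * v + S * (1 - v - v ^ 2) + v ^ 2) + ((v + 1 - S) * (u * v))))) = (-1 - S - u - t - S ^ 2 + u * S - u ^ 2 - t * S) := by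
    linear_combination g31 - g42 + (u + t - u * S) * h3
  have hE0 : (-1 - S - u - t - S ^ 2 + u * S - u ^ 2 - t * S) = 0 := by
    rw [k20E] at hE
    linear_combination hE - g43
  have h1 : (1 : F) = 0 := by
    linear_combination (1 - S + v + t - S ^ 2 - u * S + u ^ 2 - v * u) * hE0 - (S + t + u * S - u ^
      2 - t * S) * q1 - (u) * q2 - (1 - v + t + S ^ 2 + u ^ 2) * q3 - (S ^ 2 + u * S + u ^ 2) * q4
      - (-1 - S - u) * q5 - (1 - u) * r1 - (u + v - t) * r2 - (-1 - u + 2 * u * S - u ^ 2 - u ^ 3 +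
      v * u * S - t * S ^ 2 - t * u ^ 2 - t * v * S + u ^ 3 * S - u ^ 4 + t * S ^ 3) * h3
  exact one_ne_zero h1

end Pool.Agent.Helper43.IPL
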