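import Pool.Agent.Helper76.IP.K2RowAlg

/-!
TH-P, K2-1, letter 0: `F54` at the points of characteristic 953 and 257.
-/

namespace Pool.Agent.Helper43.IPL

open Pool.Agent.Helper76.IP

variable {F : Type*} [Field F]

private theorem cancel {a b : F} (ha : a ≠ 0) (h : a * b = 0) : b = 0 :=
  (mul_eq_zero.1 h).resolve_left ha

theorem k21_F54_953 {t v u S r : F} (hp : (953 : F) = 0) (ht0 : t ≠ 0) (hv0 : v ≠ 0) (hr0 : r ≠ 0)
    (hq : t ^ 2 - (-96) * t - (-1) = 0) (hv : v = (475 - 337 * t)) (hu : u = (-108 - 6 * t)) (hS : S = (161 + 92 * t))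
    (hrS : v * t * r = S) (hF : k2F t r S v u (t ^ 4) (r ^ 4) = 0) : False := by
  have k1 : v * t = (337 + 425 * t) := by
    linear_combination (t) * hv + (-337) * hq + (34 * t) * hp
  have k2 : ((v * t)) * ((192 - 254 * t)) = (161 + 92 * t) := by
    linear_combination ((192 - 254 * t)) * k1 + (-261) * hq + (68 + 22 * t - 113 * t ^ 2) * hp
  have hr : r = (192 - 254 * t) := by
    refine sub_eq_zero.1 (cancel (mul_ne_zero hv0 ht0) ?_)
    linear_combination hrS + hS - k2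
  have k3 : t ^ 2 = (-1 - 96 * t) := by
    linear_combination (1) * hq
  have k4 : t ^ 3 = (96 - 315 * t) := by
    linear_combination (t) * k3 + (-96) * hq + (10 * t) * hp
  have k5 : t ^ 6 = (-427 + 147 * t) := by
    linear_combination ((t ^ 3)) * k4 + (96 - 315 * t) * k4 + (113) * hq + (10 - 75 * t + 104 * t ^
      2) * hp
  have k6 : t ^ 7 = (-147 - 244 * t) := by
    linear_combination (t) * k5 + (147) * hq + (-15 * t) * hp
  have k7 : r ^ 2 = (-15 - 319 * t) := by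
    linear_combination (r) * hr + (192 - 254 * t) * hr + (-288) * hq + (39 - 73 * t + 68 * t ^ 2) *
      hp
  have k8 : r ^ 4 = (435 + 187 * t) := by
    linear_combination ((r ^ 2)) * k7 + (-15 - 319 * t) * k7 + (-210) * hq + (31 * t + 107 * t ^ 2) *
      hp
  have k9 : r ^ 3 = (-42 - 368 * t) := by
    linear_combination ((r ^ 2)) * hr + (192 - 254 * t) * k7 + (21) * hq + (-3 - 62 * t + 85 * t ^
      2) * hp
  have k10 : r ^ 7 = (37 - 66 * t) := by
    linear_combination ((r ^ 4)) * k9 + (-42 - 368 * t) * k8 + (-200) * hq + (-19 - 156 * t - 72 *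
      t ^ 2) * hp
  have k11 : v + 1 - S = (315 - 429 * t) := by
    linear_combination hv - hS
  have k12 : v ^ 2 = (-398 - 246 * t) := by
    linear_combination (v) * hv + (475 - 337 * t) * hv + (162) * hq + (237 - 352 * t + 119 * t ^ 2) *
      hp
  have k13 : S ^ 2 = (303 + 446 * t) := by
    linear_combination (S) * hS + (161 + 92 * t) * hS + (-113) * hq + (27 + 42 * t + 9 * t ^ 2) *
      hp
  have k14 : u ^ 2 = (192 - 254 * t) := by
    linear_combination (u) * hu + (-108 - 6 * t) * hu + (36) * hq + (12 - 2 * t) * hp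
  have k15 : S ^ 2 * v = (-250 - 237 * t) := by
    linear_combination (v) * k13 + (303 + 446 * t) * hv + (272) * hq + (151 + 88 * t - 158 * t ^ 2) *
      hp
  have k16 : 1 - v - v ^ 2 = (-76 - 370 * t) := by
    linear_combination -hv - k12 + (t) * hp
  have k17 : S * (1 - v - v ^ 2) = (-115 + 151 * t) := by
    linear_combination ((1 - v - v ^ 2)) * hS + (161 + 92 * t) * k16 + (268) * hq + (-13 - 97 * t -
      36 * t ^ 2) * hp
  have k18 : S ^ 2 * v + S * (1 - v - v ^ 2) + v ^ 2 = (190 - 332 * t) := by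
    linear_combination k15 + k17 + k12 + (-1) * hp
  have k19 : v ^ 2 - v - 1 = (79 + 91 * t) := by
    linear_combination k12 - hv + (-1) * hp
  have k20 : S * (v ^ 2 - v - 1) = (-418 - 333 * t) := by
    linear_combination ((v ^ 2 - v - 1)) * hS + (161 + 92 * t) * k19 + (-205) * hq + (14 + 44 * t +
      9 * t ^ 2) * hp
  have k21 : S ^ 2 + S * (v ^ 2 - v - 1) + v = (360 - 224 * t) := by
    linear_combination k13 + k20 + hv
  have k22 : t - 1 = (-1 + t) := by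
    ring
  have k23 : (t - 1) * S = (-253 - 186 * t) := by
    linear_combination (S) * k22 + (-1 + t) * hS + (92) * hq + (-9 * t) * hp
  have k24 : v * (v + 1 - S) = (287 + 279 * t) := by
    linear_combination ((v + 1 - S)) * hv + (475 - 337 * t) * k11 + (-283) * hq + (157 - 297 * t +
      152 * t ^ 2) * hp
  have k25 : t ^ 6 * r ^ 4 = (238 + 210 * t) := by
    linear_combination ((r ^ 4)) * k5 + (-427 + 147 * t) * k8 + (-148) * hq + (-195 - 2 * t + 29 *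
      t ^ 2) * hp
  have k26 : ((t ^ 6 * r ^ 4)) * ((v * (v + 1 - S))) = (186 - 111 * t) := by
    linear_combination ((v * (v + 1 - S))) * k25 + (238 + 210 * t) * k24 + (457) * hq + (71 + 87 *
      t + 61 * t ^ 2) * hp
  have k27 : ((t ^ 2)) * ((S ^ 2 * v + S * (1 - v - v ^ 2) + v ^ 2)) = (340 - 383 * t) := by
    linear_combination ((S ^ 2 * v + S * (1 - v - v ^ 2) + v ^ 2)) * k3 + (-1 - 96 * t) * k18 +
      (423) * hq + (-1 - 61 * t + 33 * t ^ 2) * hp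
  have k28 : (((t ^ 6 * r ^ 4)) * ((v * (v + 1 - S)))) - (((t ^ 2)) * ((S ^ 2 * v + S * (1 - v - v ^ 2) + v ^ 2))) = (-154 + 272 * t) := by
    linear_combination k26 - k27
  have k29 : (((t - 1) * S)) * (((((t ^ 6 * r ^ 4)) * ((v * (v + 1 - S)))) - (((t ^ 2)) * ((S ^ 2 * v + S * (1 - v - v ^ 2) + v ^ 2))))) = (-28 + 198 * t) := by
    linear_combination (((((t ^ 6 * r ^ 4)) * ((v * (v + 1 - S)))) - (((t ^ 2)) * ((S ^ 2 * v + S *
      (1 - v - v ^ 2) + v ^ 2))))) * k23 + (-253 - 186 * t) * k28 + (-83) * hq + (41 - 34 * t - 53 *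
      t ^ 2) * hp
  have k30 : t ^ 7 * r ^ 4 = (-210 + 91 * t) := by
    linear_combination ((r ^ 4)) * k6 + (-147 - 244 * t) * k8 + (116) * hq + (-67 - 152 * t - 48 *
      t ^ 2) * hp
  have k31 : v ^ 2 - (v + 1 - S) = (240 + 183 * t) := by
    linear_combination k12 - k11 + (-1) * hp
  have k32 : ((t ^ 7 * r ^ 4)) * ((v ^ 2 - (v + 1 - S))) = (-343 + 57 * t) := by
    linear_combination ((v ^ 2 - (v + 1 - S))) * k30 + (-210 + 91 * t) * k31 + (452) * hq + (-53 -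
      63 * t + 17 * t ^ 2) * hp
  have k33 : v ^ 2 + v - 1 = (76 + 370 * t) := by
    linear_combination k12 + hv + (-t) * hp
  have k34 : S * (v ^ 2 + v - 1) = (115 - 151 * t) := by
    linear_combination ((v ^ 2 + v - 1)) * hS + (161 + 92 * t) * k33 + (-268) * hq + (13 + 97 * t +
      36 * t ^ 2) * hp
  have k35 : S * (v ^ 2 + v - 1) - v ^ 2 = (-440 + 95 * t) := by
    linear_combination k34 - k12 + (1) * hp
  have k36 : ((r ^ 4)) * ((S * (v ^ 2 + v - 1) - v ^ 2)) = (-458 + 454 * t) := by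
    linear_combination ((S * (v ^ 2 + v - 1) - v ^ 2)) * k8 + (435 + 187 * t) * k35 + (-342) * hq +
      (-200 - 9 * t + 19 * t ^ 2) * hp
  have k37 : t ^ 3 * r ^ 7 = (-84 - 142 * t) := by
    linear_combination ((r ^ 7)) * k4 + (96 - 315 * t) * k10 + (-176) * hq + (4 - t + 22 * t ^ 2) *
      hp
  have k38 : v * t ^ 2 = (-425 - 437 * t) := by
    linear_combination ((t ^ 2)) * hv + (475 - 337 * t) * k3 + (-50) * hq + (-42 * t + 34 * t ^ 2) *
      hp
  have k39 : t ^ 3 * r ^ 7 - v * t ^ 2 = (341 + 295 * t) := by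
    linear_combination k37 - k38
  have k40 : (((t - 1) * S)) * ((t ^ 3 * r ^ 7 - v * t ^ 2)) = (46 + 413 * t) := by
    linear_combination ((t ^ 3 * r ^ 7 - v * t ^ 2)) * k23 + (-253 - 186 * t) * k39 + (404) * hq +
      (-91 - 186 * t - 58 * t ^ 2) * hp
  have k41 : (((t ^ 7 * r ^ 4)) * ((v ^ 2 - (v + 1 - S)))) - (((r ^ 4)) * ((S * (v ^ 2 + v - 1) - v ^ 2))) + ((((t - 1) * S)) * ((t ^ 3 * r ^ 7 - v * t ^ 2))) = (161 + 16 * t) := by
    linear_combination k32 - k36 + k40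
  have k42 : (v + 1 - S) * u = (-380 + 327 * t) := by
    linear_combination (u) * k11 + (315 - 429 * t) * hu + (-285) * hq + (-35 + 75 * t + 3 * t ^ 2) *
      hp
  have k43 : (((((t ^ 7 * r ^ 4)) * ((v ^ 2 - (v + 1 - S)))) - (((r ^ 4)) * ((S * (v ^ 2 + v - 1) - v ^ 2))) + ((((t - 1) * S)) * ((t ^ 3 * r ^ 7 - v * t ^ 2))))) * (((v + 1 - S) * u)) = (298 - 171 * t) := by
    linear_combination (((v + 1 - S) * u)) * k41 + (161 + 16 * t) * k42 + (467) * hq + (-65 + 2 * t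
      + 5 * t ^ 2) * hp
  have k44 : t ^ 2 * r ^ 7 = (298 + 84 * t) := by
    linear_combination ((r ^ 7)) * k3 + (-1 - 96 * t) * k10 + (-335) * hq + (30 * t + 7 * t ^ 2) *
      hp
  have k45 : ((t ^ 2 * r ^ 7)) * ((S ^ 2 + S * (v ^ 2 - v - 1) + v)) = (300 + 103 * t) := by
    linear_combination ((S ^ 2 + S * (v ^ 2 - v - 1) + v)) * k44 + (298 + 84 * t) * k21 + (244) *
      hq + (112 - 63 * t - 20 * t ^ 2) * hp
  have k46 : ((r ^ 4)) * ((v * (v + 1 - S))) = (244 + 42 * t) := by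
    linear_combination ((v * (v + 1 - S))) * k8 + (435 + 187 * t) * k24 + (-242) * hq + (131 + 208 *
      t + 55 * t ^ 2) * hp
  have k47 : (((t ^ 2 * r ^ 7)) * ((S ^ 2 + S * (v ^ 2 - v - 1) + v))) - (((r ^ 4)) * ((v * (v + 1 - S)))) = (56 + 61 * t) := by
    linear_combination k45 - k46
  have k48 : (t - 1) * u ^ 2 = (62 + 52 * t) := by
    linear_combination ((u ^ 2)) * k22 + (-1 + t) * k14 + (-254) * hq + (26 * t) * hp
  have k49 : (((t - 1) * u ^ 2)) * (((((t ^ 2 * r ^ 7)) * ((S ^ 2 + S * (v ^ 2 - v - 1) + v))) - (((r ^ 4)) * ((v * (v + 1 - S)))))) = (300 + 471 * t) := by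
    linear_combination (((((t ^ 2 * r ^ 7)) * ((S ^ 2 + S * (v ^ 2 - v - 1) + v))) - (((r ^ 4)) *
      ((v * (v + 1 - S)))))) * k48 + (62 + 52 * t) * k47 + (313) * hq + (3 - 25 * t + 3 * t ^ 2) *
      hp
  have k50 : ((((t - 1) * S)) * (((((t ^ 6 * r ^ 4)) * ((v * (v + 1 - S)))) - (((t ^ 2)) * ((S ^ 2 * v + S * (1 - v - v ^ 2) + v ^ 2)))))) + ((((((t ^ 7 * r ^ 4)) * ((v ^ 2 - (v + 1 - S)))) - (((r ^ 4)) * ((S * (v ^ 2 + v - 1) - v ^ 2))) + ((((t - 1) * S)) * ((t ^ 3 * r ^ 7 - v * t ^ 2))))) * (((v + 1 - S) * u))) + ((((t - 1) * u ^ 2)) * (((((t ^ 2 * r ^ 7)) * ((S ^ 2 + S * (v ^ 2 - v - 1) + v))) - (((r ^ 4)) * ((v * (v + 1 - S))))))) = (-383 - 455 * t) := by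
    linear_combination k29 + k43 + k49 + (1 + t) * hp
  have hz : (-383 - 455 * t) = 0 := by
    rw [← k50]
    rw [k2F] at hF
    have key : t ^ 2 * r ^ 4 * ((t - 1) * S * (t ^ 4 * v * (v + 1 - S)
        - (S ^ 2 * v + S * (1 - v - v ^ 2) + v ^ 2) / r ^ 4)
      + (t * t ^ 4 * (v ^ 2 - (v + 1 - S)) - t ^ 2 / t ^ 4 * (S * (v ^ 2 + v - 1) - v ^ 2)
        + (t - 1) * S * (t * r ^ 4 / r - v / r ^ 4)) * (v + 1 - S) * u
      + (t - 1) * (r ^ 4 / r * (S ^ 2 + S * (v ^ 2 - v - 1) + v) - t ^ 2 / t ^ 4 * v * (v + 1 - S))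
        * u ^ 2) = (((((t - 1) * S)) * (((((t ^ 6 * r ^ 4)) * ((v * (v + 1 - S)))) - (((t ^ 2)) * ((S ^ 2 * v + S * (1 - v - v ^ 2) + v ^ 2)))))) + ((((((t ^ 7 * r ^ 4)) * ((v ^ 2 - (v + 1 - S)))) - (((r ^ 4)) * ((S * (v ^ 2 + v - 1) - v ^ 2))) + ((((t - 1) * S)) * ((t ^ 3 * r ^ 7 - v * t ^ 2))))) * (((v + 1 - S) * u))) + ((((t - 1) * u ^ 2)) * (((((t ^ 2 * r ^ 7)) * ((S ^ 2 + S * (v ^ 2 - v - 1) + v))) - (((r ^ 4)) * ((v * (v + 1 - S)))))))) := by
      field_simp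
    rw [← key, hF, mul_zero]
  have h1 : (1 : F) = 0 := by
    linear_combination (92 - 287 * t) * hz - (24) * hq - (-37 + 69 * t + 137 * t ^ 2) * hp
  exact one_ne_zero h1

theorem k21_F54_257 {t v u S r : F} (hp : (257 : F) = 0) (ht0 : t ≠ 0) (hv0 : v ≠ 0) (hr0 : r ≠ 0)
    (hq : t ^ 2 - (55) * t - (-1) = 0) (hv : v = (-100 + 98 * t)) (hu : u = (-28 - 63 * t)) (hS : S = (100 - 98 * t))
    (hrS : v * t * r = S) (hF : k2F t r S v u (t ^ 4) (r ^ 4) = 0) : False := by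
  have k1 : v * t = (-98 - 107 * t) := by
    linear_combination (t) * hv + (98) * hq + (21 * t) * hp
  have k2 : ((v * t)) * ((-55 + t)) = (100 - 98 * t) := by
    linear_combination ((-55 + t)) * k1 + (-107) * hq + (21) * hp
  have hr : r = (-55 + t) := by
    refine sub_eq_zero.1 (cancel (mul_ne_zero hv0 ht0) ?_)
    linear_combination hrS + hS - k2
  have k3 : t ^ 2 = (-1 + 55 * t) := by
    linear_combination (1) * hq
  have k4 : t ^ 3 = (-55 - 60 * t) := by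
    linear_combination (t) * k3 + (55) * hq + (12 * t) * hp
  have k5 : t ^ 6 = (-61 + 28 * t) := by
    linear_combination ((t ^ 3)) * k4 + (-55 - 60 * t) * k4 + (2) * hq + (12 + 26 * t + 14 * t ^ 2) *
      hp
  have k6 : t ^ 7 = (-28 - 63 * t) := by
    linear_combination (t) * k5 + (28) * hq + (6 * t) * hp
  have k7 : r ^ 2 = (-60 - 55 * t) := by
    linear_combination (r) * hr + (-55 + t) * hr + (1) * hq + (12) * hp
  have k8 : r ^ 4 = (61 + 14 * t) := by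
    linear_combination ((r ^ 2)) * k7 + (-60 - 55 * t) * k7 + (-59) * hq + (14 + 13 * t + 12 * t ^
      2) * hp
  have k9 : r ^ 3 = (14 - 60 * t) := by
    linear_combination ((r ^ 2)) * hr + (-55 + t) * k7 + (-55) * hq + (13) * hp
  have k10 : r ^ 7 = (-105 - 63 * t) := by
    linear_combination ((r ^ 4)) * k9 + (14 - 60 * t) * k8 + (-69) * hq + (4 - 28 * t - 3 * t ^ 2) *
      hp
  have k11 : v + 1 - S = (58 - 61 * t) := by
    linear_combination hv - hS + (-1 + t) * hp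
  have k12 : v ^ 2 = (-118 + 17 * t) := by
    linear_combination (v) * hv + (-100 + 98 * t) * hv + (95) * hq + (39 - 56 * t + 37 * t ^ 2) *
      hp
  have k13 : S ^ 2 = (-118 + 17 * t) := by
    linear_combination (S) * hS + (100 - 98 * t) * hS + (95) * hq + (39 - 56 * t + 37 * t ^ 2) * hp
  have k14 : u ^ 2 = (-101 + 32 * t) := by
    linear_combination (u) * hu + (-28 - 63 * t) * hu + (114) * hq + (3 + 38 * t + 15 * t ^ 2) * hp
  have k15 : S ^ 2 * v = (111 - 19 * t) := by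
    linear_combination (v) * k13 + (-118 + 17 * t) * hv + (124) * hq + (45 - 25 * t + 6 * t ^ 2) *
      hp
  have k16 : 1 - v - v ^ 2 = (-38 - 115 * t) := by
    linear_combination -hv - k12 + (1) * hp
  have k17 : S * (1 - v - v ^ 2) = (93 - 100 * t) := by
    linear_combination ((1 - v - v ^ 2)) * hS + (100 - 98 * t) * k16 + (-38) * hq + (-15 - 38 * t +
      44 * t ^ 2) * hp
  have k18 : S ^ 2 * v + S * (1 - v - v ^ 2) + v ^ 2 = (86 - 102 * t) := by
    linear_combination k15 + k17 + k12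
  have k19 : v ^ 2 - v - 1 = (-19 - 81 * t) := by
    linear_combination k12 - hv
  have k20 : S * (v ^ 2 - v - 1) = (-72 - 123 * t) := by
    linear_combination ((v ^ 2 - v - 1)) * hS + (100 - 98 * t) * k19 + (-29) * hq + (-7 - 30 * t +
      31 * t ^ 2) * hp
  have k21 : S ^ 2 + S * (v ^ 2 - v - 1) + v = (-33 - 8 * t) := by
    linear_combination k13 + k20 + hv + (-1) * hp
  have k22 : t - 1 = (-1 + t) := by
    ring
  have k23 : (t - 1) * S = (-2 - 52 * t) := by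
    linear_combination (S) * k22 + (-1 + t) * hS + (-98) * hq + (-20 * t) * hp
  have k24 : v * (v + 1 - S) = (-79 - 125 * t) := by
    linear_combination ((v + 1 - S)) * hv + (-100 + 98 * t) * k11 + (-67) * hq + (-22 + 32 * t - 23 *
      t ^ 2) * hp
  have k25 : t ^ 6 * r ^ 4 = (-1 + 55 * t) := by
    linear_combination ((r ^ 4)) * k5 + (-61 + 28 * t) * k8 + (-122) * hq + (-14 - 23 * t + 2 * t ^
      2) * hp
  have k26 : ((t ^ 6 * r ^ 4)) * ((v * (v + 1 - S))) = (15 + 71 * t) := by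
    linear_combination ((v * (v + 1 - S))) * k25 + (-1 + 55 * t) * k24 + (64) * hq + (-3 * t - 27 *
      t ^ 2) * hp
  have k27 : ((t ^ 2)) * ((S ^ 2 * v + S * (1 - v - v ^ 2) + v ^ 2)) = (127 + 56 * t) := by
    linear_combination ((S ^ 2 * v + S * (1 - v - v ^ 2) + v ^ 2)) * k3 + (-1 + 55 * t) * k18 +
      (44) * hq + (-1 + 28 * t - 22 * t ^ 2) * hp
  have k28 : (((t ^ 6 * r ^ 4)) * ((v * (v + 1 - S)))) - (((t ^ 2)) * ((S ^ 2 * v + S * (1 - v - v ^ 2) + v ^ 2))) = (-112 + 15 * t) := by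
    linear_combination k26 - k27
  have k29 : (((t - 1) * S)) * (((((t ^ 6 * r ^ 4)) * ((v * (v + 1 - S)))) - (((t ^ 2)) * ((S ^ 2 * v + S * (1 - v - v ^ 2) + v ^ 2))))) = (-24 - 98 * t) := by
    linear_combination (((((t ^ 6 * r ^ 4)) * ((v * (v + 1 - S)))) - (((t ^ 2)) * ((S ^ 2 * v + S *
      (1 - v - v ^ 2) + v ^ 2))))) * k23 + (-2 - 52 * t) * k28 + (-9) * hq + (1 + 21 * t - 3 * t ^
      2) * hp
  have k30 : t ^ 7 * r ^ 4 = (-55 - 60 * t) := by
    linear_combination ((r ^ 4)) * k6 + (-28 - 63 * t) * k8 + (-111) * hq + (-6 - 40 * t - 3 * t ^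
      2) * hp
  have k31 : v ^ 2 - (v + 1 - S) = (81 + 78 * t) := by
    linear_combination k12 - k11 + (-1) * hp
  have k32 : ((t ^ 7 * r ^ 4)) * ((v ^ 2 - (v + 1 - S))) = (-32 - 41 * t) := by
    linear_combination ((v ^ 2 - (v + 1 - S))) * k30 + (-55 - 60 * t) * k31 + (-54) * hq + (-17 -
      47 * t - 18 * t ^ 2) * hp
  have k33 : v ^ 2 + v - 1 = (38 + 115 * t) := by
    linear_combination k12 + hv + (-1) * hp
  have k34 : S * (v ^ 2 + v - 1) = (-93 + 100 * t) := by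
    linear_combination ((v ^ 2 + v - 1)) * hS + (100 - 98 * t) * k33 + (38) * hq + (15 + 38 * t -
      44 * t ^ 2) * hp
  have k35 : S * (v ^ 2 + v - 1) - v ^ 2 = (25 + 83 * t) := by
    linear_combination k34 - k12
  have k36 : ((r ^ 4)) * ((S * (v ^ 2 + v - 1) - v ^ 2)) = (106 - 67 * t) := by
    linear_combination ((S * (v ^ 2 + v - 1) - v ^ 2)) * k8 + (61 + 14 * t) * k35 + (-123) * hq +
      (6 - 5 * t + 5 * t ^ 2) * hp
  have k37 : t ^ 3 * r ^ 7 = (-61 - 14 * t) := by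
    linear_combination ((r ^ 7)) * k4 + (-55 - 60 * t) * k10 + (-75) * hq + (23 + 22 * t + 15 * t ^
      2) * hp
  have k38 : v * t ^ 2 = (107 - 72 * t) := by
    linear_combination ((t ^ 2)) * hv + (-100 + 98 * t) * k3 + (-7) * hq + (-23 * t + 21 * t ^ 2) *
      hp
  have k39 : t ^ 3 * r ^ 7 - v * t ^ 2 = (89 + 58 * t) := by
    linear_combination k37 - k38 + (-1) * hp
  have k40 : (((t - 1) * S)) * ((t ^ 3 * r ^ 7 - v * t ^ 2)) = (11 + 24 * t) := by
    linear_combination ((t ^ 3 * r ^ 7 - v * t ^ 2)) * k23 + (-2 - 52 * t) * k39 + (68) * hq + (-1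
      - 4 * t - 12 * t ^ 2) * hp
  have k41 : (((t ^ 7 * r ^ 4)) * ((v ^ 2 - (v + 1 - S)))) - (((r ^ 4)) * ((S * (v ^ 2 + v - 1) - v ^ 2))) + ((((t - 1) * S)) * ((t ^ 3 * r ^ 7 - v * t ^ 2))) = (-127 + 50 * t) := by
    linear_combination k32 - k36 + k40
  have k42 : (v + 1 - S) * u = (-70 - 36 * t) := by
    linear_combination (u) * k11 + (58 - 61 * t) * hu + (-12) * hq + (-6 - 10 * t + 15 * t ^ 2) *
      hp
  have k43 : (((((t ^ 7 * r ^ 4)) * ((v ^ 2 - (v + 1 - S)))) - (((r ^ 4)) * ((S * (v ^ 2 + v - 1) - v ^ 2))) + ((((t - 1) * S)) * ((t ^ 3 * r ^ 7 - v * t ^ 2))))) * (((v + 1 - S) * u)) = (-104 - 11 * t) := by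
    linear_combination (((v + 1 - S) * u)) * k41 + (-127 + 50 * t) * k42 + (-1) * hq + (35 + 4 * t
      - 7 * t ^ 2) * hp
  have k44 : t ^ 2 * r ^ 7 = (-28 + 61 * t) := by
    linear_combination ((r ^ 7)) * k3 + (-1 + 55 * t) * k10 + (-124) * hq + (1 - 49 * t - 13 * t ^
      2) * hp
  have k45 : ((t ^ 2 * r ^ 7)) * ((S ^ 2 + S * (v ^ 2 - v - 1) + v)) = (127 - 102 * t) := by
    linear_combination ((S ^ 2 + S * (v ^ 2 - v - 1) + v)) * k44 + (-28 + 61 * t) * k21 + (26) * hq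
      + (3 - t - 2 * t ^ 2) * hp
  have k46 : ((r ^ 4)) * ((v * (v + 1 - S))) = (15 - 125 * t) := by
    linear_combination ((v * (v + 1 - S))) * k8 + (61 + 14 * t) * k24 + (49) * hq + (-19 - 23 * t -
      7 * t ^ 2) * hp
  have k47 : (((t ^ 2 * r ^ 7)) * ((S ^ 2 + S * (v ^ 2 - v - 1) + v))) - (((r ^ 4)) * ((v * (v + 1 - S)))) = (112 + 23 * t) := by
    linear_combination k45 - k46
  have k48 : (t - 1) * u ^ 2 = (69 + 85 * t) := by
    linear_combination ((u ^ 2)) * k22 + (-1 + t) * k14 + (32) * hq + (6 * t) * hp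
  have k49 : (((t - 1) * u ^ 2)) * (((((t ^ 2 * r ^ 7)) * ((S ^ 2 + S * (v ^ 2 - v - 1) + v))) - (((r ^ 4)) * ((v * (v + 1 - S)))))) = (119 - 102 * t) := by
    linear_combination (((((t ^ 2 * r ^ 7)) * ((S ^ 2 + S * (v ^ 2 - v - 1) + v))) - (((r ^ 4)) *
      ((v * (v + 1 - S)))))) * k48 + (69 + 85 * t) * k47 + (-101) * hq + (30 + 22 * t + 8 * t ^ 2) *
      hp
  have k50 : ((((t - 1) * S)) * (((((t ^ 6 * r ^ 4)) * ((v * (v + 1 - S)))) - (((t ^ 2)) * ((S ^ 2 * v + S * (1 - v - v ^ 2) + v ^ 2)))))) + ((((((t ^ 7 * r ^ 4)) * ((v ^ 2 - (v + 1 - S)))) - (((r ^ 4)) * ((S * (v ^ 2 + v - 1) - v ^ 2))) + ((((t - 1) * S)) * ((t ^ 3 * r ^ 7 - v * t ^ 2))))) * (((v + 1 - S) * u))) + ((((t - 1) * u ^ 2)) * (((((t ^ 2 * r ^ 7)) * ((S ^ 2 + S * (v ^ 2 - v - 1) + v))) - (((r ^ 4)) * ((v * (v + 1 - S))))))) = (-9 + 46 * t) := by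
    linear_combination k29 + k43 + k49 + (-t) * hp
  have hz : (-9 + 46 * t) = 0 := by
    rw [← k50]
    rw [k2F] at hF
    have key : t ^ 2 * r ^ 4 * ((t - 1) * S * (t ^ 4 * v * (v + 1 - S)
        - (S ^ 2 * v + S * (1 - v - v ^ 2) + v ^ 2) / r ^ 4)
      + (t * t ^ 4 * (v ^ 2 - (v + 1 - S)) - t ^ 2 / t ^ 4 * (S * (v ^ 2 + v - 1) - v ^ 2)
        + (t - 1) * S * (t * r ^ 4 / r - v / r ^ 4)) * (v + 1 - S) * u
      + (t - 1) * (r ^ 4 / r * (S ^ 2 + S * (v ^ 2 - v - 1) + v) - t ^ 2 / t ^ 4 * v * (v + 1 - S))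
        * u ^ 2) = (((((t - 1) * S)) * (((((t ^ 6 * r ^ 4)) * ((v * (v + 1 - S)))) - (((t ^ 2)) * ((S ^ 2 * v + S * (1 - v - v ^ 2) + v ^ 2)))))) + ((((((t ^ 7 * r ^ 4)) * ((v ^ 2 - (v + 1 - S)))) - (((r ^ 4)) * ((S * (v ^ 2 + v - 1) - v ^ 2))) + ((((t - 1) * S)) * ((t ^ 3 * r ^ 7 - v * t ^ 2))))) * (((v + 1 - S) * u))) + ((((t - 1) * u ^ 2)) * (((((t ^ 2 * r ^ 7)) * ((S ^ 2 + S * (v ^ 2 - v - 1) + v))) - (((r ^ 4)) * ((v * (v + 1 - S)))))))) := by
      field_simp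
    rw [← key, hF, mul_zero]
  have h1 : (1 : F) = 0 := by
    linear_combination (-16 - 36 * t) * hz - (-114) * hq - (1 - 26 * t - 6 * t ^ 2) * hp
  exact one_ne_zero h1

end Pool.Agent.Helper43.IPL
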