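import Pool.Agent.Helper43.IPL.K21Char
import Pool.Agent.Helper85.IP.K21Gen

/-!
TH-P, K2, letter 1 then letter 0: `F41 = 0` forces `S = -v` or `t^2 u S = v^2`, in every
characteristic (helper85's `k21_letter0_split` for characteristic not 2, 3, and `k21_c2`, `k21_c3`).
-/

namespace Pool.Agent.Helper43.IPL

open Pool.Agent.Helper76.IP
open Pool.Agent.Helper27.IP
open Pool.Agent.Helper85.IP

theorem k21_split {F : Type*} [Field F] {t v u S T r : F} (ht : t ≠ 0) (hv : v ≠ 0) (hu : u ≠ 0)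
    (hS : S ≠ 0) (hT : T ≠ 0) (hSv : S - v ≠ 0) (htd : v + 1 - S ≠ 0) (huS : u - S ≠ 0)
    (hu1 : u - 1 ≠ 0) (ht1 : t - 1 ≠ 0) (htv : t * v - 1 ≠ 0) (hv1 : v - 1 ≠ 0)
    (hStv : S - v * t ≠ 0) (hST : S = v * T) (hr : T = t * r)
    (R : t * (v + 1 - S) = S * (v + 1) - v)
    (hEa : (v+1-S)*((S-v)^2-S)*u^2 + S*(S*(v+1)-v)*(v+1-S)*u - S*(S*(v+1)-v)*(2*S-v-1) = 0)
    (hB2 : pB2 S v u = 0) (hI : pI S v u = 0)
    (hF : k2F t r S v u t r + k2F t r S v u (t ^ 2) (r ^ 2) + k2F t r S v u (t ^ 3) (r ^ 3) = 0) :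
    S = -v ∨ t ^ 2 * u * S = v ^ 2 := by
  obtain ⟨hR, h1, h2', h3', h4, hF1, hD1⟩ := k21_small ht hv hu hS hSv htd huS hu1 R hEa hB2 hI
  by_cases h2 : (2 : F) = 0
  · exact (k21_c2 h2 ht hv hS hu1 hStv ht1 hv1 hR h1 h2' h3' h4 hF1 hD1).elim
  by_cases h3 : (3 : F) = 0
  · exact (k21_c3 h3 ht hv hS ht1 hStv huS htv hST hR h1 h2' h3' h4 hF1 hD1
      (k20_E ht hT hr R ht1 hF)).elim
  exact k21_letter0_split h2 h3 ht hv hu hS hT hSv htd huS hu1 ht1 htv hST hr R hEa hB2 hI hF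

end Pool.Agent.Helper43.IPL
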