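import Pool.Agent.Helper43.IPL.FlatLin

/-!
MP_d2f54f_al (inverting pairs): type 1 steps satisfy the multiplicative relation (pure algebra).
-/

namespace Pool.Agent.Helper43.IPL

variable {F : Type*} [Field F]

theorem mult_alg (x x' be de s s' t T X Y lam mu u v u' v' V V' g g' e e' : F)
    (hs : s ≠ 0) (hs' : s' ≠ 0) (hss : s' - s ≠ 0) (hX : X ≠ 0)
    (hT : T ≠ 0) (hT1 : T - 1 ≠ 0) (hTt : T - t ≠ 0)
    (hx : x ≠ 0) (hx' : x' ≠ 0)
    (hV : V = X * v) (hV' : V' = X * v')
    (hu : u = 1 - x + x * s) (hv : s * v = (1 - x') * s + x')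
    (hu' : u' = 1 - x + x * s') (hv' : s' * v' = (1 - x') * s' + x')
    (hg : g = s * ((1 - be) * u + be * v)) (he : s * e = Y * ((1 - de) * u + de * v))
    (hg' : g' = s' * ((1 - be) * u' + be * v')) (he' : s' * e' = Y * ((1 - de) * u' + de * v'))
    (U1 : u' = (1 - lam) * (t * u) + lam * V)
    (U1' : t * V' = (1 - mu) * (t * u) + mu * V)
    (U2 : g' = (1 - lam) * (T * g) + lam * e)
    (U2' : T * e' = (1 - mu) * (T * g) + mu * e)
    (E1 : t * (g * V - e * u) * (T - 1) * (t - 1)
        - X * (1 - x') * (g - e) * (T - t) * (t - 1)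
        - x' * ((1 - be) * X + be * t) * (u - V) * (T - t) * (T - 1) = 0)
    (E2 : T * X * (V * g - u * e) * (T - 1) * (t - 1)
        - T * X * (1 - x) * (g - e) * (T - t) * (t - 1)
        - x * Y * ((1 - de) * X + de * t) * (u - V) * (T - t) * (T - 1) = 0)
    (hD : u - V ≠ 0) (hk : V - t * u ≠ 0)
    (h5 : s * (V - u') * T = s' * (V' - u)) :
    s * T = t * s' ∨ (1 - be) * (s * s' * X) = de * Y := by
  -- U steps
  have hk1 : (V - t * u) * g' = T * (V - u') * g + (u' - t * u) * e := by
    linear_combination (V - t * u) * U2 + (T * g - e) * U1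
  have hk2 : (V - t * u) * (T * e') = T * (V - t * V') * g + t * (V' - u) * e := by
    linear_combination (V - t * u) * U2' + (T * g - e) * U1'
  by_cases hDl : v * u' - v' * u = 0
  · -- degenerate determinant
    obtain ⟨r, hr⟩ : ∃ r, r = s' / (s' - s) := ⟨_, rfl⟩
    have hr1 : r * (s' - s) = s' := by rw [hr]; field_simp
    have hr2 : (r - 1) * (s' - s) = s := by linear_combination hr1
    have hxu : u' - u = x * (s' - s) := by rw [hu, hu']; ring
    have hune : u' - u ≠ 0 := by rw [hxu]; exact mul_ne_zero hx hss
    have hsV : s * V = X * (1 - x') * s + X * x' := by rw [hV]; linear_combination X * hv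
    have hsV' : s' * V' = X * (1 - x') * s' + X * x' := by rw [hV']; linear_combination X * hv'
    have hVV : (V - V') * (s * s') = X * x' * (s' - s) := by
      linear_combination s' * hsV - s * hsV'
    have hVne : V - V' ≠ 0 := by
      intro h0
      rw [h0, zero_mul] at hVV
      exact mul_ne_zero (mul_ne_zero hX hx') hss hVV.symm
    have hB : (V - V') * r * s = X * x' := by
      have : (s' * (s' - s)) * ((V - V') * r * s) = (s' * (s' - s)) * (X * x') := by
        linear_combination (V - V') * (s * s') * hr1 + s' * hVV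
      exact mul_left_cancel₀ (mul_ne_zero hs' hss) this
    have hK1 : X * (1 - x') = V - (V - V') * r := by
      have : s * (X * (1 - x')) = s * (V - (V - V') * r) := by
        linear_combination - hsV + hB
      exact mul_left_cancel₀ hs this
    have hDd : (u' - u) * (r - 1) = x * s := by
      rw [hxu]; linear_combination x * hr2
    have hK2 : 1 - x = u - (u' - u) * (r - 1) := by rw [hDd, hu]; ring
    have hDV : V * u' = V' * u := by
      rw [hV, hV']; linear_combination X * hDl
    have hune0 : u ≠ 0 := by
      intro h0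
      rw [h0, mul_zero] at hDV
      rw [h0, mul_zero, sub_zero] at hk
      have hu0 := (mul_eq_zero.mp hDV).resolve_left hk
      exact hune (by rw [hu0, h0]; ring)
    obtain ⟨c, hc⟩ : ∃ c, c = u' / u := ⟨_, rfl⟩
    have hcu : u' = c * u := by rw [hc]; field_simp
    have hcV : V' = c * V := by
      apply mul_right_cancel₀ hune0
      rw [← hDV, hcu]; ring
    have hcv : v' = c * v := by
      apply mul_left_cancel₀ hX
      rw [← hV', hcV, hV]; ring
    have hc1 : c - 1 ≠ 0 := by
      intro h0
      exact hune (by rw [hcu]; linear_combination u * h0)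
    -- the ratio of `g` and `e`
    have hgc : s * g' = c * s' * g := by
      rw [hg, hg', hcu, hcv]; ring
    have hge : s * (c - t) * e = s' * (1 - c * t) * g := by
      apply mul_left_cancel₀ hune0
      rw [hcu, hcV] at h5
      rw [hcu] at hk1
      linear_combination - s * hk1 + (V - t * u) * hgc - g * h5
    by_cases hct : c - t = 0 ∧ 1 - c * t = 0
    · left
      obtain ⟨h1, h2⟩ := hct
      have hct' : c = t := sub_eq_zero.mp h1
      rw [hct'] at h2
      rw [hcu, hcV, hct'] at h5
      apply mul_left_cancel₀ hk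
      linear_combination h5 - s' * u * h2
    · right
      obtain ⟨w, hw1, hw2⟩ : ∃ w, g = (c - t) * (r - 1) * w ∧ e = r * (1 - c * t) * w := by
        by_cases h1 : c - t = 0
        · have h2 : 1 - c * t ≠ 0 := fun h => hct ⟨h1, h⟩
          rw [h1] at hge
          have hg0 : g = 0 := by
            have : s' * (1 - c * t) * g = 0 := by rw [← hge]; ring
            exact (mul_eq_zero.mp this).resolve_left (mul_ne_zero hs' h2)
          have hr0 : r ≠ 0 := by
            intro h; rw [h, zero_mul] at hr1; exact hs' hr1.symm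
          refine ⟨e / (r * (1 - c * t)), ?_, ?_⟩
          · rw [hg0, h1]; ring
          · field_simp
        · have hr0 : r - 1 ≠ 0 := by
            intro h; rw [h, zero_mul] at hr2; exact hs hr2.symm
          refine ⟨g / ((c - t) * (r - 1)), ?_, ?_⟩
          · field_simp
          · apply mul_left_cancel₀ (mul_ne_zero (mul_ne_zero hs h1) hr0)
            have : s * (c - t) * (r - 1) * (r * (1 - c * t) * (g / ((c - t) * (r - 1))))
                = s * r * (1 - c * t) * g := by
              field_simp
            rw [this]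
            have h3 : s' * (r - 1) = s * r := by
              apply mul_right_cancel₀ hss
              linear_combination s' * hr2 - s * hr1
            linear_combination (r - 1) * hge + (1 - c * t) * g * h3
      have hT' : (r - 1) * (V - c * u) * T = r * (c * V - u) := by
        rw [hcu, hcV] at h5
        apply mul_right_cancel₀ hss
        linear_combination h5 + (V - c * u) * T * hr2 - (c * V - u) * hr1
      -- main identity
      have hmain : (t - 1) * ((T - 1) * (V * g - u * e) + (g - e) * ((V - (V - V') * r)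
            - T * (u - (u' - u) * (r - 1))))
          = (c - 1) * (u - V) * (T - 1) * (r * t * g + (r - 1) * e) := by
        rw [hcV, hcu, hw1, hw2]
        linear_combination - (t - 1) * (r * (c - 1) * (t + 1) - (c - t)) * w ^ 1 * hT'
      have q1 : (c - 1) * (u - V) * ((T - t) * (T - 1)) * (s * s' * V * ((1 - be) * X + be * t))
          = -((s' - s) * X * (t * (g * V - e * u) * (T - 1) * (t - 1)
            - (V - (V - V') * r) * (g - e) * (T - t) * (t - 1))) := by
        linear_combination (s' - s) * X * E1 + (s' - s) * X * (g - e) * (T - t) * (t - 1) * hK1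
          - (s' - s) * ((1 - be) * X + be * t) * (u - V) * ((T - t) * (T - 1)) * hB
          + (V - V') * s * ((1 - be) * X + be * t) * (u - V) * ((T - t) * (T - 1)) * hr1
          - s * s' * ((1 - be) * X + be * t) * (u - V) * ((T - t) * (T - 1)) * hcV
      have q2 : (c - 1) * (u - V) * ((T - t) * (T - 1)) * (u * (Y * ((1 - de) * X + de * t)))
          = (s' - s) * (T * X * (V * g - u * e) * (T - 1) * (t - 1)
            - T * X * (u - (u' - u) * (r - 1)) * (g - e) * (T - t) * (t - 1)) := by
        linear_combination - (s' - s) * E2 - (s' - s) * T * X * (g - e) * (T - t) * (t - 1) * hK2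
          + Y * ((1 - de) * X + de * t) * (u - V) * ((T - t) * (T - 1)) * hxu
          - Y * ((1 - de) * X + de * t) * (u - V) * ((T - t) * (T - 1)) * hcu
      have i1 : (V - t * u) * ((1 - be) * (s * s' * X))
          = s * s' * V * ((1 - be) * X + be * t) - s' * X * t * g := by
        rw [hg, hV]; ring
      have i2 : (V - t * u) * (de * Y) = X * (s * e) - u * (Y * ((1 - de) * X + de * t)) := by
        rw [he, hV]; ring
      have hne : (c - 1) * (u - V) * ((T - t) * (T - 1)) * (V - t * u) ≠ 0 :=
        mul_ne_zero (mul_ne_zero (mul_ne_zero hc1 hD) (mul_ne_zero hTt hT1)) hk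
      have q3 : (c - 1) * (u - V) * ((T - t) * (T - 1))
          * (s * s' * V * ((1 - be) * X + be * t) + u * (Y * ((1 - de) * X + de * t)))
          = (c - 1) * (u - V) * ((T - t) * (T - 1)) * (X * (s' * t * g + s * e)) := by
        linear_combination q1 + q2 + (s' - s) * X * (T - t) * hmain
          + X * (T - t) * (c - 1) * (u - V) * (T - 1) * (t * g * hr1 + e * hr2)
      apply mul_left_cancel₀ hne
      linear_combination (c - 1) * (u - V) * ((T - t) * (T - 1)) * (i1 - i2) + q3
  · right
    have hT0 : (V - t * u) * T ≠ 0 := mul_ne_zero hk hT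
    have key : ((V - t * u) * T * (v * u' - v' * u)) * ((1 - be) * (s * s' * X))
        = ((V - t * u) * T * (v * u' - v' * u)) * (de * Y) := by
      have i1 : (v * u' - v' * u) * ((1 - be) * (s * s' * X)) = s * V * g' - s' * V' * g := by
        rw [hg, hg', hV, hV']; ring
      have i2 : (v * u' - v' * u) * (de * Y) = u' * (s * e) - u * (s' * e') := by
        rw [he, he']; ring
      have i3 : (V - t * u) * T * (s * V * g' - s' * V' * g)
          = (V - t * u) * T * (u' * (s * e) - u * (s' * e')) := by
        linear_combination T * s * V * hk1 + u * s' * hk2 + (T * V * g - t * u * e) * h5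
      linear_combination (V - t * u) * T * i1 - (V - t * u) * T * i2 + i3
    exact mul_left_cancel₀ (mul_ne_zero hT0 hDl) key

theorem flat_alg2 (x x' be de s s' t T X Y lam mu u v u' v' V V' g g' e e' : F)
    (hs : s ≠ 0) (hs' : s' ≠ 0) (hss : s' - s ≠ 0) (hX : X ≠ 0)
    (hT : T ≠ 0) (ht1 : t - 1 ≠ 0) (hT1 : T - 1 ≠ 0) (hTt : T - t ≠ 0)
    (hx : x ≠ 0) (hx' : x' ≠ 0)
    (hV : V = X * v) (hV' : V' = X * v')
    (hu : u = 1 - x + x * s) (hv : s * v = (1 - x') * s + x')
    (hu' : u' = 1 - x + x * s') (hv' : s' * v' = (1 - x') * s' + x')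
    (hg : g = s * ((1 - be) * u + be * v)) (he : s * e = Y * ((1 - de) * u + de * v))
    (hg' : g' = s' * ((1 - be) * u' + be * v')) (he' : s' * e' = Y * ((1 - de) * u' + de * v'))
    (U1 : u' = (1 - lam) * (t * u) + lam * V)
    (U1' : t * V' = (1 - mu) * (t * u) + mu * V)
    (U2 : g' = (1 - lam) * (T * g) + lam * e)
    (U2' : T * e' = (1 - mu) * (T * g) + mu * e)
    (E1 : t * (g * V - e * u) * (T - 1) * (t - 1)
        - X * (1 - x') * (g - e) * (T - t) * (t - 1)
        - x' * ((1 - be) * X + be * t) * (u - V) * (T - t) * (T - 1) = 0)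
    (E2 : T * X * (V * g - u * e) * (T - 1) * (t - 1)
        - T * X * (1 - x) * (g - e) * (T - t) * (t - 1)
        - x * Y * ((1 - de) * X + de * t) * (u - V) * (T - t) * (T - 1) = 0)
    (hgh : g ≠ 0 ∨ e ≠ 0) :
    u - V = 0 ∨ V - t * u = 0 ∨ V' - u' = 0 ∨ s * T = t * s' ∨
      (1 - be) * (s * s' * X) = de * Y := by
  by_cases hD : u - V = 0
  · exact Or.inl hD
  by_cases hk : V - t * u = 0
  · exact Or.inr (Or.inl hk)
  rcases flat_alg' x x' be de s s' t T X Y lam mu u v u' v' V V' g g' e e' hs hs' hss hX hT ht1 hT1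
    hTt hx hx' hV hV' hu hv hu' hv' hg he hg' he' U1 U1' U2 U2' E1 E2 hgh with h | h | h | h | h
  · exact Or.inl h
  · exact Or.inr (Or.inl h)
  · exact Or.inr (Or.inr (Or.inl h))
  · exact Or.inr (Or.inr (Or.inr (Or.inl h)))
  · rcases mult_alg x x' be de s s' t T X Y lam mu u v u' v' V V' g g' e e' hs hs' hss hX hT hT1
      hTt hx hx' hV hV' hu hv hu' hv' hg he hg' he' U1 U1' U2 U2' E1 E2 hD hk h with h | h
    · exact Or.inr (Or.inr (Or.inr (Or.inl h)))
    · exact Or.inr (Or.inr (Or.inr (Or.inr h)))

end Pool.Agent.Helper43.IPL
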