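import Pool.Agent.Helper43.IPL.P3Base

/-!
MP_d2f54f_al (inverting pairs), piece P3: scalar lemmas for the columns 2, 3, 4, 5.
-/

namespace Pool.Agent.Helper43.IPL

variable {F : Type*} [Field F]

/-- the curve coming from the cell `(3,4)` -/
def j1 (a b c : F) : F :=
  c - b - c ^ 2 + 2 * a * c - 2 * a * b + a ^ 2 - b ^ 2 * c + a * b * c - a * b ^ 2 + a ^ 2 * c

def kk (a b c : F) : F := c ^ 2 + (a + 1) * b * (b - 1) * c - a * b ^ 3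
def mb (a b c : F) : F := c + b ^ 2 - (a + 1) * b
def q3 (a b c : F) : F := a * b ^ 4 + (a + 1) * b * (b - a ^ 2) * c - a * c ^ 2

theorem p3_J1 {a b c d L M L3 : F} (ha : a ≠ 0) (hb : b ≠ 0) (hc : c ≠ 0) (ha1 : a + 1 ≠ 0)
    (hab : a - b ≠ 0) (hapb : a + b ≠ 0) (hcb : c - b ≠ 0) (habc : a * b - c ≠ 0)
    (hca : c - a ≠ 0)
    (hR : rr3 a b c = 0) (hd : b * d = a * c) (hL : kk a b c * L = c * (c - b))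
    (hM : kk a b c * M = a * b ^ 2 * (c - b))
    (hL3 : L3 * (b ^ 2 * (c - b) * (c - a * b)) = q3 a b c)
    (cell : (c - 1) * (c - a) * (c - b) * ((b - 1) * (b - a) *
      (L3 * L * c + (1 - L3) * (1 - M)) + L3 * ((c - 1) * (c - a))) =
      (b - 1) * (b - a) * (L * ((d - 1) * (d - a) * (d - b)))) :
    j1 a b c = 0 ∧ (a ^ 2 + a + 1) * c - a ^ 2 ≠ 0 := by
  have hDb : (a ^ 2 + a + 1) * c - a ^ 2 ≠ 0 := by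
    intro h
    rw [rr3] at hR
    have h1 : c * (c - (a ^ 2 + a + 1)) = 0 := by linear_combination hR - b * h
    have h2 := (mul_eq_zero.1 h1).resolve_left hc
    have h3 : (a + 1) ^ 2 * (a ^ 2 + 1) = 0 := by
      linear_combination h - (a ^ 2 + a + 1) * h2
    have h4 := (mul_eq_zero.1 h3).resolve_left (pow_ne_zero 2 ha1)
    apply hca
    linear_combination h2 + h4
  refine ⟨?_, hDb⟩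
  have I : b * (c - 1) * (c - a) * ((b - 1) * (b - a) * (q3 a b c * (c * (c - b)) * c +
      (b ^ 2 * (c - b) * (c - a * b) - q3 a b c) * (c * mb a b c)) +
      q3 a b c * kk a b c * ((c - 1) * (c - a))) =
      a * c * (b - 1) * (b - a) * (c - b) ^ 2 * (c - a * b) * (a * c - b) * (a * c - b ^ 2) := by
    have e1 : c * mb a b c = kk a b c - kk a b c * M := by rw [hM, mb, kk]; ring
    have e2 : (a * c - b) * (a * (c - b)) * (a * c - b ^ 2) =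
        b ^ 3 * ((d - 1) * (d - a) * (d - b)) := by
      rw [← hd, show a * (c - b) = b * d - a * b by rw [hd]; ring]; ring
    apply mul_left_cancel₀ (mul_ne_zero hcb (mul_ne_zero hb ha))
    rw [e1, ← hL3, ← hL]
    rw [show (c - b) * (b * a) * (a * c * (b - 1) * (b - a) * (c - b) ^ 2 * (c - a * b) * (a * c - b) *
      (a * c - b ^ 2)) = a * b * (b - 1) * (b - a) * (c - a * b) * (c - b) * (c * (c - b)) *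
      ((a * c - b) * (a * (c - b)) * (a * c - b ^ 2)) by ring, e2, ← hL]
    linear_combination a * b ^ 4 * (c - a * b) * (c - b) * kk a b c * cell
  apply mul_left_cancel₀ (mul_ne_zero (mul_ne_zero (mul_ne_zero (mul_ne_zero (mul_ne_zero
    (pow_ne_zero 2 hab) hapb) hcb) habc) hca) (pow_ne_zero 4 hc))
  rw [mul_zero]
  rw [rr3] at hR
  rw [q3, kk, mb] at I
  rw [j1]
  linear_combination ((a ^ 2 + a + 1) * c - a ^ 2) * I - (-b ^ 3 * c ^ 5 + 2 * b ^ 4 * c ^ 4 - b ^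
    5 * c ^ 3 + a * b * c ^ 6 - 2 * a * b ^ 2 * c ^ 5 + 2 * a * b ^ 3 * c ^ 4 - 2 * a * b ^ 4 * c ^
    3 + a * b ^ 5 * c ^ 2 - a ^ 2 * b * c ^ 5 + 2 * a ^ 2 * b ^ 2 * c ^ 4 - a ^ 2 * b ^ 3 * c ^ 3 +
    b ^ 3 * c ^ 6 - 4 * b ^ 4 * c ^ 5 + 3 * b ^ 5 * c ^ 4 - a * b * c ^ 7 + 3 * a * b ^ 2 * c ^ 6 -
    2 * a * b ^ 3 * c ^ 5 + 4 * a * b ^ 4 * c ^ 4 - 3 * a * b ^ 5 * c ^ 3 - a * b ^ 6 * c ^ 2 + a ^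
    2 * b * c ^ 6 - 3 * a ^ 2 * b ^ 2 * c ^ 5 + a ^ 2 * b ^ 3 * c ^ 4 - 3 * a ^ 2 * b ^ 4 * c ^ 3 +
    4 * a ^ 2 * b ^ 5 * c ^ 2 - 2 * a ^ 3 * b * c ^ 5 + 5 * a ^ 3 * b ^ 2 * c ^ 4 - 3 * a ^ 3 * b ^
    3 * c ^ 3 + a ^ 3 * b ^ 4 * c ^ 2 - a ^ 3 * b ^ 5 * c + a ^ 4 * b * c ^ 4 - 2 * a ^ 4 * b ^ 2 *
    c ^ 3 + a ^ 4 * b ^ 3 * c ^ 2 - b ^ 3 * c ^ 7 + 2 * b ^ 4 * c ^ 6 - 2 * b ^ 6 * c ^ 4 + b ^ 7 *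
    c ^ 3 + a * b ^ 2 * c ^ 7 - 8 * a * b ^ 4 * c ^ 5 + 7 * a * b ^ 5 * c ^ 4 + a * b ^ 6 * c ^ 3 -
    a * b ^ 7 * c ^ 2 + a ^ 2 * b ^ 2 * c ^ 6 + 2 * a ^ 2 * b ^ 3 * c ^ 5 + 6 * a ^ 2 * b ^ 4 * c ^
    4 - 7 * a ^ 2 * b ^ 5 * c ^ 3 - 3 * a ^ 2 * b ^ 6 * c ^ 2 + a ^ 2 * b ^ 7 * c - a ^ 3 * c ^ 7 +
    a ^ 3 * b * c ^ 6 - 3 * a ^ 3 * b ^ 2 * c ^ 5 - 4 * a ^ 3 * b ^ 3 * c ^ 4 + a ^ 3 * b ^ 4 * c ^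
    3 + 5 * a ^ 3 * b ^ 5 * c ^ 2 + a ^ 3 * b ^ 6 * c + 2 * a ^ 4 * c ^ 6 - 4 * a ^ 4 * b * c ^ 5 +
    5 * a ^ 4 * b ^ 2 * c ^ 4 + 2 * a ^ 4 * b ^ 3 * c ^ 3 - 3 * a ^ 4 * b ^ 4 * c ^ 2 - 2 * a ^ 4 *
    b ^ 5 * c - a ^ 5 * b ^ 2 * c ^ 3 + a ^ 5 * b ^ 4 * c - b ^ 5 * c ^ 6 + 2 * b ^ 6 * c ^ 5 - b ^
    7 * c ^ 4 + 4 * a * b ^ 4 * c ^ 6 - 3 * a * b ^ 5 * c ^ 5 - 4 * a * b ^ 6 * c ^ 4 + 3 * a * b ^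
    7 * c ^ 3 - 3 * a ^ 2 * b ^ 3 * c ^ 6 - 6 * a ^ 2 * b ^ 4 * c ^ 5 + 9 * a ^ 2 * b ^ 5 * c ^ 4 +
    3 * a ^ 2 * b ^ 6 * c ^ 3 - 3 * a ^ 2 * b ^ 7 * c ^ 2 - a ^ 3 * b * c ^ 7 + a ^ 3 * b ^ 2 * c ^
    6 + 10 * a ^ 3 * b ^ 3 * c ^ 5 - 3 * a ^ 3 * b ^ 4 * c ^ 4 - 5 * a ^ 3 * b ^ 5 * c ^ 3 - 4 * a ^
    3 * b ^ 6 * c ^ 2 + 2 * a ^ 3 * b ^ 7 * c + 2 * a ^ 4 * b * c ^ 6 - 2 * a ^ 4 * b ^ 2 * c ^ 5 -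
    12 * a ^ 4 * b ^ 3 * c ^ 4 + 8 * a ^ 4 * b ^ 4 * c ^ 3 + 3 * a ^ 4 * b ^ 5 * c ^ 2 + 2 * a ^ 4 *
    b ^ 6 * c - a ^ 4 * b ^ 7 - 2 * a ^ 5 * b * c ^ 5 + 4 * a ^ 5 * b ^ 2 * c ^ 4 + 4 * a ^ 5 * b ^
    3 * c ^ 3 - 6 * a ^ 5 * b ^ 4 * c ^ 2 - a ^ 6 * b ^ 3 * c ^ 2 + a ^ 6 * b ^ 4 * c + 2 * a * b ^
    6 * c ^ 5 - 2 * a * b ^ 7 * c ^ 4 + a ^ 2 * b ^ 4 * c ^ 6 - 2 * a ^ 2 * b ^ 5 * c ^ 5 - 3 * a ^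
    2 * b ^ 6 * c ^ 4 + 4 * a ^ 2 * b ^ 7 * c ^ 3 - 3 * a ^ 3 * b ^ 3 * c ^ 6 + 3 * a ^ 3 * b ^ 5 *
    c ^ 4 + 4 * a ^ 3 * b ^ 6 * c ^ 3 - 4 * a ^ 3 * b ^ 7 * c ^ 2 + a ^ 4 * b ^ 2 * c ^ 6 + 7 * a ^
    4 * b ^ 3 * c ^ 5 - 6 * a ^ 4 * b ^ 4 * c ^ 4 - a ^ 4 * b ^ 5 * c ^ 3 - 3 * a ^ 4 * b ^ 6 * c ^
    2 + 2 * a ^ 4 * b ^ 7 * c - a ^ 5 * b ^ 2 * c ^ 5 - 6 * a ^ 5 * b ^ 3 * c ^ 4 + 7 * a ^ 5 * b ^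
    4 * c ^ 3 + 2 * a ^ 6 * b ^ 3 * c ^ 3 - 2 * a ^ 6 * b ^ 4 * c ^ 2 + a ^ 2 * b ^ 6 * c ^ 5 - a ^
    2 * b ^ 7 * c ^ 4 - 2 * a ^ 3 * b ^ 6 * c ^ 4 + 2 * a ^ 3 * b ^ 7 * c ^ 3 - a ^ 4 * b ^ 3 * c ^
    6 + a ^ 4 * b ^ 4 * c ^ 5 + a ^ 4 * b ^ 6 * c ^ 3 - a ^ 4 * b ^ 7 * c ^ 2 + 2 * a ^ 5 * b ^ 3 *
    c ^ 5 - 2 * a ^ 5 * b ^ 4 * c ^ 4 - a ^ 6 * b ^ 3 * c ^ 4 + a ^ 6 * b ^ 4 * c ^ 3) * hR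

theorem p3_J23 {a b c : F} (hDb : (a ^ 2 + a + 1) * c - a ^ 2 ≠ 0) (hR : rr3 a b c = 0)
    (hJ : j1 a b c = 0) :
    (b * c - a * c - b * c ^ 2 + b ^ 2 * c + a * b * c - a * b ^ 2 - b ^ 3 * c + a * b ^ 2 * c = 0) ∧
    (-b + b * c + b ^ 2 - 2 * a * b + a ^ 2 + a * b * c - 2 * a ^ 2 * b + a * b ^ 3 = 0) := by
  rw [rr3] at hR
  rw [j1] at hJ
  constructor
  · apply mul_left_cancel₀ hDb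
    linear_combination (-(c * (c - a))) * hJ + (-c ^ 2 + 2 * a * c - a * b - b ^ 2 * c + a * b * c) *
      hR
  · apply mul_left_cancel₀ hDb
    linear_combination (a * (c - a)) * hJ + (b + a * c + a * b - 2 * a ^ 2 + a * b ^ 2) * hR

/-- `b = a ^ 2` is impossible. -/
theorem p3_ba2 {a b c : F} (ha : a ≠ 0) (ha1 : a + 1 ≠ 0) (ham : a - 1 ≠ 0) (hca : c - a ≠ 0)
    (hR : rr3 a b c = 0) (hJ : j1 a b c = 0) (hq : q3 a b c ≠ 0) : b - a ^ 2 ≠ 0 := by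
  intro h0
  have hb : b = a ^ 2 := by linear_combination h0
  subst hb
  rw [rr3] at hR
  rw [j1] at hJ
  have h1 : c * (1 + a + 2 * a ^ 2) = a ^ 2 * (2 + a + a ^ 2) := by
    apply mul_left_cancel₀ ha
    linear_combination hR + hJ
  have h2 : a ^ 2 * (a - 1) * (a + 1) ^ 3 * ((a ^ 2 + 1) * (2 * a ^ 2 + a + 2)) = 0 := by
    linear_combination (1 + a + 2 * a ^ 2) ^ 2 * hR - (c * (1 + a + 2 * a ^ 2) +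
      a ^ 2 * (2 + a + a ^ 2) + (a ^ 2 - 1) * (a ^ 2 + a + 1) * (1 + a + 2 * a ^ 2)) * h1
  rcases mul_eq_zero.1 ((mul_eq_zero.1 h2).resolve_left (mul_ne_zero (mul_ne_zero (pow_ne_zero 2 ha)
    ham) (pow_ne_zero 3 ha1))) with h3 | h3
  · apply mul_ne_zero hca ham
    linear_combination h1 + (-2 * c + a + a ^ 2) * h3
  · apply hq
    have h4 : c = a ^ 4 := by linear_combination (-1 : F) * h1 + (c - a ^ 2) * h3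
    rw [q3, h4]
    ring

end Pool.Agent.Helper43.IPL
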