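import Pool.Agent.Helper16.IP.Cell34
import Pool.Agent.Helper43.IPL.Flat2
import Pool.Agent.Helper43.IPL.BNeg

/-!
MP_d2f54f_al (inverting pairs), piece P3 (`kap_1^(3) = 0` in the O-state): the parametrisation
`1 - x = a^3 c (b-1) P`, `x = -a^2 b (a-1) P`, `1 - y = c (b-1) P`, `y = -(a-1) c^2 P` and the
relation `R3`.
-/

namespace Pool.Agent.Helper43.IPL

open Pool.Agent.Helper54.IP Pool.Agent.Helper16.IP

variable {F : Type*} [Field F]

/-- the curve relation -/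
def rr3 (a b c : F) : F := c ^ 2 + (b - 1) * (a ^ 2 + a + 1) * c - a ^ 2 * b

theorem p3_param {a b c x y : F} (ha : a ≠ 0) (hc : c ≠ 0) (ha1 : a - 1 ≠ 0)
    (hb1 : b - 1 ≠ 0) (hx : x ≠ 0) (hp : 1 - x = a ^ 3 * (1 - y))
    (E1 : a * (b - 1) * (c * x) = -(b * (a - 1) * (1 - x)))
    (E2 : (b - 1) * y = -((a - 1) * (c * (1 - y)))) :
    ∃ P, P ≠ 0 ∧ 1 - x = a ^ 3 * c * (b - 1) * P ∧ x = -(a ^ 2 * b * (a - 1)) * P ∧
      1 - y = c * (b - 1) * P ∧ y = -((a - 1) * c ^ 2) * P ∧ rr3 a b c = 0 := by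
  obtain ⟨P, hP⟩ : ∃ P, 1 - y = c * (b - 1) * P := ⟨(1 - y) / (c * (b - 1)), by field_simp⟩
  have h1 : 1 - x = a ^ 3 * c * (b - 1) * P := by rw [hp, hP]; ring
  have h2 : x = -(a ^ 2 * b * (a - 1)) * P := by
    apply mul_left_cancel₀ (mul_ne_zero (mul_ne_zero ha hb1) hc)
    linear_combination E1 - b * (a - 1) * h1
  have h3 : y = -((a - 1) * c ^ 2) * P := by
    apply mul_left_cancel₀ hb1
    linear_combination E2 - (a - 1) * c * hP
  have hP0 : P ≠ 0 := by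
    intro h
    rw [h, mul_zero] at h2
    exact hx h2
  refine ⟨P, hP0, h1, h2, hP, h3, ?_⟩
  apply mul_left_cancel₀ (mul_ne_zero ha1 hP0)
  rw [rr3]
  linear_combination hP + h3 - h1 - h2

/-- exceptional column -/
theorem p3_exc {a b c x y G H : F} (ha : a ≠ 0) (hba : b - a ≠ 0) (g13 : G = 1 - x + x * c)
    (h13 : c * H = (1 - y) * c + y) (hk : a ^ 2 * H = G)
    (e1 : (b - 1) * G = (b - a) * (a ^ 2 * (1 - y)))
    (e2 : a * ((b - 1) * G) = (b - a) * (1 - x)) :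
    1 - x = a ^ 3 * (1 - y) ∧ a * (b - 1) * (c * x) = -(b * (a - 1) * (1 - x)) ∧
      (b - 1) * y = -((a - 1) * (c * (1 - y))) := by
  refine ⟨?_, ?_, ?_⟩
  · apply mul_left_cancel₀ hba
    linear_combination a * e1 - e2
  · rw [g13] at e2
    linear_combination e2
  · apply mul_left_cancel₀ (pow_ne_zero 2 ha)
    linear_combination (-(a ^ 2 * (b - 1))) * h13 + c * e1 + c * (b - 1) * hk

/-- closed column -/
theorem p3_clo {a b c x y G H : F} (ha : a ≠ 0) (hba : b - a ≠ 0) (hbc : b - c ≠ 0)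
    (hL : LL a b c x y = 0) (hT : TT a b c x y = 0) (g13 : G = 1 - x + x * c)
    (h13 : c * H = (1 - y) * c + y) (hk : a ^ 2 * H = G) (hp : 1 - x = a ^ 3 * (1 - y)) :
    a * (b - 1) * (c * x) = -(b * (a - 1) * (1 - x)) ∧
      (b - 1) * y = -((a - 1) * (c * (1 - y))) := by
  have L : (b - 1) * (c * x - y) + (a - 1) * ((a ^ 2 * b - c) * (1 - y)) = 0 := by
    apply mul_left_cancel₀ ha
    rw [LL] at hL
    linear_combination hL - (a - 1) * b * hp
  have T : (b - 1) * (b * (c * x) - a ^ 2 * y) + (b ^ 2 - c) * (a ^ 2 * (a - 1) * (1 - y)) = 0 := by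
    rw [TT] at hT
    linear_combination hT - (b ^ 2 - c) * hp
  have k : c * (c * x) - a ^ 2 * y + a ^ 2 * (a - 1) * (c * (1 - y)) = 0 := by
    linear_combination (-c) * g13 + a ^ 2 * h13 - c * hk - c * hp
  have key : (b - 1) * (c * x) = -(a ^ 2 * b * (a - 1) * (1 - y)) ∧
      (b - 1) * y = -((a - 1) * (c * (1 - y))) := by
    by_cases hb : b = a ^ 2
    · have h2 : (b - 1) * y = -((a - 1) * (c * (1 - y))) := by
        apply mul_left_cancel₀ hbc
        subst hb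
        linear_combination (-(a ^ 2 - 1)) * k + c * L
      refine ⟨?_, h2⟩
      subst hb
      linear_combination L + h2
    · have hb' : b - a ^ 2 ≠ 0 := sub_ne_zero.2 hb
      constructor
      · apply mul_left_cancel₀ hb'
        linear_combination T - a ^ 2 * L
      · apply mul_left_cancel₀ hb'
        linear_combination T - b * L
  exact ⟨by linear_combination a * key.1 + b * (a - 1) * hp, key.2⟩

variable {m : ℕ}

theorem p3_base (g : GForm F m) (hm : 4 ≤ m) (h1 : g.t 1 = g.s 1) (h2 : g.t 2 = g.s 2)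
    (hL : LL (g.t 1) (g.t 2) (g.s 3) (1 - g.lam' 0) (g.mu' 0) = 0)
    (hT : TT (g.t 1) (g.t 2) (g.s 3) (1 - g.lam' 0) (g.mu' 0) = 0) (hk3 : g.kap 1 3 = 0) :
    ∃ P, P ≠ 0 ∧ g.lam' 0 = g.t 1 ^ 3 * g.s 3 * (g.t 2 - 1) * P ∧
      1 - g.lam' 0 = -(g.t 1 ^ 2 * g.t 2 * (g.t 1 - 1)) * P ∧
      1 - g.mu' 0 = g.s 3 * (g.t 2 - 1) * P ∧ g.mu' 0 = -((g.t 1 - 1) * g.s 3 ^ 2) * P ∧
      rr3 (g.t 1) (g.t 2) (g.s 3) = 0 := by
  have ha := g.t_ne 1 (by omega)
  have hc := g.s_ne 3 (by omega)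
  have hba : g.t 2 - g.t 1 ≠ 0 := sub_ne_zero.2 (g.t_inj 1 2 (by omega) (by omega)).symm
  have hbc : g.t 2 - g.s 3 ≠ 0 := by
    rw [h2]; exact sub_ne_zero.2 (g.s_inj 2 3 (by omega) (by omega))
  have hx : 1 - g.lam' 0 ≠ 0 := sub_ne_zero.2 (g.lam'_ne 0 (by omega)).symm
  have r3 := g.row1G (k := 3) (by omega) (by omega)
  have q3 := g.row1H (k := 3) (by omega) (by omega)
  have hk3' : g.t 1 ^ 2 * g.H 1 3 = g.G 1 3 := by
    rw [GForm.kap] at hk3
    apply mul_left_cancel₀ ha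
    linear_combination -hk3
  have key : 1 - (1 - g.lam' 0) = g.t 1 ^ 3 * (1 - g.mu' 0) ∧
      g.t 1 * (g.t 2 - 1) * (g.s 3 * (1 - g.lam' 0)) =
        -(g.t 2 * (g.t 1 - 1) * (1 - (1 - g.lam' 0))) ∧
      (g.t 2 - 1) * g.mu' 0 = -((g.t 1 - 1) * (g.s 3 * (1 - g.mu' 0))) := by
    rcases deg_flat g (by omega) 2 (by omega) hk3' with h | ⟨e1, e2⟩
    · have r4 := g.row1G (k := 4) (by omega) (by omega)
      have q4 := g.row1H (k := 4) (by omega) (by omega)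
      have u4 := g.G_succ (j := 1) (k := 3) (by omega) (by omega)
      have v4 := g.H_succ (j := 1) (k := 3) (by omega) (by omega)
      simp only [Nat.reduceAdd] at u4 v4
      rw [hk3, mul_zero, sub_zero] at u4 v4
      have hss : g.s 4 - g.s 3 ≠ 0 := sub_ne_zero.2 (g.s_inj 3 4 (by omega) (by omega)).symm
      have c := closed_row1 (a := g.t 1) (x := 1 - g.lam' 0) (y := g.mu' 0) (s := g.s 3)
        (σ := g.s 4) (g := g.G 1 3) (Z := g.t 1 ^ 2) (t1_sub g (by omega)) hss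
        (by rw [r3]; ring) (by linear_combination (-g.t 1 ^ 2) * q3 + g.s 3 * hk3')
        (by rw [← u4, r4]; ring)
        (by
          apply mul_left_cancel₀ ha
          linear_combination (-g.t 1 ^ 4) * q4 + g.s 4 * v4)
      have hp : 1 - (1 - g.lam' 0) = g.t 1 ^ 3 * (1 - g.mu' 0) := by rw [c.1]; ring
      obtain ⟨e1, e2⟩ := p3_clo (a := g.t 1) (b := g.t 2) (c := g.s 3) (x := 1 - g.lam' 0)
        (y := g.mu' 0) ha hba hbc hL hT (by rw [r3]; ring) q3 hk3' hp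
      exact ⟨hp, e1, e2⟩
    · exact p3_exc (a := g.t 1) (b := g.t 2) (c := g.s 3) (x := 1 - g.lam' 0) (y := g.mu' 0) ha hba
        (by rw [r3]; ring) q3 hk3' e1 (by rw [e2]; ring)
  obtain ⟨hp, E1, E2⟩ := key
  obtain ⟨P, hP0, i1, i2, i3, i4, i5⟩ := p3_param ha hc (t1_sub g (by omega)) (t2_sub g (by omega))
    hx hp E1 E2
  exact ⟨P, hP0, by rw [← i1]; ring, i2, i3, i4, i5⟩

end Pool.Agent.Helper43.IPL
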