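import Pool.Agent.Helper43.IPL.P3Alg

/-!
MP_d2f54f_al (inverting pairs), piece P3: the columns 2, 3, 4, 5 in rows 1, 2, 3 (scalar form).
-/

namespace Pool.Agent.Helper43.IPL

variable {F : Type*} [Field F]

section col

variable {a b c x y al de P : F}

theorem p3_al (ham : a - 1 ≠ 0) (hP : P ≠ 0) (hx : x = -(a ^ 2 * b * (a - 1)) * P)
    (hy : y = -((a - 1) * c ^ 2) * P) (hq : 1 - y = c * (b - 1) * P)
    (hal : al * ((a - 1) * (a * x + y)) = (a - 1) * (y - 1) + x * (b - 1)) :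
    al * ((a - 1) * (a ^ 3 * b + c ^ 2)) = (b - 1) * (a ^ 2 * b + c) := by
  apply mul_left_cancel₀ (mul_ne_zero ham hP)
  linear_combination (-1 : F) * hal + al * (a - 1) * (a * hx + hy) + (a - 1) * hq - (b - 1) * hx

theorem p3_al' (hR : rr3 a b c = 0)
    (hal : al * ((a - 1) * (a ^ 3 * b + c ^ 2)) = (b - 1) * (a ^ 2 * b + c)) :
    (1 - al) * ((a - 1) * (a ^ 3 * b + c ^ 2)) =
      a ^ 2 * (b * (a ^ 2 - b) - a * (b - 1) * c) := by
  rw [rr3] at hR
  linear_combination (-1 : F) * hal + (a - 1) * hR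

theorem p3_de (hde : b * de = a ^ 2 * c * al)
    (hal : al * ((a - 1) * (a ^ 3 * b + c ^ 2)) = (b - 1) * (a ^ 2 * b + c)) :
    de * (b * ((a - 1) * (a ^ 3 * b + c ^ 2))) = a ^ 2 * c * ((b - 1) * (a ^ 2 * b + c)) := by
  linear_combination ((a - 1) * (a ^ 3 * b + c ^ 2)) * hde + a ^ 2 * c * hal

theorem p3_de' (hR : rr3 a b c = 0) (hde : b * de = a ^ 2 * c * al)
    (hal : al * ((a - 1) * (a ^ 3 * b + c ^ 2)) = (b - 1) * (a ^ 2 * b + c)) :
    (1 - de) * (b * ((a - 1) * (a ^ 3 * b + c ^ 2))) =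
      c * ((a ^ 2 - b) * c - a * b * (b - 1)) := by
  have h := p3_de hde hal
  rw [rr3] at hR
  linear_combination (-1 : F) * h - a * b * (a - 1) * hR

/-- `s_4 = a c / b` -/
theorem p3_s4 {d G13 G14 : F} (ha : a ≠ 0) (ham : a - 1 ≠ 0) (hP : P ≠ 0)
    (hp : 1 - x = a ^ 3 * c * (b - 1) * P) (hx : x = -(a ^ 2 * b * (a - 1)) * P)
    (g13 : G13 = 1 - x + x * c) (g14 : G14 = 1 - x + x * d) (u : G14 = a * G13) :
    b * d = a * c := by
  apply mul_left_cancel₀ (mul_ne_zero (mul_ne_zero (pow_ne_zero 2 ha) ham) hP)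
  linear_combination g14 - u - a * g13 + (1 - a) * hp + (d - a * c) * hx

theorem p3_g13 {G13 : F} (hp : 1 - x = a ^ 3 * c * (b - 1) * P)
    (hx : x = -(a ^ 2 * b * (a - 1)) * P) (g13 : G13 = 1 - x + x * c) :
    G13 = a ^ 2 * c * (b - a) * P := by
  linear_combination g13 + hp + c * hx

/-- `K L_2 = c (c - b)`, `K M_2 = a b^2 (c - b)`. -/
theorem p3_KL {L M G12 H12 G13 H13 : F} (ha : a ≠ 0) (ham : a - 1 ≠ 0) (hP : P ≠ 0)
    (hp : 1 - x = a ^ 3 * c * (b - 1) * P) (hx : x = -(a ^ 2 * b * (a - 1)) * P)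
    (hq : 1 - y = c * (b - 1) * P) (hy : y = -((a - 1) * c ^ 2) * P)
    (g12 : G12 = 1 - x + x * b) (h12 : b * H12 = (1 - y) * b + y) (g13 : G13 = 1 - x + x * c)
    (hk : a ^ 2 * H13 = G13)
    (u : G13 = L * (a * G12) + (1 - L) * (a ^ 2 * H12))
    (v : a ^ 3 * H13 = (1 - M) * (a * G12) + M * (a ^ 2 * H12)) :
    kk a b c * L = c * (c - b) ∧ kk a b c * M = a * b ^ 2 * (c - b) := by
  have e1 : G12 = (a ^ 3 * c * (b - 1) - a ^ 2 * b ^ 2 * (a - 1)) * P := by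
    linear_combination g12 + hp + b * hx
  have e2 : b * H12 = (b * c * (b - 1) - (a - 1) * c ^ 2) * P := by
    linear_combination h12 + b * hq + hy
  have e3 := p3_g13 hp hx g13
  have e4 : b * (a * G12 - a ^ 2 * H12) = (a - 1) * a ^ 2 * kk a b c * P := by
    rw [kk]
    linear_combination a * b * e1 - a ^ 2 * e2
  rw [kk] at *
  constructor
  · apply mul_left_cancel₀ (mul_ne_zero (mul_ne_zero ham (pow_ne_zero 2 ha)) hP)
    linear_combination (-L) * e4 - b * u + b * e3 - a ^ 2 * e2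
  · apply mul_left_cancel₀ (mul_ne_zero (mul_ne_zero ham (pow_ne_zero 2 ha)) hP)
    linear_combination (-M) * e4 + b * v + a * b * e1 - a * b * e3 - a * b * hk

/-- `L_3` -/
theorem p3_L3 {d L3 G13 H13 G14 H14 G23 H23 G24 : F} (ha : a ≠ 0) (hb : b ≠ 0) (hc : c ≠ 0)
    (ham : a - 1 ≠ 0) (hbm : b - 1 ≠ 0) (hba : b - a ≠ 0) (hP : P ≠ 0)
    (hR : rr3 a b c = 0) (hde : b * de = a ^ 2 * c * al)
    (hal : al * ((a - 1) * (a ^ 3 * b + c ^ 2)) = (b - 1) * (a ^ 2 * b + c))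
    (e13 : G13 = a ^ 2 * c * (b - a) * P) (hk : a ^ 2 * H13 = G13)
    (hd : b * d = a * c) (e14 : G14 = a * G13) (f14 : a ^ 4 * H14 = a * G13)
    (g23 : G23 = c * (al * G13 + (1 - al) * H13)) (h23 : c * H23 = (1 - de) * G13 + de * H13)
    (g24 : G24 = d * (al * G14 + (1 - al) * H14))
    (u : G24 = L3 * (b * G23) + (1 - L3) * (b ^ 3 * H23)) :
    L3 * (b ^ 2 * (c - b) * (c - a * b)) = q3 a b c := by
  have a1 := p3_al' hR hal
  have d0 := p3_de hde hal
  have d1 := p3_de' hR hde hal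
  have i13 : H13 = c * (b - a) * P := by
    apply mul_left_cancel₀ (pow_ne_zero 2 ha)
    linear_combination hk + e13
  have i14 : a * H14 = c * (b - a) * P := by
    apply mul_left_cancel₀ (pow_ne_zero 3 ha)
    linear_combination f14 + a * e13
  obtain ⟨D, hD⟩ : ∃ D, D = (a - 1) * (a ^ 3 * b + c ^ 2) := ⟨_, rfl⟩
  rw [← hD] at a1 d0 d1 hal
  have j23 : D * G23 = a ^ 2 * c ^ 2 * (b - a) * (a - 1) * ((a + 1) * b ^ 2 - (b - 1) * c) * P := by
    rw [g23, i13, e13]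
    linear_combination a ^ 2 * c ^ 2 * (b - a) * P * hal + c ^ 2 * (b - a) * P * a1
  have k23 : b * D * H23 = a ^ 2 * c * (b - a) * (a - 1) * ((a + 1) * c + a * b * (b - 1)) * P := by
    apply mul_left_cancel₀ hc
    have : c * (b * D * H23) = b * D * (c * H23) := by ring
    rw [this, h23, i13, e13]
    linear_combination a ^ 2 * c * (b - a) * P * d1 + c * (b - a) * P * d0
  have j24 : b * D * G24 = a ^ 2 * c ^ 2 * (b - a) * (a - 1) *
      ((a + 1) * (a ^ 2 + 1) * b ^ 2 - a ^ 2 * (a + 1) * b + a * (b - 1) * c) * P := by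
    apply mul_left_cancel₀ ha
    have : a * (b * D * G24) = (b * d) * (D * al * (a * G14) + D * (1 - al) * (a * H14)) := by
      rw [g24]; ring
    rw [this, hd, i14, e14, e13]
    linear_combination a * c * (a * (a * (a ^ 2 * c * (b - a) * P)) * hal + c * (b - a) * P * a1)
  rw [q3]
  apply mul_left_cancel₀ (mul_ne_zero (mul_ne_zero (mul_ne_zero (mul_ne_zero (mul_ne_zero
    (pow_ne_zero 2 ha) hc) hba) ham) hbm) hP)
  linear_combination b * D * u - j24 + b ^ 3 * k23 + L3 * b ^ 2 * j23 - L3 * b ^ 3 * k23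

end col

end Pool.Agent.Helper43.IPL
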