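import Pool.Agent.Helper43.IPL.P3Col

/-!
MP_d2f54f_al (inverting pairs), piece P3: the column 5 in rows 1, 2 (scalar form).
-/

namespace Pool.Agent.Helper43.IPL

variable {F : Type*} [Field F]

def gam0 (a b c : F) : F :=
  (a + 1) * (a ^ 2 + 1) * b ^ 2 - a ^ 2 * (a + 1) * b + a * (b - 1) * c

def eps0 (a b c : F) : F := (a + 1) * (a ^ 2 + 1 - b) * c - a ^ 2 * b * (b - 1)

section col

variable {a b c al de P : F}

/-- the column 4 in row 2 -/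
theorem p3_col4 {d G14 H14 G24 H24 : F} (ha : a ≠ 0) (hb : b ≠ 0) (hc : c ≠ 0)
    (ham : a - 1 ≠ 0)
    (hR : rr3 a b c = 0) (hde : b * de = a ^ 2 * c * al)
    (hal : al * ((a - 1) * (a ^ 3 * b + c ^ 2)) = (b - 1) * (a ^ 2 * b + c))
    (hd : b * d = a * c) (e14 : G14 = a ^ 3 * c * (b - a) * P) (f14 : a * H14 = c * (b - a) * P)
    (g24 : G24 = d * (al * G14 + (1 - al) * H14)) (h24 : d * H24 = (1 - de) * G14 + de * H14) :
    b * (a ^ 3 * b + c ^ 2) * G24 = a ^ 2 * c ^ 2 * (b - a) * gam0 a b c * P ∧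
      (a ^ 3 * b + c ^ 2) * H24 = c * (b - a) * eps0 a b c * P := by
  have a1 := p3_al' hR hal
  have d0 := p3_de hde hal
  have d1 := p3_de' hR hde hal
  constructor
  · rw [gam0]
    apply mul_left_cancel₀ (mul_ne_zero ha ham)
    have : a * (a - 1) * (b * (a ^ 3 * b + c ^ 2) * G24) = (b * d) *
        ((al * ((a - 1) * (a ^ 3 * b + c ^ 2))) * (a * G14) +
          ((1 - al) * ((a - 1) * (a ^ 3 * b + c ^ 2))) * (a * H14)) := by
      rw [g24]; ring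
    rw [this, hd, hal, a1, f14, e14]
    ring
  · rw [eps0]
    apply mul_left_cancel₀ (mul_ne_zero (mul_ne_zero (pow_ne_zero 2 ha) ham) hc)
    have : a ^ 2 * (a - 1) * c * ((a ^ 3 * b + c ^ 2) * H24) =
        ((1 - de) * (b * ((a - 1) * (a ^ 3 * b + c ^ 2)))) * (a * G14) +
          (de * (b * ((a - 1) * (a ^ 3 * b + c ^ 2)))) * (a * H14) := by
      have h : a ^ 2 * (a - 1) * c * ((a ^ 3 * b + c ^ 2) * H24) =
        a * (a - 1) * (a ^ 3 * b + c ^ 2) * b * (d * H24) := by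
        linear_combination (-(a * (a - 1) * (a ^ 3 * b + c ^ 2) * H24)) * hd
      rw [h, h24]; ring
    rw [this, d1, d0, f14, e14]
    ring

/-- `L_4`, `M_4` -/
theorem p3_LM4 {x y e L M G14 H14 G15 H15 : F} (ha : a ≠ 0) (hc : c ≠ 0) (ham : a - 1 ≠ 0)
    (hP : P ≠ 0)
    (hp : 1 - x = a ^ 3 * c * (b - 1) * P) (hx : x = -(a ^ 2 * b * (a - 1)) * P)
    (hq : 1 - y = c * (b - 1) * P) (hy : y = -((a - 1) * c ^ 2) * P)
    (e14 : G14 = a ^ 3 * c * (b - a) * P) (f14 : a * H14 = c * (b - a) * P)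
    (g15 : G15 = 1 - x + x * e) (h15 : e * H15 = (1 - y) * e + y)
    (u : G15 = L * (a * G14) + (1 - L) * (a ^ 4 * H14))
    (v : a ^ 5 * H15 = (1 - M) * (a * G14) + M * (a ^ 4 * H14)) :
    G15 = (a ^ 3 * c * (b - 1) - a ^ 2 * b * (a - 1) * e) * P ∧
    e * H15 = (c * (b - 1) * e - (a - 1) * c ^ 2) * P ∧
    L * (a * c * (b - a)) = a * c - b * e ∧ M * ((b - a) * e) = a * (a * c - b * e) := by
  have e1 : G15 = (a ^ 3 * c * (b - 1) - a ^ 2 * b * (a - 1) * e) * P := by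
    linear_combination g15 + hp + e * hx
  have e2 : e * H15 = (c * (b - 1) * e - (a - 1) * c ^ 2) * P := by
    linear_combination h15 + e * hq + hy
  refine ⟨e1, e2, ?_, ?_⟩
  · apply mul_left_cancel₀ (mul_ne_zero (mul_ne_zero (pow_ne_zero 2 ha) ham) hP)
    linear_combination e1 - u - L * a * e14 - (1 - L) * a ^ 3 * f14
  · apply mul_left_cancel₀ (mul_ne_zero (mul_ne_zero (mul_ne_zero (pow_ne_zero 3 ha) hc) ham) hP)
    linear_combination e * v - a ^ 5 * e2 + (1 - M) * e * a * e14 + M * e * a ^ 3 * f14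

/-- the dichotomy for `s_5` -/
theorem p3_E {e L M G15 H15 G24 H24 G25 H25 : F} (ha : a ≠ 0) (hb : b ≠ 0) (hc : c ≠ 0)
    (ham : a - 1 ≠ 0)
    (hbm : b - 1 ≠ 0) (hS : a ^ 2 * b + c ≠ 0) (hP : P ≠ 0) (hde' : a * c - b * e ≠ 0)
    (hR : rr3 a b c = 0) (hde : b * de = a ^ 2 * c * al)
    (hal : al * ((a - 1) * (a ^ 3 * b + c ^ 2)) = (b - 1) * (a ^ 2 * b + c))
    (hG : b * (a ^ 3 * b + c ^ 2) * G24 = a ^ 2 * c ^ 2 * (b - a) * gam0 a b c * P)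
    (hH : (a ^ 3 * b + c ^ 2) * H24 = c * (b - a) * eps0 a b c * P)
    (e1 : G15 = (a ^ 3 * c * (b - 1) - a ^ 2 * b * (a - 1) * e) * P)
    (e2 : e * H15 = (c * (b - 1) * e - (a - 1) * c ^ 2) * P)
    (hL : L * (a * c * (b - a)) = a * c - b * e) (hM : M * ((b - a) * e) = a * (a * c - b * e))
    (g25 : G25 = e * (al * G15 + (1 - al) * H15)) (h25 : e * H25 = (1 - de) * G15 + de * H15)
    (u : G25 = L * (b * G24) + (1 - L) * (b ^ 4 * H24))
    (v : b ^ 5 * H25 = (1 - M) * (b * G24) + M * (b ^ 4 * H24)) :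
    (a ^ 3 * (b - 1) * (a ^ 2 * b + c) * e * (a * c * (b - 1) - b * (a - 1) * e) +
      a ^ 3 * c * (b * (a ^ 2 - b) - a * (b - 1) * c) * ((b - 1) * e - (a - 1) * c) -
      a ^ 3 * (a - 1) * c ^ 2 * (b - a) * gam0 a b c - (a - 1) *
      (a ^ 2 * c * gam0 a b c - b ^ 4 * eps0 a b c) * (a * c * (a + 1 - b) - b * e) = 0) ∧
    (e + a * c) * (a ^ 3 * e - b ^ 4) = 0 := by
  have a1 := p3_al' hR hal
  have d0 := p3_de hde hal
  have d1 := p3_de' hR hde hal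
  obtain ⟨T, hT⟩ : ∃ T, T = a ^ 3 * b + c ^ 2 := ⟨_, rfl⟩
  rw [← hT] at a1 d0 d1 hal hG hH
  have k1 : (a - 1) * T * G25 = a ^ 2 * ((b - 1) * (a ^ 2 * b + c) * e *
      (a * c * (b - 1) - b * (a - 1) * e) + c * (b * (a ^ 2 - b) - a * (b - 1) * c) *
      ((b - 1) * e - (a - 1) * c)) * P := by
    have : (a - 1) * T * G25 = (al * ((a - 1) * T)) * (e * G15) + ((1 - al) * ((a - 1) * T)) *
      (e * H15) := by rw [g25]; ring
    rw [this, hal, a1, e2, e1]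
    ring
  have k2 : (a - 1) * T * b * e ^ 2 * H25 = c * a ^ 2 * (((a ^ 2 - b) * c - a * b * (b - 1)) * e *
      (a * c * (b - 1) - b * (a - 1) * e) + c * (b - 1) * (a ^ 2 * b + c) *
      ((b - 1) * e - (a - 1) * c)) * P := by
    have : (a - 1) * T * b * e ^ 2 * H25 = ((1 - de) * (b * ((a - 1) * T))) * (e * G15) +
      (de * (b * ((a - 1) * T))) * (e * H15) := by
      linear_combination ((a - 1) * T * b * e) * h25
    rw [this, d0, d1, e2, e1]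
    ring
  have k3 : T * (b * G24 - b ^ 4 * H24) =
      c * (b - a) * (a ^ 2 * c * gam0 a b c - b ^ 4 * eps0 a b c) * P := by
    linear_combination hG - b ^ 4 * hH
  have q1 : a ^ 3 * (b - 1) * (a ^ 2 * b + c) * e * (a * c * (b - 1) - b * (a - 1) * e) +
      a ^ 3 * c * (b * (a ^ 2 - b) - a * (b - 1) * c) * ((b - 1) * e - (a - 1) * c) -
      a ^ 3 * (a - 1) * c ^ 2 * (b - a) * gam0 a b c - (a - 1) *
      (a ^ 2 * c * gam0 a b c - b ^ 4 * eps0 a b c) * (a * c * (a + 1 - b) - b * e) = 0 := by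
    apply mul_left_cancel₀ hP
    linear_combination (-a) * k1 + a * (a - 1) * T * u + a * (a - 1) * hG -
      (1 - L) * a * (a - 1) * k3 + (a - 1) * (a ^ 2 * c * gam0 a b c - b ^ 4 * eps0 a b c) * P * hL
  have q2 : a ^ 2 * b ^ 4 * (((a ^ 2 - b) * c - a * b * (b - 1)) * e *
      (a * c * (b - 1) - b * (a - 1) * e) + c * (b - 1) * (a ^ 2 * b + c) *
      ((b - 1) * e - (a - 1) * c)) - a ^ 2 * (a - 1) * c * (b - a) * gam0 a b c * e ^ 2 -
      a * (a - 1) * (a ^ 2 * c * gam0 a b c - b ^ 4 * eps0 a b c) * e * (b * e - a * c) = 0 := by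
    apply mul_left_cancel₀ (mul_ne_zero hc hP)
    linear_combination (-b ^ 4) * k2 + (a - 1) * T * e ^ 2 * v + (a - 1) * e ^ 2 * hG
      - (a - 1) * e ^ 2 * M * k3 - (a - 1) * e *
      c * (a ^ 2 * c * gam0 a b c - b ^ 4 * eps0 a b c) * P * hM
  refine ⟨q1, ?_⟩
  apply mul_left_cancel₀ (mul_ne_zero (mul_ne_zero (mul_ne_zero ham hbm) hS) hde')
  rw [gam0, eps0] at q1 q2
  linear_combination e * q1 + q2

/-- `Z = 0` -/
theorem p3_Z {e : F} (ha : a ≠ 0) (hb : b ≠ 0) (hc : c ≠ 0) (ham : a - 1 ≠ 0) (hbm : b - 1 ≠ 0)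
    (hab : a - b ≠ 0) (hb2 : b - a ^ 2 ≠ 0) (he : a ^ 3 * e - b ^ 4 = 0)
    (h : a ^ 3 * (b - 1) * (a ^ 2 * b + c) * e * (a * c * (b - 1) - b * (a - 1) * e) +
      a ^ 3 * c * (b * (a ^ 2 - b) - a * (b - 1) * c) * ((b - 1) * e - (a - 1) * c) -
      a ^ 3 * (a - 1) * c ^ 2 * (b - a) * gam0 a b c - (a - 1) *
      (a ^ 2 * c * gam0 a b c - b ^ 4 * eps0 a b c) * (a * c * (a + 1 - b) - b * e) = 0) :
    a ^ 2 * c * (a ^ 3 - (a ^ 2 + a + 1) * b ^ 2) + b ^ 4 * (a * (a ^ 2 + a + 1) - b ^ 2) = 0 := by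
  rw [gam0, eps0] at h
  apply mul_left_cancel₀ (mul_ne_zero (mul_ne_zero (mul_ne_zero (mul_ne_zero (mul_ne_zero
    (mul_ne_zero (pow_ne_zero 4 ha) hb) hc) ham) hab) hbm) hb2)
  have e1 : a ^ 3 * e = b ^ 4 := by linear_combination he
  have : a ^ 6 * (a ^ 3 * (b - 1) * (a ^ 2 * b + c) * e * (a * c * (b - 1) - b * (a - 1) * e) +
      a ^ 3 * c * (b * (a ^ 2 - b) - a * (b - 1) * c) * ((b - 1) * e - (a - 1) * c) -
      a ^ 3 * (a - 1) * c ^ 2 * (b - a) * ((a + 1) * (a ^ 2 + 1) * b ^ 2 - a ^ 2 * (a + 1) * b +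
      a * (b - 1) * c) - (a - 1) * (a ^ 2 * c * ((a + 1) * (a ^ 2 + 1) * b ^ 2 -
      a ^ 2 * (a + 1) * b + a * (b - 1) * c) - b ^ 4 * ((a + 1) * (a ^ 2 + 1 - b) * c -
      a ^ 2 * b * (b - 1))) * (a * c * (a + 1 - b) - b * e)) =
      (b - 1) * (a ^ 2 * b + c) * a ^ 3 * (a ^ 3 * e) * (a ^ 4 * c * (b - 1) -
      b * (a - 1) * (a ^ 3 * e)) + a ^ 6 * c * (b * (a ^ 2 - b) - a * (b - 1) * c) *
      ((b - 1) * (a ^ 3 * e) - (a - 1) * c * a ^ 3) -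
      a ^ 9 * (a - 1) * c ^ 2 * (b - a) * ((a + 1) * (a ^ 2 + 1) * b ^ 2 - a ^ 2 * (a + 1) * b +
      a * (b - 1) * c) - (a - 1) * (a ^ 2 * c * ((a + 1) * (a ^ 2 + 1) * b ^ 2 -
      a ^ 2 * (a + 1) * b + a * (b - 1) * c) - b ^ 4 * ((a + 1) * (a ^ 2 + 1 - b) * c -
      a ^ 2 * b * (b - 1))) * (a ^ 7 * c * (a + 1 - b) - a ^ 3 * b * (a ^ 3 * e)) := by ring
  rw [h, e1, mul_zero] at this
  linear_combination (-1 : F) * this

end col

end Pool.Agent.Helper43.IPL
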