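import Mathlib

/-!
MP_d2f54f_al (inverting pairs), piece P3: the cell `(3,5)` fails at the sporadic points.
All quantities are expressed as polynomials of degree at most 9 in `r`.
-/

namespace Pool.Agent.Helper43.IPL

variable {F : Type*} [Field F]

theorem spor_dead {a r c : F} (hr : r ≠ 0) (hrp : r + 1 ≠ 0) (hr1 : r - 1 ≠ 0)
    (hr2 : r ^ 2 + 1 ≠ 0) (hw0 : a * r ^ 5 - c ≠ 0)
    (hLc : 3 + r + 2 * r ^ 2 + 3 * r ^ 3 + c * r * (3 + 2 * r + r ^ 2 + 3 * r ^ 3) = 0)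
    (hLa : 3 + 4 * r + 3 * r ^ 2 + 2 * r ^ 3 + 6 * r ^ 4 +
      a * r * (6 + 2 * r + 3 * r ^ 2 + 4 * r ^ 3 + 3 * r ^ 4) = 0)
    (hh : 9 + 24 * r + 37 * r ^ 2 + 61 * r ^ 3 + 71 * r ^ 4 + 82 * r ^ 5 + 71 * r ^ 6 + 61 * r ^ 7
      + 37 * r ^ 8 + 24 * r ^ 9 + 9 * r ^ 10 = 0)
    {X p1 g1 e0 V m : F}
    (em : m = c + a ^ 2 * r ^ 2 - a * (a + 1) * r)
    (eV : V = a * (1 - r) * (r ^ 4 - c ^ 2) - (a * r ^ 5 - c) * (a - c))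
    (eX : X = (c - a * r) * (a * r ^ 5 - c) * (a ^ 2 * r ^ 6 - c ^ 2) + r ^ 3 * c * m * V)
    (ep : p1 = a * r ^ 4 * (c - a * r) * (a * c * (1 - r) - (a * r ^ 5 - c)) +
      r * c * m * (a * r ^ 5 - c))
    (eg : g1 = (a + 1) * (a ^ 2 + 1) * a * r ^ 2 - a ^ 2 * (a + 1) * r + (a * r - 1) * c)
    (ee : e0 = (a + 1) * (a ^ 2 + 1 - a * r) * c - a ^ 3 * r * (a * r - 1))
    (hT : c * X * g1 + r * (a ^ 2 * r ^ 5 - c ^ 2) * p1 * e0 = 0) : False := by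
  subst em eV eX ep eg ee
  have h3 : (3 : F) ≠ 0 := by
    intro h
    apply mul_ne_zero (mul_ne_zero (pow_ne_zero 2 hr) (pow_ne_zero 2 hrp)) (pow_ne_zero 4 hr1)
    linear_combination hh + (-3 - 8 * r - 12 * r ^ 2 - 21 * r ^ 3 - 24 * r ^ 4 - 26 * r ^ 5 - 24 *
      r ^ 6 - 21 * r ^ 7 - 12 * r ^ 8 - 8 * r ^ 9 - 3 * r ^ 10) * h
  have hA : 3 + 2 * r + r ^ 2 + 3 * r ^ 3 ≠ 0 := by
    intro h
    apply pow_ne_zero 5 h3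
    linear_combination (36 - 246 * r - 260 * r ^ 2 - 385 * r ^ 3 - 272 * r ^ 4 - 340 * r ^ 5 - 227 *
      r ^ 6 - 163 * r ^ 7 + 3 * r ^ 8 + 45 * r ^ 9) * h - (-15 - 34 * r + 15 * r ^ 2) * hh
  have hB : 6 + 2 * r + 3 * r ^ 2 + 4 * r ^ 3 + 3 * r ^ 4 ≠ 0 := by
    intro h
    apply mul_ne_zero (pow_ne_zero 5 h3) (pow_ne_zero 3 hr1)
    linear_combination (93 + 595 * r + 670 * r ^ 2 + 1235 * r ^ 3 + 1294 * r ^ 4 + 1289 * r ^ 5 +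
      1015 * r ^ 6 + 589 * r ^ 7 + 231 * r ^ 8 + 36 * r ^ 9) * h - (89 + 99 * r + 61 * r ^ 2 + 12 *
      r ^ 3) * hh
  have hc : 27 * c = 81 + 93 * r + 202 * r ^ 2 + 233 * r ^ 3 + 298 * r ^ 4 + 251 * r ^ 5 + 235 * r ^
    6 + 152 * r ^ 7 + 111 * r ^ 8 + 45 * r ^ 9 := by
    apply mul_left_cancel₀ (mul_ne_zero hr hA)
    linear_combination 27 * hLc + (-9 - 6 * r - 2 * r ^ 2 - 15 * r ^ 3) * hh
  have ha : 81 * a = 102 + 283 * r + 505 * r ^ 2 + 563 * r ^ 3 + 697 * r ^ 4 + 590 * r ^ 5 + 472 *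
    r ^ 6 + 274 * r ^ 7 + 123 * r ^ 8 + 36 * r ^ 9 := by
    apply mul_left_cancel₀ (mul_ne_zero hr hB)
    linear_combination 81 * hLa + (-27 - 32 * r - 42 * r ^ 2 - 25 * r ^ 3 - 12 * r ^ 4) * hh
  obtain ⟨w, dw⟩ : ∃ z, z = a * r ^ 5 - c := ⟨_, rfl⟩
  obtain ⟨dl, ddl⟩ : ∃ z, z = c - r * a := ⟨_, rfl⟩
  obtain ⟨a2, da2⟩ : ∃ z, z = a * a := ⟨_, rfl⟩
  obtain ⟨ac, dac⟩ : ∃ z, z = a * c := ⟨_, rfl⟩
  obtain ⟨c2, dc2⟩ : ∃ z, z = c * c := ⟨_, rfl⟩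
  obtain ⟨m, dm⟩ : ∃ z, z = c + r ^ 2 * a2 - r * a2 - r * a := ⟨_, rfl⟩
  obtain ⟨V, dV⟩ : ∃ z, z = r ^ 4 * a - r ^ 5 * a - a * c2 + r * (a * c2) - w * a + w * c := ⟨_, rfl⟩
  obtain ⟨F1, dF1⟩ : ∃ z, z = r ^ 6 * a2 - c2 := ⟨_, rfl⟩
  obtain ⟨F2, dF2⟩ : ∃ z, z = r ^ 5 * a2 - c2 := ⟨_, rfl⟩
  obtain ⟨lw, dlw⟩ : ∃ z, z = dl * w := ⟨_, rfl⟩
  obtain ⟨cm, dcm⟩ : ∃ z, z = c * m := ⟨_, rfl⟩
  obtain ⟨X, dX⟩ : ∃ z, z = lw * F1 + r ^ 3 * (cm * V) := ⟨_, rfl⟩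
  obtain ⟨la, dla⟩ : ∃ z, z = ac - r * ac - w := ⟨_, rfl⟩
  obtain ⟨ad, dad⟩ : ∃ z, z = a * dl := ⟨_, rfl⟩
  obtain ⟨p1, dp1⟩ : ∃ z, z = r ^ 4 * (ad * la) + r * (cm * w) := ⟨_, rfl⟩
  obtain ⟨a3, da3⟩ : ∃ z, z = a2 * a := ⟨_, rfl⟩
  obtain ⟨a4, da4⟩ : ∃ z, z = a2 * a2 := ⟨_, rfl⟩
  obtain ⟨g1, dg1⟩ : ∃ z, z = r ^ 2 * a4 + r ^ 2 * a3 + r ^ 2 * a2 + r ^ 2 * a - r * a3 - r * a2 + r * ac - c := ⟨_, rfl⟩
  obtain ⟨e0, de0⟩ : ∃ z, z = a2 * ac + a * ac + ac + c - r * (a * ac) - r * ac - r ^ 2 * a4 + r * a3 := ⟨_, rfl⟩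
  obtain ⟨cX, dcX⟩ : ∃ z, z = c * X := ⟨_, rfl⟩
  obtain ⟨U1, dU1⟩ : ∃ z, z = cX * g1 := ⟨_, rfl⟩
  obtain ⟨Fp, dFp⟩ : ∃ z, z = F2 * p1 := ⟨_, rfl⟩
  obtain ⟨U2, dU2⟩ : ∃ z, z = Fp * e0 := ⟨_, rfl⟩
  obtain ⟨T, dT⟩ : ∃ z, z = U1 + r * U2 := ⟨_, rfl⟩
  have hw : 9 * w = -24 - 20 * r - 53 * r ^ 2 - 64 * r ^ 3 - 92 * r ^ 4 - 85 * r ^ 5 - 80 * r ^ 6 -
    56 * r ^ 7 - 48 * r ^ 8 - 18 * r ^ 9 := by
    apply mul_left_cancel₀ (pow_ne_zero 2 h3)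
    linear_combination 81 * dw + (1) * r ^ 5 * ha + (-3) * hc + (-3 - 3 * r + 6 * r ^ 2 + 3 * r ^ 3
      + 4 * r ^ 4) * hh
  have hdl : 27 * dl = 93 + 91 * r + 157 * r ^ 2 + 146 * r ^ 3 + 205 * r ^ 4 + 128 * r ^ 5 + 133 *
    r ^ 6 + 76 * r ^ 7 + 69 * r ^ 8 + 36 * r ^ 9 := by
    apply mul_left_cancel₀ (pow_ne_zero 1 h3)
    linear_combination 81 * ddl + (3) * hc + (-1) * r * ha + (-4) * hh
  have ha2 : 729 * a2 = -291 - 1498 * r - 1582 * r ^ 2 - 1826 * r ^ 3 - 1783 * r ^ 4 - 1367 * r ^ 5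
    - 73 * r ^ 6 + 65 * r ^ 7 + 804 * r ^ 8 + 504 * r ^ 9 := by
    apply mul_left_cancel₀ (pow_ne_zero 2 h3)
    linear_combination 6561 * da2 + (1) * (81 * a) * ha + (1) * (102 + 283 * r + 505 * r ^ 2 + 563 *
      r ^ 3 + 697 * r ^ 4 + 590 * r ^ 5 + 472 * r ^ 6 + 274 * r ^ 7 + 123 * r ^ 8 + 36 * r ^ 9) *
      ha + (1447 + 4054 * r + 5168 * r ^ 2 + 6091 * r ^ 3 + 4943 * r ^ 4 + 3340 * r ^ 5 + 1681 * r ^
      6 + 600 * r ^ 7 + 144 * r ^ 8) * hh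
  have hac : 81 * ac = 30 - 110 * r + 19 * r ^ 2 - 130 * r ^ 3 + 94 * r ^ 4 + 32 * r ^ 5 + 166 * r ^
    6 + 82 * r ^ 7 + 132 * r ^ 8 + 90 * r ^ 9 := by
    apply mul_left_cancel₀ (pow_ne_zero 3 h3)
    linear_combination 2187 * dac + (1) * (27 * c) * ha + (1) * (102 + 283 * r + 505 * r ^ 2 + 563 *
      r ^ 3 + 697 * r ^ 4 + 590 * r ^ 5 + 472 * r ^ 6 + 274 * r ^ 7 + 123 * r ^ 8 + 36 * r ^ 9) *
      hc + (828 + 1723 * r + 1703 * r ^ 2 + 2431 * r ^ 3 + 2153 * r ^ 4 + 1927 * r ^ 5 + 1211 * r ^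
      6 + 579 * r ^ 7 + 180 * r ^ 8) * hh
  have hc2 : 9 * c2 = 69 + 80 * r + 179 * r ^ 2 + 193 * r ^ 3 + 263 * r ^ 4 + 220 * r ^ 5 + 209 * r ^
    6 + 119 * r ^ 7 + 81 * r ^ 8 + 36 * r ^ 9 := by
    apply mul_left_cancel₀ (pow_ne_zero 4 h3)
    linear_combination 729 * dc2 + (1) * (27 * c) * hc + (1) * (81 + 93 * r + 202 * r ^ 2 + 233 * r ^
      3 + 298 * r ^ 4 + 251 * r ^ 5 + 235 * r ^ 6 + 152 * r ^ 7 + 111 * r ^ 8 + 45 * r ^ 9) * hc +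
      (108 + 666 * r + 766 * r ^ 2 + 1119 * r ^ 3 + 847 * r ^ 4 + 867 * r ^ 5 + 604 * r ^ 6 + 510 *
      r ^ 7 + 225 * r ^ 8) * hh
  have hm : 243 * m = 1185 + 1676 * r + 2798 * r ^ 2 + 3010 * r ^ 3 + 3533 * r ^ 4 + 2983 * r ^ 5 +
    2273 * r ^ 6 + 1286 * r ^ 7 + 867 * r ^ 8 + 315 * r ^ 9 := by
    apply mul_left_cancel₀ (pow_ne_zero 1 h3)
    linear_combination 729 * dm + (27) * hc + (1) * r ^ 2 * ha2 + (-1) * r * ha2 + (-9) * r * ha +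
      (-152 + 56 * r) * hh
  have hV : 27 * V = -375 - 488 * r - 1088 * r ^ 2 - 1192 * r ^ 3 - 1571 * r ^ 4 - 1327 * r ^ 5 -
    1256 * r ^ 6 - 764 * r ^ 7 - 480 * r ^ 8 - 207 * r ^ 9 := by
    apply mul_left_cancel₀ (pow_ne_zero 3 h3)
    linear_combination 729 * dV + (9) * r ^ 4 * ha + (-9) * r ^ 5 * ha + (-1) * (9 * c2) * ha +
      (-1) * (102 + 283 * r + 505 * r ^ 2 + 563 * r ^ 3 + 697 * r ^ 4 + 590 * r ^ 5 + 472 * r ^ 6 +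
      274 * r ^ 7 + 123 * r ^ 8 + 36 * r ^ 9) * hc2 + (1) * r * (9 * c2) * ha + (1) * r * (102 +
      283 * r + 505 * r ^ 2 + 563 * r ^ 3 + 697 * r ^ 4 + 590 * r ^ 5 + 472 * r ^ 6 + 274 * r ^ 7 +
      123 * r ^ 8 + 36 * r ^ 9) * hc2 + (-1) * (81 * a) * hw + (-1) * (-24 - 20 * r - 53 * r ^ 2 -
      64 * r ^ 3 - 92 * r ^ 4 - 85 * r ^ 5 - 80 * r ^ 6 - 56 * r ^ 7 - 48 * r ^ 8 - 18 * r ^ 9) *
      ha + (3) * (27 * c) * hw + (3) * (-24 - 20 * r - 53 * r ^ 2 - 64 * r ^ 3 - 92 * r ^ 4 - 85 *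
      r ^ 5 - 80 * r ^ 6 - 56 * r ^ 7 - 48 * r ^ 8 - 18 * r ^ 9) * hc + (-33 - 1045 * r - 244 * r ^
      2 - 1025 * r ^ 3 + 239 * r ^ 4 + 187 * r ^ 5 + 470 * r ^ 6 + 83 * r ^ 7 + 90 * r ^ 8 + 144 *
      r ^ 9) * hh
  have hF1 : 9 * F1 = -78 - 104 * r - 219 * r ^ 2 - 255 * r ^ 3 - 321 * r ^ 4 - 282 * r ^ 5 - 249 *
    r ^ 6 - 151 * r ^ 7 - 87 * r ^ 8 - 36 * r ^ 9 := by
    apply mul_left_cancel₀ (pow_ne_zero 4 h3)
    linear_combination 729 * dF1 + (1) * r ^ 6 * ha2 + (-81) * hc2 + (81 + 27 * r ^ 2 - 63 * r ^ 3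
      - 60 * r ^ 4 + 56 * r ^ 5) * hh
  have hF2 : 9 * F2 = -69 - 83 * r - 180 * r ^ 2 - 180 * r ^ 3 - 243 * r ^ 4 - 189 * r ^ 5 - 180 *
    r ^ 6 - 88 * r ^ 7 - 57 * r ^ 8 - 27 * r ^ 9 := by
    apply mul_left_cancel₀ (pow_ne_zero 4 h3)
    linear_combination 729 * dF2 + (1) * r ^ 5 * ha2 + (-81) * hc2 + (27 * r - 63 * r ^ 2 - 60 * r ^
      3 + 56 * r ^ 4) * hh
  have hlw : 27 * lw = -228 - 286 * r - 651 * r ^ 2 - 676 * r ^ 3 - 971 * r ^ 4 - 802 * r ^ 5 - 791 *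
    r ^ 6 - 444 * r ^ 7 - 347 * r ^ 8 - 150 * r ^ 9 := by
    apply mul_left_cancel₀ (pow_ne_zero 2 h3)
    linear_combination 243 * dlw + (1) * (9 * w) * hdl + (1) * (93 + 91 * r + 157 * r ^ 2 + 146 * r ^
      3 + 205 * r ^ 4 + 128 * r ^ 5 + 133 * r ^ 6 + 76 * r ^ 7 + 69 * r ^ 8 + 36 * r ^ 9) * hw +
      (-20 - 110 * r - 142 * r ^ 2 - 293 * r ^ 3 - 154 * r ^ 4 - 152 * r ^ 5 - 80 * r ^ 6 - 138 * r ^
      7 - 72 * r ^ 8) * hh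
  have hcm : 243 * cm = 2094 + 2231 * r + 5909 * r ^ 2 + 6442 * r ^ 3 + 9281 * r ^ 4 + 8116 * r ^ 5
    + 7967 * r ^ 6 + 4775 * r ^ 7 + 3603 * r ^ 8 + 1584 * r ^ 9 := by
    apply mul_left_cancel₀ (pow_ne_zero 3 h3)
    linear_combination 6561 * dcm + (1) * (243 * m) * hc + (1) * (81 + 93 * r + 202 * r ^ 2 + 233 *
      r ^ 3 + 298 * r ^ 4 + 251 * r ^ 5 + 235 * r ^ 6 + 152 * r ^ 7 + 111 * r ^ 8 + 45 * r ^ 9) *
      hm + (4383 + 8948 * r + 9490 * r ^ 2 + 13172 * r ^ 3 + 11119 * r ^ 4 + 8897 * r ^ 5 + 5248 *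
      r ^ 6 + 4020 * r ^ 7 + 1575 * r ^ 8) * hh
  have hX : 6561 * X = 689427 + 855996 * r + 1768927 * r ^ 2 + 2128867 * r ^ 3 + 2662202 * r ^ 4 +
    2504104 * r ^ 5 + 2203931 * r ^ 6 + 1568470 * r ^ 7 + 872245 * r ^ 8 + 588945 * r ^ 9 := by
    linear_combination 6561 * dX + (27) * (9 * F1) * hlw + (27) * (-228 - 286 * r - 651 * r ^ 2 -
      676 * r ^ 3 - 971 * r ^ 4 - 802 * r ^ 5 - 791 * r ^ 6 - 444 * r ^ 7 - 347 * r ^ 8 - 150 * r ^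
      9) * hF1 + (1) * r ^ 3 * (27 * V) * hcm + (1) * r ^ 3 * (2094 + 2231 * r + 5909 * r ^ 2 +
      6442 * r ^ 3 + 9281 * r ^ 4 + 8116 * r ^ 5 + 7967 * r ^ 6 + 4775 * r ^ 7 + 3603 * r ^ 8 +
      1584 * r ^ 9) * hV + (-23251 + 104952 * r + 10530 * r ^ 2 + 97868 * r ^ 3 - 30301 * r ^ 4 -
      6506 * r ^ 5 - 128431 * r ^ 6 - 110312 * r ^ 7 - 147820 * r ^ 8 - 99481 * r ^ 9 - 70197 * r ^
      10 - 36432 * r ^ 11) * hh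
  have hla : 81 * la = 336 + 280 * r + 976 * r ^ 2 + 1037 * r ^ 3 + 1762 * r ^ 4 + 1523 * r ^ 5 +
    1564 * r ^ 6 + 1030 * r ^ 7 + 852 * r ^ 8 + 360 * r ^ 9 := by
    linear_combination 81 * dla + (1) * hac + (-1) * r * hac + (-9) * hw + (-10) * hh
  have had : 243 * ad = 258 + 215 * r + 1247 * r ^ 2 + 1276 * r ^ 3 + 2216 * r ^ 4 + 2221 * r ^ 5 +
    2279 * r ^ 6 + 1409 * r ^ 7 + 1065 * r ^ 8 + 450 * r ^ 9 := by
    apply mul_left_cancel₀ (pow_ne_zero 2 h3)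
    linear_combination 2187 * dad + (1) * (27 * dl) * ha + (1) * (102 + 283 * r + 505 * r ^ 2 + 563 *
      r ^ 3 + 697 * r ^ 4 + 590 * r ^ 5 + 472 * r ^ 6 + 274 * r ^ 7 + 123 * r ^ 8 + 36 * r ^ 9) *
      hdl + (796 + 1618 * r + 1025 * r ^ 2 + 1459 * r ^ 3 + 1052 * r ^ 4 + 1066 * r ^ 5 + 727 * r ^
      6 + 384 * r ^ 7 + 144 * r ^ 8) * hh
  have hp1 : 729 * p1 = 8082 + 4146 * r + 16795 * r ^ 2 + 9247 * r ^ 3 + 19103 * r ^ 4 + 6484 * r ^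
    5 + 11840 * r ^ 6 - 494 * r ^ 7 + 4408 * r ^ 8 - 1851 * r ^ 9 := by
    apply mul_left_cancel₀ (pow_ne_zero 3 h3)
    linear_combination 19683 * dp1 + (1) * r ^ 4 * (81 * la) * had + (1) * r ^ 4 * (258 + 215 * r +
      1247 * r ^ 2 + 1276 * r ^ 3 + 2216 * r ^ 4 + 2221 * r ^ 5 + 2279 * r ^ 6 + 1409 * r ^ 7 +
      1065 * r ^ 8 + 450 * r ^ 9) * hla + (9) * r * (9 * w) * hcm + (9) * r * (2094 + 2231 * r +
      5909 * r ^ 2 + 6442 * r ^ 3 + 9281 * r ^ 4 + 8116 * r ^ 5 + 7967 * r ^ 6 + 4775 * r ^ 7 +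
      3603 * r ^ 8 + 1584 * r ^ 9) * hw + (-24246 + 1962 * r - 51363 * r ^ 2 - 31923 * r ^ 3 -
      98461 * r ^ 4 - 56233 * r ^ 5 - 87845 * r ^ 6 - 16087 * r ^ 7 - 24674 * r ^ 8 + 26570 * r ^ 9
      + 35480 * r ^ 10 + 37200 * r ^ 11 + 18000 * r ^ 12) * hh
  have ha3 : 6561 * a3 = 1398 - 374 * r - 2018 * r ^ 2 - 4672 * r ^ 3 - 2816 * r ^ 4 - 6832 * r ^ 5
    - 10520 * r ^ 6 - 6662 * r ^ 7 - 7743 * r ^ 8 - 3744 * r ^ 9 := by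
    apply mul_left_cancel₀ (pow_ne_zero 2 h3)
    linear_combination 59049 * da3 + (1) * (81 * a) * ha2 + (1) * (-291 - 1498 * r - 1582 * r ^ 2 -
      1826 * r ^ 3 - 1783 * r ^ 4 - 1367 * r ^ 5 - 73 * r ^ 6 + 65 * r ^ 7 + 804 * r ^ 8 + 504 * r ^
      9) * ha + (-4696 - 13231 * r - 24755 * r ^ 2 - 15790 * r ^ 3 - 9221 * r ^ 4 + 3215 * r ^ 5 +
      5696 * r ^ 6 + 4728 * r ^ 7 + 2016 * r ^ 8) * hh
  have ha4 : 59049 * a4 = 53385 + 139703 * r + 179930 * r ^ 2 + 196741 * r ^ 3 + 186830 * r ^ 4 +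
    163423 * r ^ 5 + 132731 * r ^ 6 + 44120 * r ^ 7 + 35823 * r ^ 8 + 17919 * r ^ 9 := by
    apply mul_left_cancel₀ (pow_ne_zero 2 h3)
    linear_combination 531441 * da4 + (1) * (729 * a2) * ha2 + (1) * (-291 - 1498 * r - 1582 * r ^
      2 - 1826 * r ^ 3 - 1783 * r ^ 4 - 1367 * r ^ 5 - 73 * r ^ 6 + 65 * r ^ 7 + 804 * r ^ 8 + 504 *
      r ^ 9) * ha2 + (-43976 + 74437 * r + 153998 * r ^ 2 + 29350 * r ^ 3 - 54559 * r ^ 4 - 45032 *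
      r ^ 5 - 76352 * r ^ 6 + 14784 * r ^ 7 + 28224 * r ^ 8) * hh
  have hg1 : 6561 * g1 = -24420 - 37279 * r - 65839 * r ^ 2 - 69770 * r ^ 3 - 93193 * r ^ 4 - 76277 *
    r ^ 5 - 66319 * r ^ 6 - 42565 * r ^ 7 - 30552 * r ^ 8 - 14778 * r ^ 9 := by
    apply mul_left_cancel₀ (pow_ne_zero 2 h3)
    linear_combination 59049 * dg1 + (1) * r ^ 2 * ha4 + (9) * r ^ 2 * ha3 + (81) * r ^ 2 * ha2 +
      (729) * r ^ 2 * ha + (-9) * r * ha3 + (-81) * r * ha2 + (729) * r * hac + (-2187) * hc +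
      (4737 + 5699 * r) * hh
  have he0 : 6561 * e0 = 46347 + 47573 * r + 116429 * r ^ 2 + 111922 * r ^ 3 + 167942 * r ^ 4 +
    140164 * r ^ 5 + 143138 * r ^ 6 + 83813 * r ^ 7 + 67323 * r ^ 8 + 32769 * r ^ 9 := by
    apply mul_left_cancel₀ (pow_ne_zero 2 h3)
    linear_combination 59049 * de0 + (1) * (81 * ac) * ha2 + (1) * (-291 - 1498 * r - 1582 * r ^ 2
      - 1826 * r ^ 3 - 1783 * r ^ 4 - 1367 * r ^ 5 - 73 * r ^ 6 + 65 * r ^ 7 + 804 * r ^ 8 + 504 *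
      r ^ 9) * hac + (9) * (81 * ac) * ha + (9) * (102 + 283 * r + 505 * r ^ 2 + 563 * r ^ 3 + 697 *
      r ^ 4 + 590 * r ^ 5 + 472 * r ^ 6 + 274 * r ^ 7 + 123 * r ^ 8 + 36 * r ^ 9) * hac + (729) *
      hac + (2187) * hc + (-9) * r * (81 * ac) * ha + (-9) * r * (102 + 283 * r + 505 * r ^ 2 + 563 *
      r ^ 3 + 697 * r ^ 4 + 590 * r ^ 5 + 472 * r ^ 6 + 274 * r ^ 7 + 123 * r ^ 8 + 36 * r ^ 9) *
      hac + (-729) * r * hac + (-1) * r ^ 2 * ha4 + (9) * r * ha3 + (-22144 + 16908 * r - 16142 * r ^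
      2 + 20498 * r ^ 3 - 10706 * r ^ 4 + 7310 * r ^ 5 - 10510 * r ^ 6 - 2202 * r ^ 7 + 1098 * r ^
      8 - 3240 * r ^ 9) * hh
  have hcX : 531441 * cX = 116041455 + 114426687 * r + 292403930 * r ^ 2 + 302427299 * r ^ 3 +
    430176796 * r ^ 4 + 352176158 * r ^ 5 + 352685284 * r ^ 6 + 210496631 * r ^ 7 + 144268307 * r ^
    8 + 74146353 * r ^ 9 := by
    linear_combination 531441 * dcX + (3) * (6561 * X) * hc + (3) * (81 + 93 * r + 202 * r ^ 2 +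
      233 * r ^ 3 + 298 * r ^ 4 + 251 * r ^ 5 + 235 * r ^ 6 + 152 * r ^ 7 + 111 * r ^ 8 + 45 * r ^
      9) * hX + (5721034 + 16513962 * r + 20671959 * r ^ 2 + 28103820 * r ^ 3 + 27161292 * r ^ 4 +
      23969985 * r ^ 5 + 19143480 * r ^ 6 + 11316840 * r ^ 7 + 8834175 * r ^ 8) * hh
  have hU1 : 43046721 * U1 = -3357789075 + 22693289673 * r + 1073219876 * r ^ 2 + 50613876446 * r ^
    3 + 17672858626 * r ^ 4 + 66412864004 * r ^ 5 + 19738694749 * r ^ 6 + 52980756902 * r ^ 7 +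
    5178115118 * r ^ 8 + 23729723187 * r ^ 9 := by
    apply mul_left_cancel₀ (pow_ne_zero 4 h3)
    linear_combination 3486784401 * dU1 + (1) * (6561 * g1) * hcX + (1) * (116041455 + 114426687 *
      r + 292403930 * r ^ 2 + 302427299 * r ^ 3 + 430176796 * r ^ 4 + 352176158 * r ^ 5 + 352685284 *
      r ^ 6 + 210496631 * r ^ 7 + 144268307 * r ^ 8 + 74146353 * r ^ 9) * hg1 + (-284639046225 -
      236336494622 * r - 325497779969 * r ^ 2 - 455121873436 * r ^ 3 - 407527614032 * r ^ 4 -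
      360878715526 * r ^ 5 - 248385704873 * r ^ 6 - 163928548742 * r ^ 7 - 121748311626 * r ^ 8) *
      hh
  have hFp : 4782969 * Fp = 464827779 + 1560337950 * r + 1570244936 * r ^ 2 + 3733247873 * r ^ 3 +
    2998572055 * r ^ 4 + 4669829687 * r ^ 5 + 2678245297 * r ^ 6 + 3363055502 * r ^ 7 + 970071263 *
    r ^ 8 + 1393530054 * r ^ 9 := by
    linear_combination 4782969 * dFp + (729) * (729 * p1) * hF2 + (729) * (-69 - 83 * r - 180 * r ^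
      2 - 180 * r ^ 3 - 243 * r ^ 4 - 189 * r ^ 5 - 180 * r ^ 6 - 88 * r ^ 7 - 57 * r ^ 8 - 27 * r ^
      9) * hp1 + (-96817829 + 7302714 * r - 35493084 * r ^ 2 - 36848142 * r ^ 3 - 8040060 * r ^ 4 -
      30565026 * r ^ 5 + 8984925 * r ^ 6 - 11889261 * r ^ 7 + 4048137 * r ^ 8) * hh
  have hU2 : 3486784401 * U2 = -16925665907088 - 32077237362747 * r - 47955121866829 * r ^ 2 -
    78813804862930 * r ^ 3 - 79819974640940 * r ^ 4 - 96154655924569 * r ^ 5 - 68504096363612 * r ^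
    6 - 65401134562054 * r ^ 7 - 26229551273953 * r ^ 8 - 25991491314432 * r ^ 9 := by
    apply mul_left_cancel₀ (pow_ne_zero 2 h3)
    linear_combination 31381059609 * dU2 + (1) * (6561 * e0) * hFp + (1) * (464827779 + 1560337950 *
      r + 1570244936 * r ^ 2 + 3733247873 * r ^ 3 + 2998572055 * r ^ 4 + 4669829687 * r ^ 5 +
      2678245297 * r ^ 6 + 3363055502 * r ^ 7 + 970071263 * r ^ 8 + 1393530054 * r ^ 9) * he0 +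
      (19319374026345 - 8948845052060 * r + 14741896877941 * r ^ 2 - 1159631845888 * r ^ 3 +
      14118184726744 * r ^ 4 + 2007866575751 * r ^ 5 + 10483932893107 * r ^ 6 + 425850978217 * r ^
      7 + 5073842926614 * r ^ 8) * hh
  have hTT : 10460353203 * T = 77158531198071 + 162669402184731 * r + 224590806552955 * r ^ 2 +
    396927463102675 * r ^ 3 + 382985051165552 * r ^ 4 + 487112497957960 * r ^ 5 + 331464496158524 *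
    r ^ 6 + 335855691563134 * r ^ 7 + 125616604498840 * r ^ 8 + 135009599428038 * r ^ 9 := by
    linear_combination 10460353203 * dT + (243) * hU1 + (3) * r * hU2 + (-8663830438144) * hh
  have eT : U1 + r * U2 = 0 := by
    rw [dU1, dU2, dFp, dcX, de0, dg1, da4, da3, dp1, dad, dla, dX, dcm, dlw, dF2, dF1, dV, dm, dc2,
      dac, da2, ddl, dw]
    linear_combination hT
  have hT0 : 77158531198071 + 162669402184731 * r + 224590806552955 * r ^ 2 + 396927463102675 * r ^ 3 +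
      382985051165552 * r ^ 4 + 487112497957960 * r ^ 5 + 331464496158524 * r ^ 6 + 335855691563134 * r ^
      7 + 125616604498840 * r ^ 8 + 135009599428038 * r ^ 9 = 0 := by
    linear_combination (10460353203) * eT - hTT + (10460353203) * dT
  have hf : w * (r ^ 2 + 1) ^ 2 = 0 := by
    apply mul_left_cancel₀ (pow_ne_zero 45 h3)
    linear_combination (328256967394537077627) * (r ^ 2 + 1) ^ 2 * hw + (95120007288 - 28963711948 *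
      r - 182197219579 * r ^ 2 - 35016686603 * r ^ 3 - 434487011716 * r ^ 4 - 156276938321 * r ^ 5
      - 392226925195 * r ^ 6 - 277038728008 * r ^ 7 - 94026011982 * r ^ 8 - 49744009314 * r ^ 9) *
      hT0 - (816355357456595309044944 - 705294021135097845606544 * r - 1183493129725547403714178 *
      r ^ 2 + 405242964087416332423558 * r ^ 3 - 4001033650106837371353550 * r ^ 4 +
      973027449771660239302114 * r ^ 5 - 3950420036727568831881280 * r ^ 6 -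
      114885670431309890106436 * r ^ 7 - 746213196825303482749548 * r ^ 8) * hh
  rw [dw] at hf
  exact mul_ne_zero hw0 (pow_ne_zero 2 hr2) hf

end Pool.Agent.Helper43.IPL
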